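import Pool.Agent.Helper66.BO.St2

/-!
Props for THEOREM K (the real-matrix form of Theorem P; Beck-Fiala, MP_e8ee11_co), see
bf_helper98b.md in the store: schedule with a family of ridges for a real matrix `a`.
-/

namespace Pool.Agent.Helper92.BK

open Matrix Pool.Agent.Helper50.BO

/-- weighted size of the row `j` at level `i` -/
noncomputable def yK {V J : Type} [Fintype V] (R0 : ℕ) (a : V → J → ℝ) (j : J) (k : V → ℕ)
    (i : ℕ) : ℝ :=
  ∑ v ∈ lvl k i, a v j ^ 2 * (R0 : ℝ) ^ (k v - i)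

/-- ridge of the row `j` at level `i`, ridge parameter `Λ`, giant threshold `s` -/
noncomputable def ridgeK {V J : Type} [Fintype V] (Λ s : ℝ) (R0 : ℕ) (a : V → J → ℝ) (j : J)
    (k : V → ℕ) (i : ℕ) : ℝ :=
  if s ≤ yK R0 a j k i then 1 else Λ

/-- the matrix of level `i` : ridge plus Gram matrix of the elements of rank at least `i` -/
noncomputable def LMK {V J : Type} [Fintype V] [Fintype J] [DecidableEq J]
    (a : V → J → ℝ) (Λ s : ℝ) (R0 : ℕ) (k : V → ℕ) (i : ℕ) : Matrix J J ℝ :=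
  Matrix.diagonal (fun j => ridgeK Λ s R0 a j k i) + Gm a (lvl k i)

/-- S3K: the schedule with a family of ridges for a real matrix. -/
def S3K : Prop := ∀ (V J A : Type) [Fintype V] [Fintype J] [Fintype A] [DecidableEq V]
  [DecidableEq J] (a : V → J → ℝ) (t R0 Lh q : ℕ) (Λ s : A → ℝ),
  1 ≤ t → Nonempty V → Nonempty J → Nonempty A →
  (∀ v, ∑ j, a v j ^ 2 ≤ t) →
  (∀ x, 64 * (t : ℝ) ≤ Λ x) → (∀ x, 1 ≤ s x) → (∀ x, Λ x * Real.log (1 + s x) ≤ s x) →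
  2 ≤ R0 → 1 ≤ q → 16 * q * t ≤ Lh →
  3 * (Fintype.card V + 2) * Fintype.card J < 2 ^ q →
  ∃ k : V → ℕ,
    (∀ v, (R0 ^ 2) ^ k v ≤ 4 * Fintype.card V) ∧
    (∀ i u, k u = i → Fintype.card A ≤ 2 * (Finset.univ.filter fun x =>
      Λ x * lv (LMK a (Λ x) (s x) R0 k (i + 1)) (a u) ≤ 64 * t).card) ∧
    (∀ i, ∀ y : J → ℝ, ∑ u ∈ exq k i, (a u ⬝ᵥ y) ^ 2
      ≤ 16 * R0 ^ 2 * (Lh * (y ⬝ᵥ y) + ∑ v ∈ lvl k (i + 1), (a v ⬝ᵥ y) ^ 2))

end Pool.Agent.Helper92.BK
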