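import Pool.Agent.Helper92.BO.S3Kb
import Pool.Agent.Helper92.BO.R1K2
import Pool.Agent.Helper98.BO.StK

set_option linter.unusedSectionVars false

/-!
Induction over the rounds for Theorem K (real matrices, Beck-Fiala).  Adapted from
Helper50/BO/RoundsP.lean; rows of tiny norm are treated by the additional rows of `RTK`.
-/

namespace Pool.Agent.Helper92.BK

open Matrix Finset Pool.Agent.Helper50.BO Pool.Agent.Helper60.BO Pool.Agent.Helper98.BK

variable {V J A : Type} [Fintype V] [Fintype J] [Fintype A] [DecidableEq V] [DecidableEq J]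

theorem yK_succ {R0 : ℕ} (a : V → J → ℝ) (j : J) (k : V → ℕ) (i : ℕ) :
    R0 * yK R0 a j k (i + 1) ≤ yK R0 a j k i := by
  unfold yK
  rw [Finset.mul_sum]
  have h1 : ∑ v ∈ lvl k (i + 1), (R0 : ℝ) * (a v j ^ 2 * (R0 : ℝ) ^ (k v - (i + 1)))
      = ∑ v ∈ lvl k (i + 1), a v j ^ 2 * (R0 : ℝ) ^ (k v - i) := by
    refine Finset.sum_congr rfl fun v hv => ?_
    have hk : i + 1 ≤ k v := (mem_filter.1 hv).2
    rw [show k v - i = k v - (i + 1) + 1 by omega, pow_succ]
    ring
  rw [h1]
  refine Finset.sum_le_sum_of_subset_of_nonneg (fun v hv => ?_) fun _ _ _ => by positivity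
  simp only [lvl, mem_filter, mem_univ, true_and] at hv ⊢
  omega

theorem yK_nonneg' (R0 : ℕ) (a : V → J → ℝ) (j : J) (k : V → ℕ) (i : ℕ) :
    0 ≤ yK R0 a j k i := yK_nonneg R0 a j k i

theorem yK_anti {R0 : ℕ} (hR : 1 ≤ R0) (a : V → J → ℝ) (j : J) (k : V → ℕ) {i i' : ℕ}
    (hij : i ≤ i') : yK R0 a j k i' ≤ yK R0 a j k i := by
  induction i', hij using Nat.le_induction with
  | base => exact le_rfl
  | succ j' _ ih =>
    refine le_trans ?_ ih
    have h1 : (1 : ℝ) ≤ R0 := by exact_mod_cast hR
    have h2 := yK_nonneg R0 a j k (j' + 1)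
    exact (le_mul_of_one_le_left h2 h1).trans (yK_succ a j k j')

theorem yK_pow {R0 : ℕ} (a : V → J → ℝ) (j : J) (k : V → ℕ) (i l : ℕ) :
    (R0 : ℝ) ^ l * yK R0 a j k (i + l) ≤ yK R0 a j k i := by
  induction l with
  | zero => simp
  | succ l ih =>
    refine le_trans ?_ ih
    have h := yK_succ (R0 := R0) a j k (i + l)
    rw [pow_succ, mul_assoc]
    exact mul_le_mul_of_nonneg_left h (by positivity)

theorem sum_sq_le_yK {R0 : ℕ} (hR : 1 ≤ R0) (a : V → J → ℝ) (j : J) (k : V → ℕ) (i : ℕ) :
    ∑ v ∈ lvl k i, a v j ^ 2 ≤ yK R0 a j k i := by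
  have h1 : (1 : ℝ) ≤ R0 := by exact_mod_cast hR
  unfold yK
  refine Finset.sum_le_sum fun v _ => ?_
  exact le_mul_of_one_le_right (sq_nonneg _) (one_le_pow₀ h1)

/-- the cost of a round for a row -/
noncomputable def costK (R0 : ℕ) (a : V → J → ℝ) (j : J) (k : V → ℕ) (sm β0 T0 θ W' : ℝ) (m : ℕ) :
    ℝ :=
  if sm ≤ yK R0 a j k (m + 1) then T0 / β0
  else if θ < yK R0 a j k m then T0 else W' * √(yK R0 a j k m)

/-- accounting -/
theorem accK {R0 : ℕ} (hR : 4 ≤ R0) (a : V → J → ℝ) (j : J) (k : V → ℕ) {sm β0 T0 θ W' : ℝ}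
    (hsm : sm ≤ R0) (hβ : 0 < β0) (hT : 0 ≤ T0) (hθ : 0 < θ)
    (hWθ : W' * √θ ≤ 1 / 4) {K0 : ℕ} (hK0 : 1 ≤ θ * (R0 : ℝ) ^ K0) (N : ℕ) :
    ∑ m ∈ range N, costK R0 a j k sm β0 T0 θ W' m ≤ T0 * (N / β0 + (K0 + 2)) + 1 := by
  classical
  have hR4 : (4 : ℝ) ≤ R0 := by exact_mod_cast hR
  have hR0 : (0 : ℝ) < R0 := by linarith
  set g : ℕ → ℝ := fun m => √(yK R0 a j k m / θ) with hg
  set G : ℕ → ℝ := fun m => min (g m) 1 with hG
  have hy0 : ∀ m, 0 ≤ yK R0 a j k m := fun m => yK_nonneg R0 a j k m
  have hg0 : ∀ m, 0 ≤ g m := fun m => Real.sqrt_nonneg _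
  have hgs : ∀ m, 2 * g (m + 1) ≤ g m := by
    intro m
    simp only [hg]
    have h1 : 2 * √(yK R0 a j k (m + 1) / θ) = √(4 * (yK R0 a j k (m + 1) / θ)) := by
      rw [Real.sqrt_mul (by norm_num), show (4 : ℝ) = 2 ^ 2 by norm_num,
        Real.sqrt_sq (by norm_num)]
    rw [h1]
    apply Real.sqrt_le_sqrt
    rw [← mul_div_assoc]
    apply div_le_div_of_nonneg_right _ hθ.le
    have h2 := yK_succ (R0 := R0) a j k m
    have h3 := mul_le_mul_of_nonneg_right hR4 (hy0 (m + 1))
    linarith
  have hGa : ∀ m, G (m + 1) ≤ G m := by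
    intro m
    apply min_le_min _ le_rfl
    have := hgs m
    have := hg0 (m + 1)
    linarith
  set P : ℕ → Prop := fun m => yK R0 a j k (m + 1) < sm ∧ θ < yK R0 a j k m with hP
  have hterm : ∀ m, costK R0 a j k sm β0 T0 θ W' m
      ≤ T0 / β0 + (if P m then T0 else 0) + 1 / 2 * (G m - G (m + 1)) := by
    intro m
    have hs : 0 ≤ T0 / β0 := by positivity
    have hp : 0 ≤ (if P m then T0 else 0) := by split_ifs <;> [exact hT; exact le_rfl]
    have hG0 : 0 ≤ 1 / 2 * (G m - G (m + 1)) := by have := hGa m; linarith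
    unfold costK
    by_cases h1 : sm ≤ yK R0 a j k (m + 1)
    · rw [if_pos h1]; linarith
    · rw [if_neg h1]
      by_cases h2 : θ < yK R0 a j k m
      · rw [if_pos h2, if_pos (show P m from ⟨not_le.1 h1, h2⟩)]; linarith
      · rw [if_neg h2]
        push Not at h2
        have e1 : √(yK R0 a j k m) = √θ * g m := by
          simp only [hg]
          rw [← Real.sqrt_mul hθ.le]
          congr 1
          field_simp
        have h3 : g m ≤ 1 := by
          simp only [hg]
          rw [Real.sqrt_le_one, div_le_one hθ]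
          exact h2
        have h4 : G m = g m := min_eq_left h3
        have h5 : G (m + 1) ≤ g (m + 1) := min_le_left _ _
        have h6 := hgs m
        have h7 : W' * √(yK R0 a j k m) ≤ 1 / 4 * g m := by
          rw [e1, ← mul_assoc]
          exact mul_le_mul_of_nonneg_right hWθ (hg0 m)
        linarith
  refine (Finset.sum_le_sum fun m _ => hterm m).trans ?_
  rw [Finset.sum_add_distrib, Finset.sum_add_distrib]
  have b1 : ∑ _m ∈ range N, T0 / β0 = T0 * (N / β0) := by
    rw [Finset.sum_const, card_range, nsmul_eq_mul]; ring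
  have b2 : ∑ m ∈ range N, 1 / 2 * (G m - G (m + 1)) ≤ 1 := by
    rw [← Finset.mul_sum, Finset.sum_range_sub']
    have h1 : G 0 ≤ 1 := min_le_right _ _
    have h2 : 0 ≤ G N := le_min (hg0 N) zero_le_one
    linarith
  have b3 : ∑ m ∈ range N, (if P m then T0 else 0) ≤ T0 * (K0 + 2) := by
    rw [← Finset.sum_filter, Finset.sum_const, nsmul_eq_mul, mul_comm]
    apply mul_le_mul_of_nonneg_left _ hT
    have : ((range N).filter P).card ≤ K0 + 2 := by
      rcases ((range N).filter P).eq_empty_or_nonempty with h | h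
      · rw [h]; simp
      · obtain ⟨m0, hm0, hmin⟩ := Finset.exists_min_image _ (fun m => m) h
        have hP0 : P m0 := (mem_filter.1 hm0).2
        obtain ⟨h01, -⟩ := hP0
        have hsub : (range N).filter P ⊆ Finset.Icc m0 (m0 + 1 + K0) := by
          intro m hm
          rw [Finset.mem_Icc]
          refine ⟨hmin m hm, ?_⟩
          by_contra hcon
          push Not at hcon
          have hPm : P m := (mem_filter.1 hm).2
          obtain ⟨-, h02⟩ := hPm
          obtain ⟨l, hl⟩ : ∃ l, m = m0 + 1 + (K0 + 1) + l := ⟨m - (m0 + 1 + (K0 + 1)), by omega⟩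
          have c1 := yK_pow (R0 := R0) a j k (m0 + 1) (K0 + 1)
          have c2 : yK R0 a j k m ≤ yK R0 a j k (m0 + 1 + (K0 + 1)) :=
            yK_anti (by omega) a j k (by omega)
          have c3 : (R0 : ℝ) ^ (K0 + 1) * yK R0 a j k (m0 + 1 + (K0 + 1)) < R0 := by linarith
          have c4 : (R0 : ℝ) ^ K0 * yK R0 a j k (m0 + 1 + (K0 + 1)) < 1 := by
            rw [pow_succ] at c3
            have : (R0 : ℝ) * ((R0 : ℝ) ^ K0 * yK R0 a j k (m0 + 1 + (K0 + 1))) < R0 * 1 := by
              calc _ = (R0 : ℝ) ^ K0 * R0 * yK R0 a j k (m0 + 1 + (K0 + 1)) := by ring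
                _ < _ := by linarith
            exact lt_of_mul_lt_mul_left this hR0.le
          have c5 : (R0 : ℝ) ^ K0 * θ ≤ (R0 : ℝ) ^ K0 * yK R0 a j k (m0 + 1 + (K0 + 1)) :=
            mul_le_mul_of_nonneg_left (h02.le.trans c2) (by positivity)
          linarith
        refine (Finset.card_le_card hsub).trans ?_
        rw [Nat.card_Icc]
        omega
    exact_mod_cast this
  rw [b1]
  linarith

theorem roundsK (hR1 : R1K2) {C : ℝ} (hRT : RTK C) (a : V → J → ℝ) (ha : ∀ v j, |a v j| ≤ 1)
    {t R0 Lh : ℕ} {Λ s : A → ℝ} {k : V → ℕ} (hA : Nonempty A) (ht : 1 ≤ t) (hR : 4 ≤ R0)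
    (hLh : 1 ≤ Lh)
    {Λm sm β0 Θ : ℝ} (hΛ1 : ∀ x, 1 ≤ Λ x) (hΛm : ∀ x, Λ x ≤ Λm)
    (hs : ∀ x, s x ≤ sm) (hsm : sm ≤ R0) (hβ1 : 1 ≤ β0) (hβ : ∀ x, β0 ^ 2 ≤ Λ x)
    (hΘ1 : 1 ≤ Θ) (hΘg : ∀ x, 2 * (β0 * √(64 * t / Λ x)) ≤ Θ)
    (hΘ : ∀ Y : ℝ, 0 ≤ Y → Y < sm → 2 / Fintype.card A * ∑ x, min √((if s x ≤ Y then 1 else Λ x)
      * (64 * t) / Λ x) (1 + √(Y * (64 * t) / Λ x)) ≤ Θ)
    (P1 : ∀ i u, k u = i → Fintype.card A ≤ 2 * (Finset.univ.filter fun x =>
      Λ x * lv (LMK a (Λ x) (s x) R0 k (i + 1)) (a u) ≤ 64 * t).card)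
    (P3 : ∀ i, ∀ y : J → ℝ, ∑ u ∈ exq k i, (a u ⬝ᵥ y) ^ 2
      ≤ 16 * R0 ^ 2 * (Lh * (y ⬝ᵥ y) + ∑ v ∈ lvl k (i + 1), (a v ⬝ᵥ y) ^ 2))
    {K : ℕ} (hK : ∀ v, k v < K) {N T0 : ℝ}
    (hN : (Fintype.card V : ℝ) + Fintype.card (J ⊕ V) + Fintype.card J + 3 ≤ N)
    (hT0 : C * (√(64 * t) + Θ * (1 + gs (LL (64 * t * (2 * (16 * R0 ^ 2 * Lh) * Λm)) N))) ≤ T0)
    (hC : 0 ≤ C) (hT00 : 0 ≤ T0) (hε : K * (T0 / β0) ≤ 1)
    {K0 : ℕ} {W : ℝ} (hW : Real.exp (C * LL (64 * t * (2 * (16 * R0 ^ 2 * Lh) * Λm)) N) ≤ W)
    (hK0 : 96 * (16 * R0 ^ 2 * Lh) * W ^ 2 ≤ (R0 : ℝ) ^ K0) :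
    ∃ χ : V → ℝ, (∀ v, |χ v| = 1) ∧
      ∀ j, |∑ v, a v j * χ v| ≤ T0 * (K / β0 + (K0 + 2)) + 1 := by
  classical
  obtain ⟨x0⟩ := hA
  have hcA : (0 : ℝ) < Fintype.card A := by
    have : 0 < Fintype.card A := Fintype.card_pos_iff.2 ⟨x0⟩
    exact_mod_cast this
  have hβ0 : 0 < β0 := by linarith
  have ht1 : (1 : ℝ) ≤ t := by exact_mod_cast ht
  have hR1' : (1 : ℝ) ≤ R0 := by
    have : (4 : ℝ) ≤ R0 := by exact_mod_cast hR
    linarith
  have hLh1 : (1 : ℝ) ≤ Lh := by exact_mod_cast hLh
  have hΘ0 : 0 < Θ := by linarith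
  have hΛm1 : 1 ≤ Λm := (hΛ1 x0).trans (hΛm x0)
  set B : ℝ := 16 * R0 ^ 2 * Lh with hB
  have hB1 : 1 ≤ B := by
    rw [hB]
    have : (1 : ℝ) ≤ R0 ^ 2 := one_le_pow₀ hR1'
    nlinarith
  have hBΛ : 1 ≤ 2 * B * Λm := by nlinarith
  have hW0 : 0 < W := lt_of_lt_of_le (Real.exp_pos _) hW
  set W' : ℝ := W * √(6 * B) with hW'
  have hW'0 : 0 ≤ W' := by positivity
  set θ : ℝ := 1 / (96 * B * W ^ 2) with hθ
  have hθ0 : 0 < θ := by positivity
  have hWθ : W' * √θ ≤ 1 / 4 := by
    rw [hW', mul_assoc, ← Real.sqrt_mul (by positivity)]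
    have e : 6 * B * θ = (1 / (4 * W)) ^ 2 := by
      rw [hθ]; field_simp; norm_num
    rw [e, Real.sqrt_sq (by positivity)]
    apply le_of_eq
    field_simp
  have hK0' : 1 ≤ θ * (R0 : ℝ) ^ K0 := by
    rw [hθ, one_div, inv_mul_eq_div, one_le_div (by positivity)]
    exact hK0
  set ε := T0 / β0 with hεd
  have hε0 : 0 ≤ ε := by positivity
  have key : ∀ i : ℕ, i ≤ K → ∃ x : V → ℝ, (∀ v, k v < i → |x v| = 1) ∧
      (∀ v, i ≤ k v → |x v| ≤ i * ε) ∧
      ∀ j, |∑ v, a v j * x v| ≤ ∑ m ∈ range i, costK R0 a j k sm β0 T0 θ W' m := by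
    intro i
    induction i with
    | zero =>
      intro _
      refine ⟨fun _ => 0, fun v hv => absurd hv (Nat.not_lt_zero _), fun v _ => by simp, fun j => by simp⟩
    | succ i ih =>
      intro hiK
      obtain ⟨x, x1, x2, x3⟩ := ih (by omega)
      have hxall : ∀ v, |x v| ≤ 1 := by
        intro v
        rcases Nat.lt_or_ge (k v) i with h | h
        · exact (x1 v h).le
        · refine (x2 v h).trans (le_trans ?_ hε)
          apply mul_le_mul_of_nonneg_right _ hε0
          have : i ≤ K := by omega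
          exact_mod_cast this
      set lam : A → J → ℝ := fun z j => ridgeK (Λ z) (s z) R0 a j k (i + 1) with hlam
      have hlam1 : ∀ z j, 1 ≤ lam z j := by
        intro z j
        simp only [hlam, ridgeK]
        split_ifs
        · exact le_rfl
        · exact hΛ1 z
      set β : J → ℝ := fun j => if sm ≤ yK R0 a j k (i + 1) then β0 else 1 with hβd
      have hβpos : ∀ j, 0 < β j := by
        intro j; simp only [hβd]; split_ifs
        · exact hβ0
        · exact one_pos
      have hβlam : ∀ z j, β j ^ 2 * lam z j ≤ Λ z := by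
        intro z j
        simp only [hβd, hlam, ridgeK]
        by_cases h : sm ≤ yK R0 a j k (i + 1)
        · rw [if_pos h, if_pos ((hs z).trans h), mul_one]
          exact hβ z
        · rw [if_neg h, one_pow, one_mul]
          split_ifs
          · exact hΛ1 z
          · exact le_rfl
      have hdis : Disjoint (exq k i) (lvl k (i + 1)) := by
        rw [Finset.disjoint_left]
        intro v hv hv'
        simp only [exq, lvl, mem_filter, mem_univ, true_and] at hv hv'
        omega
      obtain ⟨c, c1, c2, c3, c3', -, c6, c5⟩ := hR1 V J A a (exq k i) (lvl k (i + 1)) lam Λ β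
        β0 (64 * t) B Λm Θ hdis ⟨x0⟩ ha (by positivity) (by linarith) hΛ1 hΛm hlam1
        (fun j => (hβpos j).le) hβlam hβ0.le hβ
        (fun u hu => P1 i u (by simpa [exq] using hu))
        (fun y => by
          refine (P3 i y).trans ?_
          have e2 : y ⬝ᵥ y = ∑ j, y j ^ 2 := by
            unfold dotProduct
            exact Finset.sum_congr rfl fun j _ => by ring
          have e3 : 0 ≤ ∑ v ∈ lvl k (i + 1), (a v ⬝ᵥ y) ^ 2 :=
            Finset.sum_nonneg fun _ _ => sq_nonneg _
          rw [e2, hB]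
          have e4 : (Lh : ℝ) * ∑ j, y j ^ 2 + ∑ v ∈ lvl k (i + 1), (a v ⬝ᵥ y) ^ 2
              ≤ Lh * (∑ j, y j ^ 2 + ∑ v ∈ lvl k (i + 1), (a v ⬝ᵥ y) ^ 2) := by
            rw [mul_add]
            apply add_le_add le_rfl
            exact le_mul_of_one_le_left e3 hLh1
          calc 16 * (R0 : ℝ) ^ 2 * ((Lh : ℝ) * ∑ j, y j ^ 2 + ∑ v ∈ lvl k (i + 1), (a v ⬝ᵥ y) ^ 2)
              ≤ 16 * (R0 : ℝ) ^ 2 * (Lh * (∑ j, y j ^ 2
                + ∑ v ∈ lvl k (i + 1), (a v ⬝ᵥ y) ^ 2)) :=
                mul_le_mul_of_nonneg_left e4 (by positivity)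
            _ = _ := by ring)
        (fun j => by
          by_cases h : sm ≤ yK R0 a j k (i + 1)
          · have hβe : β j = β0 := by simp only [hβd]; rw [if_pos h]
            rw [hβe]
            have hle : ∀ z, min √(lam z j * (64 * t) / Λ z)
                (1 + √((∑ v ∈ lvl k (i + 1), a v j ^ 2) * (64 * t) / Λ z))
                ≤ Θ / (2 * β0) := by
              intro z
              refine (min_le_left _ _).trans ?_
              have e : lam z j = 1 := by
                simp only [hlam, ridgeK]; rw [if_pos ((hs z).trans h)]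
              rw [e, one_mul, le_div_iff₀ (by linarith)]
              have := hΘg z
              linarith
            have h2 := Finset.sum_le_sum fun z (_ : z ∈ (Finset.univ : Finset A)) => hle z
            rw [Finset.sum_const, Finset.card_univ, nsmul_eq_mul] at h2
            calc β0 * (2 / Fintype.card A * _)
                ≤ β0 * (2 / Fintype.card A * (Fintype.card A * (Θ / (2 * β0)))) := by
                  apply mul_le_mul_of_nonneg_left _ hβ0.le
                  exact mul_le_mul_of_nonneg_left h2 (by positivity)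
              _ = Θ := by field_simp
          · have hβe : β j = 1 := by simp only [hβd]; rw [if_neg h]
            rw [hβe, one_mul]
            refine le_trans ?_ (hΘ (yK R0 a j k (i + 1)) (yK_nonneg _ _ _ _ _) (not_le.1 h))
            apply mul_le_mul_of_nonneg_left _ (by positivity)
            refine Finset.sum_le_sum fun z _ => ?_
            apply min_le_min
            · simp only [hlam, ridgeK]; exact le_rfl
            · have hΛa : 0 < Λ z := by have := hΛ1 z; linarith
              apply add_le_add le_rfl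
              apply Real.sqrt_le_sqrt
              apply div_le_div_of_nonneg_right _ hΛa.le
              exact mul_le_mul_of_nonneg_right (sum_sq_le_yK (by omega) a j k (i + 1))
                (by positivity))
        (fun z => by
          have := hΘg z
          have h0 : 0 ≤ β0 * √(64 * t / Λ z) := by positivity
          linarith)
      set τ' : ℝ := max 1 (64 * t / Θ ^ 2) with hτ'
      have hΘ2 : 1 ≤ Θ ^ 2 := one_le_pow₀ hΘ1
      have hτB : τ' ≤ 64 * t * (2 * B * Λm) := by
        rw [hτ']
        apply max_le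
        · nlinarith
        · calc 64 * (t : ℝ) / Θ ^ 2 ≤ 64 * t := div_le_self (by positivity) hΘ2
            _ ≤ _ := le_mul_of_one_le_right (by positivity) hBΛ
      obtain ⟨y, y1, y2, y3⟩ := hRT V (J ⊕ V) J (fun r u => c r u / Θ) (fun j u => c (Sum.inl j) u)
        x (64 * t * (2 * B * Λm)) N τ'
        (le_max_left _ _) hτB (by exact hN)
        (fun r u => by
          rw [div_pow, div_le_one (by positivity), ← sq_abs]
          exact pow_le_pow_left₀ (abs_nonneg _) (c3' r u) 2)
        (fun u => by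
          have e : ∑ r, (c r u / Θ) ^ 2 = (∑ r, c r u ^ 2) / Θ ^ 2 := by
            rw [Finset.sum_div]; exact Finset.sum_congr rfl fun r _ => by rw [div_pow]
          rw [e]
          refine le_trans ?_ (le_max_right _ _)
          exact div_le_div_of_nonneg_right (c2 u) (by positivity))
        (fun r => by
          have e : ∑ u, (c r u / Θ) ^ 2 = (∑ u, c r u ^ 2) / Θ ^ 2 := by
            rw [Finset.sum_div]; exact Finset.sum_congr rfl fun r _ => by rw [div_pow]
          rw [e]
          refine (div_le_self (Finset.sum_nonneg fun _ _ => sq_nonneg _) hΘ2).trans ?_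
          refine (c3 r).trans ?_
          exact le_mul_of_one_le_left (by linarith) (by linarith)) hxall
      have hcξ : ∀ r, |∑ u, c r u * (y u - x u)| ≤ T0 := by
        intro r
        have h1 := y2 r
        have e : ∑ u, c r u / Θ * (y u - x u) = (∑ u, c r u * (y u - x u)) / Θ := by
          rw [Finset.sum_div]; exact Finset.sum_congr rfl fun u _ => by ring
        rw [e, abs_div, abs_of_pos hΘ0, div_le_iff₀ hΘ0] at h1
        refine h1.trans (le_trans ?_ hT0)
        have h2 : √τ' * Θ ≤ √(64 * t) + Θ := by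
          have h3 : √τ' ≤ √(64 * t) / Θ + 1 := by
            rw [hτ']
            rw [Real.sqrt_le_left (by positivity)]
            apply max_le
            · have : 0 ≤ √(64 * (t : ℝ)) / Θ := by positivity
              nlinarith
            · have h4 : (64 * (t : ℝ)) / Θ ^ 2 = (√(64 * t) / Θ) ^ 2 := by
                rw [div_pow, Real.sq_sqrt (by positivity)]
              rw [h4]
              have : 0 ≤ √(64 * (t : ℝ)) / Θ := by positivity
              nlinarith
          calc √τ' * Θ ≤ (√(64 * t) / Θ + 1) * Θ := mul_le_mul_of_nonneg_right h3 hΘ0.le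
            _ = _ := by field_simp
        calc C * (√τ' + gs (LL (64 * t * (2 * B * Λm)) N)) * Θ
            = C * (√τ' * Θ + Θ * gs (LL (64 * t * (2 * B * Λm)) N)) := by ring
          _ ≤ C * (√(64 * t) + Θ + Θ * gs (LL (64 * t * (2 * B * Λm)) N)) := by
              apply mul_le_mul_of_nonneg_left _ hC
              linarith
          _ = _ := by rw [hB]; ring
      obtain ⟨δ, d1, d2, d3⟩ := c5 (fun u => y u - x u)
      refine ⟨fun v => if v ∈ exq k i then y v else x v + δ v, fun v hv => ?_, fun v hv => ?_,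
        fun j => ?_⟩
      · by_cases h : v ∈ exq k i
        · simp only [h, if_true]; exact y1 v
        · simp only [h, if_false]
          have h2 : k v ≠ i := fun h3 => h (by simp [exq, h3])
          have h3 : v ∉ lvl k (i + 1) := by
            simp only [lvl, mem_filter, mem_univ, true_and]; omega
          rw [d1 v h3, add_zero]
          exact x1 v (by omega)
      · have h : v ∉ exq k i := by
          simp only [exq, mem_filter, mem_univ, true_and]; omega
        simp only [h, if_false]
        refine (abs_add_le _ _).trans ?_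
        have h1 := x2 v (by omega)
        have h2 : |δ v| ≤ ε := by
          rw [hεd, le_div_iff₀ hβ0, mul_comm]
          exact (d2 v).trans (hcξ _)
        push_cast
        linarith
      · set y' : V → ℝ := fun v => if v ∈ exq k i then y v else x v + δ v with hy'
        have hdiff : β j * (∑ v, a v j * y' v - ∑ v, a v j * x v)
            = ∑ u, c (Sum.inl j) u * (y u - x u) := by
          rw [← d3 j]
          congr 1
          have e1 : ∀ (U : Finset V) (f : V → ℝ), ∑ u ∈ U, a u j * f u
              = ∑ u, if u ∈ U then a u j * f u else 0 := by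
            intro U f
            rw [Finset.sum_ite_mem, Finset.univ_inter]
          rw [e1 (exq k i), e1 (lvl k (i + 1)), ← Finset.sum_add_distrib,
            ← Finset.sum_sub_distrib]
          refine Finset.sum_congr rfl fun v _ => ?_
          by_cases h : v ∈ exq k i
          · have h3 : v ∉ lvl k (i + 1) := Finset.disjoint_left.1 hdis h
            simp only [hy', h, h3, if_true, if_false]
            ring
          · by_cases h3 : v ∈ lvl k (i + 1)
            · simp only [hy', h, h3, if_true, if_false]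
              ring
            · simp only [hy', h, h3, if_false, d1 v h3]
              ring
        have hstep : |∑ v, a v j * y' v - ∑ v, a v j * x v|
            ≤ costK R0 a j k sm β0 T0 θ W' i := by
          have h2 : β j * |∑ v, a v j * y' v - ∑ v, a v j * x v|
              = |∑ u, c (Sum.inl j) u * (y u - x u)| := by
            rw [← hdiff, abs_mul, abs_of_pos (hβpos j)]
          unfold costK
          by_cases h : sm ≤ yK R0 a j k (i + 1)
          · have hβe : β j = β0 := by simp only [hβd]; rw [if_pos h]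
            rw [if_pos h, le_div_iff₀ hβ0, mul_comm, ← hβe, h2]
            exact hcξ _
          · have hβe : β j = 1 := by simp only [hβd]; rw [if_neg h]
            rw [hβe, one_mul] at h2
            rw [if_neg h, h2]
            by_cases h3 : θ < yK R0 a j k i
            · rw [if_pos h3]
              exact hcξ _
            · rw [if_neg h3]
              refine (y3 j).trans ?_
              have h4 := c6 j
              rw [hβe, one_pow, one_mul] at h4
              have h5 : 2 * ∑ u ∈ exq k i, a u j ^ 2 + 4 * B * ∑ v ∈ lvl k (i + 1), a v j ^ 2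
                  ≤ 6 * B * yK R0 a j k i := by
                have h6 : ∑ u ∈ exq k i, a u j ^ 2 ≤ yK R0 a j k i := by
                  refine le_trans ?_ (sum_sq_le_yK (by omega) a j k i)
                  refine Finset.sum_le_sum_of_subset_of_nonneg (fun v hv => ?_)
                    fun _ _ _ => sq_nonneg _
                  simp only [exq, lvl, mem_filter, mem_univ, true_and] at hv ⊢
                  omega
                have h7 : ∑ v ∈ lvl k (i + 1), a v j ^ 2 ≤ yK R0 a j k i := by
                  refine le_trans ?_ (sum_sq_le_yK (by omega) a j k i)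
                  refine Finset.sum_le_sum_of_subset_of_nonneg (fun v hv => ?_)
                    fun _ _ _ => sq_nonneg _
                  simp only [lvl, mem_filter, mem_univ, true_and] at hv ⊢
                  omega
                have h8 := yK_nonneg R0 a j k i
                nlinarith
              have e6 : W' * √(yK R0 a j k i) = W * √(6 * B * yK R0 a j k i) := by
                rw [Real.sqrt_mul (show 0 ≤ 6 * B by positivity) (yK R0 a j k i), hW']
                ring
              rw [e6]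
              exact mul_le_mul hW (Real.sqrt_le_sqrt (h4.trans h5)) (Real.sqrt_nonneg _) hW0.le
        rw [Finset.sum_range_succ]
        have e : ∑ v, a v j * y' v = ∑ v, a v j * x v
            + (∑ v, a v j * y' v - ∑ v, a v j * x v) := by ring
        rw [e]
        exact (abs_add_le _ _).trans (add_le_add (x3 j) hstep)
  obtain ⟨χ, k1, -, k3⟩ := key K le_rfl
  refine ⟨χ, fun v => k1 v (hK v), fun j => (k3 j).trans ?_⟩
  exact accK hR a j k hsm hβ0 hT00 hθ0 hWθ hK0' K

end Pool.Agent.Helper92.BK
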