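import Pool.Agent.Helper92.BO.S3Kb

set_option linter.unusedSectionVars false

/-!
The schedule with a family of ridges for a real matrix (module S3K of Theorem K, Beck-Fiala).
-/

namespace Pool.Agent.Helper92.BK

open Matrix Pool.Agent.Helper50.BO Pool.Agent.Helper92.BO Pool.Agent.Helper92.BP

variable {V J A : Type} [Fintype V] [Fintype J] [Fintype A] [DecidableEq V] [DecidableEq J]

/-- weighted sum of the averaged log dets -/
noncomputable def SFB (a : V → J → ℝ) (t : ℕ) (Λ s : A → ℝ) (R0 : ℕ) (x : V → ℕ) : ℝ :=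
  ∑ i ∈ Finset.Icc 2 (KK V), ((R0 : ℝ) ^ 2) ^ i * FB a t Λ s R0 x i

/-- right side of the invariant -/
noncomputable def RHSK (a : V → J → ℝ) (t : ℕ) (Λ s : A → ℝ) (R0 : ℕ) (x : V → ℕ) : ℝ :=
  (R0 : ℝ) ^ 2 * Fintype.card V
    + cc R0 * ((R0 : ℝ) ^ 2 * cnt x + SFB a t Λ s R0 x / 16)

/-- invariant of the raising procedure -/
structure InvK (a : V → J → ℝ) (t R0 Lh q : ℕ) (Λ s : A → ℝ) (x : V → ℕ) : Prop where
  hM : ∀ m ∈ Finset.Icc 1 (KK V), (Mx a Lh (pp R0) x m).PosDef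
  hP : XX ((R0 : ℝ) ^ 2) x + gg V J R0 * ST a Lh (pp R0) q (KK V) x ≤ RHSK a t Λ s R0 x

section bounds

variable {a : V → J → ℝ} {t R0 Lh q : ℕ} {Λ s : A → ℝ} (H : HypK a t R0 Lh q Λ s) (hS2c : S2c)
  {x : V → ℕ} (I : InvK a t R0 Lh q Λ s x)
include H I hS2c

theorem sfb_le : SFB a t Λ s R0 x / 16 ≤ XX ((R0 : ℝ) ^ 2) x / 8 := by
  have h1 := key_sumP H.hR x (KK V) (fun i => FB a t Λ s R0 x i) (fun i => FB_le H hS2c x i)
  unfold SFB
  linarith

theorem main_boundP : 2 / 3 * XX ((R0 : ℝ) ^ 2) x + gg V J R0 * ST a Lh (pp R0) q (KK V) x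
    ≤ 7 / 3 * ((R0 : ℝ) ^ 2 * Fintype.card V) := by
  have h1 := I.hP
  have h3 := sfb_le H hS2c I
  have h4 := cnt_le x
  have hR := H.R4
  have hn := H.n1
  have hc1 := H.cc1
  have hc2 := H.cc2
  have hX := XX_nonneg (by linarith : (0 : ℝ) ≤ (R0 : ℝ) ^ 2) x
  unfold RHSK at h1
  have h5 : (R0 : ℝ) ^ 2 * cnt x + SFB a t Λ s R0 x / 16
      ≤ (R0 : ℝ) ^ 2 * Fintype.card V + XX ((R0 : ℝ) ^ 2) x / 4 := by
    have := mul_le_mul_of_nonneg_left h4 (by linarith : (0 : ℝ) ≤ (R0 : ℝ) ^ 2)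
    linarith
  have h6 := mul_le_mul_of_nonneg_left h5 (by linarith : 0 ≤ cc R0)
  have h7 : 0 ≤ (R0 : ℝ) ^ 2 * Fintype.card V + XX ((R0 : ℝ) ^ 2) x / 4 := by positivity
  have h8 := mul_le_mul_of_nonneg_right hc2 h7
  linarith

theorem xx_boundP : XX ((R0 : ℝ) ^ 2) x ≤ 7 / 2 * ((R0 : ℝ) ^ 2 * Fintype.card V) := by
  have h1 := main_boundP H hS2c I
  have h2 : 0 ≤ gg V J R0 * ST a Lh (pp R0) q (KK V) x := by
    refine mul_nonneg H.gg_pos.le ?_
    unfold Pool.Agent.Helper92.BK.ST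
    exact Finset.sum_nonneg fun m hm => mul_nonneg (pow_nonneg H.Lpos.le _)
      (TP_nonneg (I.hM m hm) q)
  linarith

theorem pow_boundP {v : V} (hv : 1 ≤ x v) :
    ((R0 : ℝ) ^ 2) ^ (x v - 1) ≤ 7 / 2 * Fintype.card V := by
  have h1 := xx_boundP H hS2c I
  have hR := H.R4
  have h2 : ((R0 : ℝ) ^ 2) ^ x v ≤ XX ((R0 : ℝ) ^ 2) x := by
    unfold XX
    have := Finset.single_le_sum (f := fun v => if 1 ≤ x v then ((R0 : ℝ) ^ 2) ^ x v else 0)
      (fun v _ => by split_ifs <;> positivity) (Finset.mem_univ v)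
    simp only [if_pos hv] at this
    exact this
  have h3 : ((R0 : ℝ) ^ 2) ^ x v = (R0 : ℝ) ^ 2 * ((R0 : ℝ) ^ 2) ^ (x v - 1) := by
    rw [← pow_succ']; congr 1; omega
  rw [h3] at h2
  have h4 := h2.trans h1
  have h5 : (R0 : ℝ) ^ 2 * ((R0 : ℝ) ^ 2) ^ (x v - 1)
      ≤ (R0 : ℝ) ^ 2 * (7 / 2 * Fintype.card V) := by linarith
  exact le_of_mul_le_mul_left h5 (by linarith)

theorem x_boundP (v : V) : x v ≤ Fintype.card V + 1 := by
  by_contra hcon
  push Not at hcon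
  have hv : 1 ≤ x v := by omega
  have h1 := pow_boundP H hS2c I hv
  have hR := H.R4
  have hn := H.n1
  have h2 : (4 : ℝ) ^ (Fintype.card V + 1) ≤ ((R0 : ℝ) ^ 2) ^ (x v - 1) := by
    calc (4 : ℝ) ^ (Fintype.card V + 1) ≤ ((R0 : ℝ) ^ 2) ^ (Fintype.card V + 1) :=
          pow_le_pow_left₀ (by norm_num) hR _
      _ ≤ _ := pow_le_pow_right₀ (by linarith) (by omega)
  have h3 : (Fintype.card V : ℝ) < 4 ^ Fintype.card V := by
    exact_mod_cast Nat.lt_pow_self (by norm_num : 1 < 4)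
  have h4 : (4 : ℝ) ^ (Fintype.card V + 1) = 4 * 4 ^ Fintype.card V := by rw [pow_succ]; ring
  linarith

theorem qf_boundP (hS1c : S1c) : ∀ m ∈ Finset.Icc 1 (KK V),
    QF (Mx a Lh (pp R0) x m) ((Lh : ℝ) / 2) := by
  intro m hm
  have h1 := main_boundP H hS2c I
  have hR := H.R4
  have hX := XX_nonneg (by linarith : (0 : ℝ) ≤ (R0 : ℝ) ^ 2) x
  have h2 : gg V J R0 * ST a Lh (pp R0) q (KK V) x
      ≤ gg V J R0 * (7 / 3 * (KK V * Fintype.card J)) := by
    have := H.gg_mul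
    have e : gg V J R0 * (7 / 3 * (KK V * Fintype.card J))
        = 7 / 3 * (gg V J R0 * (KK V * Fintype.card J)) := by ring
    rw [e, this]
    linarith
  have h3 := le_of_mul_le_mul_left h2 H.gg_pos
  have h4 : (Lh : ℝ) ^ q * TP (Mx a Lh (pp R0) x m) q ≤ ST a Lh (pp R0) q (KK V) x := by
    unfold Pool.Agent.Helper92.BK.ST
    exact Finset.single_le_sum (f := fun m => (Lh : ℝ) ^ q * TP (Mx a Lh (pp R0) x m) q)
      (fun m hm => mul_nonneg (pow_nonneg H.Lpos.le _) (TP_nonneg (I.hM m hm) q)) hm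
  have h5 : (3 : ℝ) * (KK V * Fintype.card J) < 2 ^ q := by
    have := H.hq2
    have h6 : 3 * (KK V * Fintype.card J) < 2 ^ q := by
      unfold KK; rw [← mul_assoc]; exact this
    exact_mod_cast h6
  have hd := H.d1
  have hk : (0 : ℝ) < KK V := by unfold KK; positivity
  have hkd : 0 < (KK V : ℝ) * Fintype.card J := mul_pos hk (by linarith)
  have h7 : (Lh : ℝ) ^ q * TP (Mx a Lh (pp R0) x m) q < 2 ^ q := by linarith
  have hL := H.Lpos
  refine hS1c J _ q (Lh / 2) (I.hM m hm) H.hq (by positivity) ?_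
  have h8 : (1 / ((Lh : ℝ) / 2)) ^ q = 2 ^ q / Lh ^ q := by
    rw [one_div, inv_div, div_pow]
  rw [h8, lt_div_iff₀ (pow_pos hL q)]
  linarith

end bounds

section moves

variable {a : V → J → ℝ} {t R0 Lh q : ℕ} {Λ s : A → ℝ} (H : HypK a t R0 Lh q Λ s)
include H

theorem SFB_mono (hS2a : S2a) {x x' : V → ℕ} (h : ∀ w, x w ≤ x' w) :
    SFB a t Λ s R0 x ≤ SFB a t Λ s R0 x' := by
  unfold SFB
  refine Finset.sum_le_sum fun i _ => ?_
  exact mul_le_mul_of_nonneg_left (FB_mono H hS2a h i) (by positivity)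

theorem SFB_gain (hS2a : S2a) (hS2b : S2b) {x x' : V → ℕ} (h : ∀ w, x w ≤ x' w) {v : V} {i : ℕ}
    (hi : i ∈ Finset.Icc 2 (KK V)) (hv : x v < i) (hv' : i ≤ x' v)
    (hlv : 2 * (Finset.univ.filter fun z =>
      Λ z * lv (LMK a (Λ z) (s z) R0 x i) (a v) ≤ 64 * t).card < Fintype.card A) :
    SFB a t Λ s R0 x + ((R0 : ℝ) ^ 2) ^ i * 16 ≤ SFB a t Λ s R0 x' := by
  unfold SFB
  rw [← Finset.sum_erase_add _ _ hi, ← Finset.sum_erase_add (Finset.Icc 2 (KK V))
    (fun i => ((R0 : ℝ) ^ 2) ^ i * FB a t Λ s R0 x' i) hi]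
  have h1 : ∑ i ∈ (Finset.Icc 2 (KK V)).erase i, ((R0 : ℝ) ^ 2) ^ i * FB a t Λ s R0 x i
      ≤ ∑ i ∈ (Finset.Icc 2 (KK V)).erase i, ((R0 : ℝ) ^ 2) ^ i * FB a t Λ s R0 x' i := by
    refine Finset.sum_le_sum fun i _ => ?_
    exact mul_le_mul_of_nonneg_left (FB_mono H hS2a h i) (by positivity)
  have h2 := mul_le_mul_of_nonneg_left (FB_gain H hS2a hS2b h hv hv' hlv)
    (show (0 : ℝ) ≤ ((R0 : ℝ) ^ 2) ^ i by positivity)
  rw [mul_add] at h2
  linarith

variable (hS1a : S1a) (hS1b : S1b) (hS1c : S1c) (hS2c : S2c)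
include hS1a hS1b hS1c hS2c

theorem move_genP {x : V → ℕ} (I : InvK a t R0 Lh q Λ s x) (v : V) (i : ℕ)
    (hi : 1 ≤ i) (hxi : x v < i)
    (hgain : ∀ x' : V → ℕ, (∀ w, x w ≤ x' w) → i ≤ x' v →
      RHSK a t Λ s R0 x + cc R0 * ((R0 : ℝ) ^ 2) ^ i ≤ RHSK a t Λ s R0 x') :
    ∃ x' : V → ℕ, InvK a t R0 Lh q Λ s x' ∧ ∑ w, x w < ∑ w, x' w := by
  have hqf := qf_boundP H hS2c I hS1c
  have hR := H.R4
  have hLq : 16 * (q : ℝ) * t ≤ Lh := by exact_mod_cast H.hL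
  obtain ⟨i', h1, h2, h3⟩ := landing hS1a hS1b a (L := Lh) (p := pp R0) (R := (R0 : ℝ) ^ 2)
    (cp := cc R0) (γ := gg V J R0) (q := q) (Kc := KK V) (t := t) H.ht H.Lpos hLq H.p_pos
    (by have := H.p_le; linarith) H.hq (by linarith) H.cc1 H.gg_pos.le H.coin x v i hi hxi
    (fun m hm => ⟨I.hM m hm, hqf m hm⟩)
  have hle : ∀ w, x w ≤ Function.update x v i' w := by
    intro w
    by_cases hw : w = v
    · subst hw; rw [Function.update_self]; omega
    · rw [Function.update_of_ne hw]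
  have hiv : i ≤ Function.update x v i' v := by rw [Function.update_self]; exact h1
  refine ⟨Function.update x v i', ⟨h2, ?_⟩, ?_⟩
  · have h4 := hgain _ hle hiv
    have h5 := I.hP
    linarith
  · apply Finset.sum_lt_sum (fun w _ => hle w)
    exact ⟨v, Finset.mem_univ v, by rw [Function.update_self]; omega⟩

variable (hS2a : S2a) (hS2b : S2b)
include hS2a

theorem move_landP {x : V → ℕ} (I : InvK a t R0 Lh q Λ s x) (v : V) (hv : x v = 0) :
    ∃ x' : V → ℕ, InvK a t R0 Lh q Λ s x' ∧ ∑ w, x w < ∑ w, x' w := by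
  refine move_genP H hS1a hS1b hS1c hS2c I v 1 le_rfl (by omega) ?_
  intro x' hx' h1
  have h2 := cnt_succ hx' hv h1
  have h3 := SFB_mono H hS2a hx'
  have hR := H.R4
  have h4 := mul_le_mul_of_nonneg_left h2 (by linarith : (0 : ℝ) ≤ (R0 : ℝ) ^ 2)
  have hc := H.cc1
  unfold RHSK
  rw [pow_one, mul_add] at *
  have h5 : (R0 : ℝ) ^ 2 * cnt x + SFB a t Λ s R0 x / 16 + (R0 : ℝ) ^ 2
      ≤ (R0 : ℝ) ^ 2 * cnt x' + SFB a t Λ s R0 x' / 16 := by linarith
  have h6 := mul_le_mul_of_nonneg_left h5 (by linarith : 0 ≤ cc R0)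
  linarith

include hS2b

theorem move_levP {x : V → ℕ} (I : InvK a t R0 Lh q Λ s x) (v : V) (hv : 1 ≤ x v)
    (hlv : 2 * (Finset.univ.filter fun z =>
      Λ z * lv (LMK a (Λ z) (s z) R0 x (x v + 1)) (a v) ≤ 64 * t).card < Fintype.card A) :
    ∃ x' : V → ℕ, InvK a t R0 Lh q Λ s x' ∧ ∑ w, x w < ∑ w, x' w := by
  refine move_genP H hS1a hS1b hS1c hS2c I v (x v + 1) (by omega) (by omega) ?_
  intro x' hx' h1
  have hb := x_boundP H hS2c I v
  have hi : x v + 1 ∈ Finset.Icc 2 (KK V) := by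
    rw [Finset.mem_Icc]; unfold KK; omega
  have h3 := SFB_gain H hS2a hS2b hx' hi (Nat.lt_succ_self _) h1 hlv
  have hR := H.R4
  have h4 := mul_le_mul_of_nonneg_left (cnt_mono hx') (by linarith : (0 : ℝ) ≤ (R0 : ℝ) ^ 2)
  have hc := H.cc1
  unfold RHSK
  have h5 : (R0 : ℝ) ^ 2 * cnt x + SFB a t Λ s R0 x / 16 + ((R0 : ℝ) ^ 2) ^ (x v + 1)
      ≤ (R0 : ℝ) ^ 2 * cnt x' + SFB a t Λ s R0 x' / 16 := by linarith
  have h6 := mul_le_mul_of_nonneg_left h5 (by linarith : 0 ≤ cc R0)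
  rw [mul_add] at h6
  linarith

end moves

/-- the initial state -/
theorem inv_initP {a : V → J → ℝ} {t R0 Lh q : ℕ} {Λ s : A → ℝ} (H : HypK a t R0 Lh q Λ s) :
    InvK a t R0 Lh q Λ s (fun _ => 0) := by
  have hL := H.Lpos
  have hM : ∀ m ∈ Finset.Icc 1 (KK V), Mx a Lh (pp R0) (fun _ : V => 0) m
      = (Lh : ℝ) • (1 : Matrix J J ℝ) := by
    intro m hm
    have hm1 := (Finset.mem_Icc.1 hm).1
    unfold Mx
    have e1 : lvl (fun _ : V => 0) (m + 1) = ∅ := by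
      ext v; simp [lvl]
    have e2 : exq (fun _ : V => 0) m = ∅ := by
      ext v
      simp only [exq, Finset.mem_filter, Finset.mem_univ, true_and, Finset.notMem_empty, iff_false]
      omega
    rw [e1, e2]
    simp [Gm]
  have hpd : ((Lh : ℝ) • (1 : Matrix J J ℝ)).PosDef := Matrix.PosDef.one.smul hL
  refine ⟨fun m hm => ?_, ?_⟩
  · rw [hM m hm]; exact hpd
  · have h1 : XX ((R0 : ℝ) ^ 2) (fun _ : V => 0) = 0 := by
      unfold XX
      simp
    have h2 : cnt (fun _ : V => 0) = 0 := by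
      unfold cnt
      simp
    have h4 : SFB a t Λ s R0 (fun _ : V => 0) = 0 := by
      unfold SFB
      refine Finset.sum_eq_zero fun i hi => ?_
      have hi2 := (Finset.mem_Icc.1 hi).1
      have e1 : lvl (fun _ : V => 0) i = ∅ := by
        ext v
        simp only [lvl, Finset.mem_filter, Finset.mem_univ, true_and, Finset.notMem_empty,
          iff_false]
        omega
      have e3 : ∀ z, FiK a (Λ z) (s z) R0 (fun _ : V => 0) i = 0 := by
        intro z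
        unfold FiK FF
        rw [e1]
        have hpos : ∀ j, 0 < ridgeK (Λ z) (s z) R0 a j (fun _ : V => 0) i := fun j =>
          lt_of_lt_of_le zero_lt_one (ridgeK_ge (H.Λ1 z) _ _ _ _ _)
        simp only [Gm, Finset.sum_empty, add_zero, Matrix.det_diagonal]
        rw [Real.log_prod (fun j _ => (hpos j).ne'), sub_self]
      unfold FB
      simp [e3]
    have h5 : ST a Lh (pp R0) q (KK V) (fun _ : V => 0) = KK V * Fintype.card J := by
      unfold Pool.Agent.Helper92.BK.ST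
      have e : ∀ m ∈ Finset.Icc 1 (KK V), (Lh : ℝ) ^ q * TP (Mx a Lh (pp R0) (fun _ : V => 0) m) q
          = Fintype.card J := by
        intro m hm
        rw [hM m hm]
        unfold TP
        have e3 : ((Lh : ℝ) • (1 : Matrix J J ℝ))⁻¹ = (Lh : ℝ)⁻¹ • (1 : Matrix J J ℝ) := by
          apply Matrix.inv_eq_right_inv
          rw [smul_mul_smul_comm, mul_one, mul_inv_cancel₀ hL.ne', one_smul]
        rw [e3, smul_pow, one_pow, Matrix.trace_smul, Matrix.trace_one, smul_eq_mul, inv_pow,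
          ← mul_assoc, mul_inv_cancel₀ (pow_pos hL q).ne', one_mul]
      rw [Finset.sum_congr rfl e, Finset.sum_const, Nat.card_Icc, nsmul_eq_mul]
      congr 2
    rw [h1, h5]
    unfold RHSK
    rw [h2, h4, H.gg_mul]
    simp

theorem yK_shift (R0 : ℕ) (a : V → J → ℝ) (j : J) {x : V → ℕ} (hx : ∀ v, 1 ≤ x v) (i : ℕ) :
    yK R0 a j (fun v => x v - 1) i = yK R0 a j x (i + 1) := by
  unfold yK
  rw [lvl_shift hx]
  refine Finset.sum_congr rfl fun v _ => ?_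
  have e : x v - 1 - i = x v - (i + 1) := by omega
  show a v j ^ 2 * (R0 : ℝ) ^ (x v - 1 - i) = _
  rw [e]

theorem LMK_shift (a : V → J → ℝ) (Λ s : ℝ) (R0 : ℕ) {x : V → ℕ} (hx : ∀ v, 1 ≤ x v) (i : ℕ) :
    LMK a Λ s R0 (fun v => x v - 1) i = LMK a Λ s R0 x (i + 1) := by
  unfold LMK
  rw [lvl_shift hx]
  congr 2
  funext j
  unfold ridgeK
  rw [yK_shift R0 a j hx i]

/-- z maximal state exists -/
theorem exists_maxP {a : V → J → ℝ} {t R0 Lh q : ℕ} {Λ s : A → ℝ} (H : HypK a t R0 Lh q Λ s)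
    (hS2c : S2c) :
    ∃ x : V → ℕ, InvK a t R0 Lh q Λ s x ∧
      ∀ x' : V → ℕ, InvK a t R0 Lh q Λ s x' → ∑ w, x' w ≤ ∑ w, x w := by
  by_contra hcon
  push Not at hcon
  have h : ∀ n : ℕ, ∃ x : V → ℕ, InvK a t R0 Lh q Λ s x ∧ n ≤ ∑ w, x w := by
    intro n
    induction n with
    | zero => exact ⟨_, inv_initP H, Nat.zero_le _⟩
    | succ n ih =>
      obtain ⟨x, I, hn⟩ := ih
      obtain ⟨x', I', h'⟩ := hcon x I
      exact ⟨x', I', by omega⟩
  obtain ⟨x, I, hs⟩ := h (Fintype.card V * (Fintype.card V + 1) + 1)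
  have h2 : ∑ w, x w ≤ ∑ _w : V, (Fintype.card V + 1) :=
    Finset.sum_le_sum fun w _ => x_boundP H hS2c I w
  rw [Finset.sum_const, Finset.card_univ, smul_eq_mul] at h2
  omega

theorem s3k_proof (hS1a : S1a) (hS1b : S1b) (hS1c : S1c) (hS2a : S2a) (hS2b : S2b)
    (hS2c : S2c) : S3K := by
  intro V J A _ _ _ _ _ a t R0 Lh q Λ s ht1 hV hJ hA ht hΛ hs hls hR hq hL hq2
  have H : HypK a t R0 Lh q Λ s := ⟨ht1, hV, hJ, hA, ht, hΛ, hs, hls, hR, hq, hL, hq2⟩
  obtain ⟨x, I, hmax⟩ := exists_maxP H hS2c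
  have hR4 := H.R4
  have hx1 : ∀ v, 1 ≤ x v := by
    intro v
    by_contra hcon
    obtain ⟨x', I', h'⟩ := move_landP H hS1a hS1b hS1c hS2c hS2a I v (by omega)
    exact absurd (hmax x' I') (not_le.2 h')
  have hlev : ∀ u, Fintype.card A ≤ 2 * (Finset.univ.filter fun z =>
      Λ z * lv (LMK a (Λ z) (s z) R0 x (x u + 1)) (a u) ≤ 64 * t).card := by
    intro u
    by_contra hcon
    push Not at hcon
    obtain ⟨x', I', h'⟩ := move_levP H hS1a hS1b hS1c hS2c hS2a hS2b I u (hx1 u) hcon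
    exact absurd (hmax x' I') (not_le.2 h')
  have hqf := qf_boundP H hS2c I hS1c
  refine ⟨fun v => x v - 1, fun v => ?_, ?_, ?_⟩
  · have h1 := pow_boundP H hS2c I (hx1 v)
    have hn := H.n1
    have h2 : ((R0 : ℝ) ^ 2) ^ (x v - 1) ≤ 4 * Fintype.card V := by linarith
    exact_mod_cast h2
  · intro i u hu
    have e : i + 1 + 1 = x u + 1 := by
      have h1 : x u - 1 = i := hu
      have h2 := hx1 u
      omega
    have e2 : ∀ z, LMK a (Λ z) (s z) R0 (fun v => x v - 1) (i + 1)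
        = LMK a (Λ z) (s z) R0 x (x u + 1) := by
      intro z
      rw [LMK_shift a _ _ R0 hx1, e]
    simp only [e2]
    exact hlev u
  · intro i y
    rw [exq_shift hx1, lvl_shift hx1]
    have hyy : 0 ≤ y ⬝ᵥ y := by
      unfold dotProduct
      exact Finset.sum_nonneg fun j _ => mul_self_nonneg _
    have hrhs : 0 ≤ ∑ v ∈ lvl x (i + 1 + 1), (a v ⬝ᵥ y) ^ 2 :=
      Finset.sum_nonneg fun v _ => sq_nonneg _
    have hL := H.Lpos
    by_cases hi : i + 1 ≤ KK V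
    · have h1 := hqf (i + 1) (Finset.mem_Icc.2 ⟨by omega, hi⟩) y
      unfold Mx at h1
      rw [Matrix.sub_mulVec, Matrix.add_mulVec, dotProduct_sub, dotProduct_add,
        Matrix.smul_mulVec, Matrix.smul_mulVec, dotProduct_smul, dotProduct_smul, quad_Gm, quad_Gm,
        Matrix.one_mulVec, smul_eq_mul, smul_eq_mul] at h1
      have hp := H.p_pos
      have hpR := H.pR
      set E := ∑ u ∈ exq x (i + 1), (a u ⬝ᵥ y) ^ 2 with hE
      set G := ∑ v ∈ lvl x (i + 1 + 1), (a v ⬝ᵥ y) ^ 2 with hG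
      have h2 : pp R0 / 4 * E ≤ Lh * (y ⬝ᵥ y) + G := by nlinarith
      have h3 : E = 16 * (R0 : ℝ) ^ 2 * (pp R0 / 4 * E) := by
        have : 16 * (R0 : ℝ) ^ 2 * (pp R0 / 4 * E) = 4 * (pp R0 * (R0 : ℝ) ^ 2) * E := by ring
        rw [this, hpR]; ring
      rw [h3]
      exact mul_le_mul_of_nonneg_left h2 (by positivity)
    · have h1 : exq x (i + 1) = ∅ := by
        ext v
        simp only [exq, Finset.mem_filter, Finset.mem_univ, true_and, Finset.notMem_empty,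
          iff_false]
        have := x_boundP H hS2c I v
        unfold KK at hi
        omega
      rw [h1, Finset.sum_empty]
      positivity

end Pool.Agent.Helper92.BK
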