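import Pool.Agent.Helper92.BO.S3d

set_option linter.unusedSectionVars false

/-!
The schedule (module S3 of Theorem O, Beck-Fiala).
-/

namespace Pool.Agent.Helper92.BO

open Matrix Pool.Agent.Helper50.BO

variable {V J : Type} [Fintype V] [Fintype J] [DecidableEq V] [DecidableEq J]

theorem quad_Gm (a : V → J → ℝ) (U : Finset V) (y : J → ℝ) :
    y ⬝ᵥ (Gm a U *ᵥ y) = ∑ v ∈ U, (a v ⬝ᵥ y) ^ 2 := by
  unfold Gm
  rw [Matrix.sum_mulVec, dotProduct_sum]
  exact Finset.sum_congr rfl fun v _ => quad_r1 (a v) y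

theorem ridge_shift (Λ R0 : ℕ) (T : Finset V) {x : V → ℕ} (hx : ∀ v, 1 ≤ x v) (i : ℕ) :
    ridge Λ R0 T (fun v => x v - 1) i = ridge Λ R0 T x (i + 1) := by
  have e1 : (T.filter fun v => i ≤ x v - 1) = (T.filter fun v => i + 1 ≤ x v) := by
    apply Finset.filter_congr
    intro v _
    have := hx v
    omega
  have e2 : (∀ v ∈ T, i ≤ x v - 1) ↔ (∀ v ∈ T, i + 1 ≤ x v) := by
    constructor
    · intro h v hv
      have := h v hv
      have := hx v
      omega
    · intro h v hv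
      have := h v hv
      omega
  have e3 : kmin T (fun v => x v - 1) - i = kmin T x - (i + 1) := by
    rcases T.eq_empty_or_nonempty with rfl | hT
    · rw [kmin_empty, kmin_empty]; omega
    · obtain ⟨v, hv, he⟩ := kmin_mem (k := x) hT
      obtain ⟨w, hw, he'⟩ := kmin_mem (k := fun v => x v - 1) hT
      have h1 := kmin_le (k := x) hw
      have h2 := kmin_le (k := fun v => x v - 1) hv
      have h3 := hx v
      have h4 := hx w
      have he2 : kmin T (fun v => x v - 1) = x w - 1 := he'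
      omega
  unfold ridge
  rw [e1, e3]
  by_cases g : Λ ^ 2 ≤ (T.filter fun v => i + 1 ≤ x v).card
  · rw [if_pos g, if_pos g]
  · rw [if_neg g, if_neg g]
    by_cases w : ∀ v ∈ T, i + 1 ≤ x v
    · rw [if_pos w, if_pos (e2.2 w)]
    · rw [if_neg w, if_neg (fun h => w (e2.1 h))]

theorem lvl_shift {x : V → ℕ} (hx : ∀ v, 1 ≤ x v) (i : ℕ) :
    lvl (fun v => x v - 1) i = lvl x (i + 1) := by
  ext v
  rw [mem_lvl, mem_lvl]
  have := hx v
  omega

theorem exq_shift {x : V → ℕ} (hx : ∀ v, 1 ≤ x v) (i : ℕ) :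
    exq (fun v => x v - 1) i = exq x (i + 1) := by
  ext v
  rw [mem_exq, mem_exq]
  have := hx v
  omega

theorem LM_shift (S : J → Finset V) (Λ R0 : ℕ) {x : V → ℕ} (hx : ∀ v, 1 ≤ x v) (i : ℕ) :
    LM S Λ R0 (fun v => x v - 1) i = LM S Λ R0 x (i + 1) := by
  unfold LM
  rw [lvl_shift hx]
  congr 2
  funext j
  exact ridge_shift Λ R0 (S j) hx i

/-- a maximal state exists -/
theorem exists_max {S : J → Finset V} {t Λ R0 Lh q : ℕ} (H : Hyp S t Λ R0 Lh q) (hS2c : S2c) :
    ∃ (x : V → ℕ) (Z : J → ℕ → Finset V), Inv S t Λ R0 Lh q x Z ∧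
      ∀ (x' : V → ℕ) (Z' : J → ℕ → Finset V), Inv S t Λ R0 Lh q x' Z' → ∑ w, x' w ≤ ∑ w, x w := by
  by_contra hcon
  push Not at hcon
  have h : ∀ s : ℕ, ∃ (x : V → ℕ) (Z : J → ℕ → Finset V), Inv S t Λ R0 Lh q x Z ∧
      s ≤ ∑ w, x w := by
    intro s
    induction s with
    | zero => exact ⟨_, _, inv_init H, Nat.zero_le _⟩
    | succ s ih =>
      obtain ⟨x, Z, I, hs⟩ := ih
      obtain ⟨x', Z', I', h'⟩ := hcon x Z I
      exact ⟨x', Z', I', by omega⟩
  obtain ⟨x, Z, I, hs⟩ := h (Fintype.card V * (Fintype.card V + 1) + 1)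
  have h2 : ∑ w, x w ≤ ∑ _w : V, (Fintype.card V + 1) :=
    Finset.sum_le_sum fun w _ => x_bound H hS2c I w
  rw [Finset.sum_const, Finset.card_univ, smul_eq_mul] at h2
  omega

theorem s3_proof (hS1a : S1a) (hS1b : S1b) (hS1c : S1c) (hS2a : S2a) (hS2b : S2b) (hS2c : S2c) :
    S3 := by
  intro V J _ _ _ _ S t Λ R0 Lh q ht1 hV hJ ht hΛ hR hq hL hq2 hR2
  have H : Hyp S t Λ R0 Lh q := ⟨ht1, hV, hJ, ht, hΛ, hR, hq, hL, hq2, hR2⟩
  obtain ⟨x, Z, I, hmax⟩ := exists_max H hS2c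
  have hR4 := H.R4
  have hx1 : ∀ v, 1 ≤ x v := by
    intro v
    by_contra hcon
    obtain ⟨x', Z', I', h'⟩ := move_land H hS1a hS1b hS1c hS2c hS2a I v (by omega)
    exact absurd (hmax x' Z' I') (not_le.2 h')
  have hlev : ∀ u, lv (LM S Λ R0 x (x u + 1)) (inc S u) < 32 * (t : ℝ) / Λ := by
    intro u
    by_contra hcon
    push Not at hcon
    obtain ⟨x', Z', I', h'⟩ := move_lev H hS1a hS1b hS1c hS2c hS2a hS2b I u (hx1 u) hcon
    exact absurd (hmax x' Z' I') (not_le.2 h')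
  have hcomb : ∀ j u w, ((S j).filter fun v => x u ≤ x v).card ≤ sgz Λ R0 Lh → u ∈ S j →
      w ∈ S j → x w ≤ x u + 2 := by
    intro j u w hc hu hw
    by_contra hcon
    push Not at hcon
    obtain ⟨x', Z', I', h'⟩ := move_comb H hS1a hS1b hS1c hS2c hS2a I j u w hu hw hc hcon
    exact absurd (hmax x' Z' I') (not_le.2 h')
  have hqf := qf_bound H hS2c I hS1c
  refine ⟨fun v => x v - 1, fun v => ?_, ?_, ?_, ?_⟩
  · have h1 := pow_bound H hS2c I (hx1 v)
    have hn := H.n1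
    have h2 : ((R0 : ℝ) ^ 2) ^ (x v - 1) ≤ 4 * Fintype.card V := by linarith
    exact_mod_cast h2
  · intro i u hu
    rw [LM_shift S Λ R0 hx1]
    have e : i + 1 + 1 = x u + 1 := by
      have h1 : x u - 1 = i := hu
      have h2 := hx1 u
      omega
    rw [e]
    exact (hlev u).le
  · intro i j u w hc hu hku hw
    have h1 : x u - 1 = i := hku
    have h2 := hx1 u
    have h3 := hx1 w
    have e : ((S j).filter fun v => i ≤ x v - 1) = ((S j).filter fun v => x u ≤ x v) := by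
      apply Finset.filter_congr
      intro v _
      have := hx1 v
      omega
    simp only at hc
    rw [e] at hc
    have h4 := hcomb j u w hc hu hw
    show x w - 1 ≤ i + 2
    omega
  · intro i y
    rw [exq_shift hx1, lvl_shift hx1]
    have hyy : 0 ≤ y ⬝ᵥ y := by
      unfold dotProduct
      exact Finset.sum_nonneg fun j _ => mul_self_nonneg _
    have hrhs : 0 ≤ ∑ v ∈ lvl x (i + 1 + 1), (inc S v ⬝ᵥ y) ^ 2 :=
      Finset.sum_nonneg fun v _ => sq_nonneg _
    have hL := H.Lpos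
    by_cases hi : i + 1 ≤ KK V
    · have h1 := hqf (i + 1) (Finset.mem_Icc.2 ⟨by omega, hi⟩) y
      unfold Mx at h1
      rw [Matrix.sub_mulVec, Matrix.add_mulVec, dotProduct_sub, dotProduct_add,
        Matrix.smul_mulVec, Matrix.smul_mulVec, dotProduct_smul, dotProduct_smul, quad_Gm, quad_Gm,
        Matrix.one_mulVec, smul_eq_mul, smul_eq_mul] at h1
      have hp := H.p_pos
      have hpR := H.pR
      set E := ∑ u ∈ exq x (i + 1), (inc S u ⬝ᵥ y) ^ 2 with hE
      set G := ∑ v ∈ lvl x (i + 1 + 1), (inc S v ⬝ᵥ y) ^ 2 with hG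
      have h2 : pp R0 / 4 * E ≤ Lh * (y ⬝ᵥ y) + G := by nlinarith
      have h3 : E = 16 * (R0 : ℝ) ^ 2 * (pp R0 / 4 * E) := by
        have : 16 * (R0 : ℝ) ^ 2 * (pp R0 / 4 * E) = 4 * (pp R0 * (R0 : ℝ) ^ 2) * E := by ring
        rw [this, hpR]; ring
      rw [h3]
      exact mul_le_mul_of_nonneg_left h2 (by positivity)
    · have h1 : exq x (i + 1) = ∅ := by
        ext v
        simp only [exq, Finset.mem_filter, Finset.mem_univ, true_and, Finset.notMem_empty,
          iff_false]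
        have := x_bound H hS2c I v
        unfold KK at hi
        omega
      rw [h1, Finset.sum_empty]
      positivity

end Pool.Agent.Helper92.BO
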