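import Pool.Agent.Helper92.BO.S3Ka

set_option linter.unusedSectionVars false

/-!
Ridges and the key sum for the schedule of Theorem K (module S3K, Beck-Fiala).
-/

namespace Pool.Agent.Helper92.BK

open Matrix Pool.Agent.Helper50.BO Pool.Agent.Helper92.BO Pool.Agent.Helper92.BP

variable {V J A : Type} [Fintype V] [Fintype J] [Fintype A] [DecidableEq V] [DecidableEq J]

theorem yK_nonneg (R0 : ℕ) (a : V → J → ℝ) (j : J) (k : V → ℕ) (i : ℕ) :
    0 ≤ yK R0 a j k i := by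
  unfold yK
  exact Finset.sum_nonneg fun v _ => by positivity

theorem yK_mono {R0 : ℕ} (hR : 1 ≤ R0) (a : V → J → ℝ) (j : J) {k k' : V → ℕ}
    (h : ∀ v, k v ≤ k' v) (i : ℕ) : yK R0 a j k i ≤ yK R0 a j k' i := by
  have h2 : (1 : ℝ) ≤ R0 := by exact_mod_cast hR
  unfold yK
  have hsub : lvl k i ⊆ lvl k' i := by
    intro v hv
    rw [mem_lvl] at hv ⊢
    exact hv.trans (h v)
  calc ∑ v ∈ lvl k i, a v j ^ 2 * (R0 : ℝ) ^ (k v - i)
      ≤ ∑ v ∈ lvl k i, a v j ^ 2 * (R0 : ℝ) ^ (k' v - i) := by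
        refine Finset.sum_le_sum fun v _ => ?_
        refine mul_le_mul_of_nonneg_left ?_ (sq_nonneg _)
        apply pow_le_pow_right₀ h2
        have := h v
        omega
    _ ≤ _ := Finset.sum_le_sum_of_subset_of_nonneg hsub fun v _ _ => by positivity

theorem ridgeK_ge {Λ s : ℝ} (hΛ : 1 ≤ Λ) (R0 : ℕ) (a : V → J → ℝ) (j : J) (k : V → ℕ) (i : ℕ) :
    1 ≤ ridgeK Λ s R0 a j k i := by
  unfold ridgeK
  split_ifs
  · exact le_rfl
  · exact hΛ

theorem ridgeK_mono {Λ s : ℝ} (hΛ : 1 ≤ Λ) {R0 : ℕ} (hR : 1 ≤ R0) (a : V → J → ℝ) (j : J)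
    {k k' : V → ℕ} (h : ∀ v, k v ≤ k' v) (i : ℕ) :
    ridgeK Λ s R0 a j k' i ≤ ridgeK Λ s R0 a j k i := by
  have h1 := yK_mono hR a j h i
  unfold ridgeK
  by_cases g : s ≤ yK R0 a j k i
  · rw [if_pos g, if_pos (g.trans h1)]
  · rw [if_neg g]
    split_ifs
    · exact hΛ
    · exact le_rfl

/-- the logarithm of one row -/
theorem row_logK {Λ s : ℝ} {R0 : ℕ} (hΛ : 1 ≤ Λ) (hs : 1 ≤ s) (hls : Λ * Real.log (1 + s) ≤ s)
    (hR : 1 ≤ R0) (a : V → J → ℝ) (j : J) (x : V → ℕ) (i : ℕ) :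
    Real.log (1 + (∑ v ∈ lvl x i, a v j ^ 2) / ridgeK Λ s R0 a j x i)
      ≤ yK R0 a j x i / Λ := by
  have h2 : (1 : ℝ) ≤ R0 := by exact_mod_cast hR
  have hΛ0 : (0 : ℝ) < Λ := by linarith
  have hc : (0 : ℝ) ≤ ∑ v ∈ lvl x i, a v j ^ 2 := Finset.sum_nonneg fun v _ => sq_nonneg _
  have hsum : ∑ v ∈ lvl x i, a v j ^ 2 ≤ yK R0 a j x i := by
    unfold yK
    refine Finset.sum_le_sum fun v _ => ?_
    exact le_mul_of_one_le_right (sq_nonneg _) (one_le_pow₀ h2)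
  set n := ∑ v ∈ lvl x i, a v j ^ 2 with hn
  by_cases g : s ≤ yK R0 a j x i
  · have e : ridgeK Λ s R0 a j x i = 1 := by unfold ridgeK; rw [if_pos g]
    rw [e, div_one, le_div_iff₀ hΛ0]
    set y := yK R0 a j x i with hy
    have hs0 : 0 < s := by linarith
    have h3 : Real.log (1 + n) ≤ Real.log (1 + y) :=
      Real.log_le_log (by linarith) (by linarith)
    have h4 := log_div_anti hs0 g
    have h6 : s * (Real.log (1 + y) * Λ) ≤ s * y := by
      calc s * (Real.log (1 + y) * Λ) = Λ * (s * Real.log (1 + y)) := by ring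
        _ ≤ Λ * (y * Real.log (1 + s)) := mul_le_mul_of_nonneg_left h4 hΛ0.le
        _ = y * (Λ * Real.log (1 + s)) := by ring
        _ ≤ y * s := mul_le_mul_of_nonneg_left hls (by linarith)
        _ = s * y := by ring
    have h7 := le_of_mul_le_mul_left h6 hs0
    exact (mul_le_mul_of_nonneg_right h3 hΛ0.le).trans h7
  · have e : ridgeK Λ s R0 a j x i = Λ := by unfold ridgeK; rw [if_neg g]
    rw [e]
    have h3 : 0 ≤ n / Λ := div_nonneg hc hΛ0.le
    have h4 := Real.log_le_sub_one_of_pos (show 0 < 1 + n / Λ by linarith)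
    refine (show _ ≤ n / Λ by linarith).trans ?_
    exact div_le_div_of_nonneg_right hsum hΛ0.le

/-- log det of a level -/
noncomputable def FiK (a : V → J → ℝ) (Λ s : ℝ) (R0 : ℕ) (x : V → ℕ) (i : ℕ) : ℝ :=
  FF a (fun j => ridgeK Λ s R0 a j x i) (lvl x i)

theorem FiK_le (hS2c : S2c) (a : V → J → ℝ) {t R0 : ℕ} {Λ s : ℝ}
    (ht : ∀ v, ∑ j, a v j ^ 2 ≤ t) (hΛ : 1 ≤ Λ) (hs : 1 ≤ s)
    (hls : Λ * Real.log (1 + s) ≤ s) (hR : 1 ≤ R0) (x : V → ℕ) (i : ℕ) :
    FiK a Λ s R0 x i ≤ t / Λ * ∑ v, if i ≤ x v then (R0 : ℝ) ^ (x v - i) else 0 := by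
  have hpos : ∀ j, 0 < ridgeK Λ s R0 a j x i := fun j =>
    lt_of_lt_of_le zero_lt_one (ridgeK_ge hΛ R0 a j x i)
  refine (hS2c V J a (fun j => ridgeK Λ s R0 a j x i) (lvl x i) hpos).trans ?_
  refine (Finset.sum_le_sum fun j _ => row_logK hΛ hs hls hR a j x i).trans ?_
  rw [← Finset.sum_div]
  have h4 : ∑ j, yK R0 a j x i ≤ t * ∑ v, if i ≤ x v then (R0 : ℝ) ^ (x v - i) else 0 := by
    unfold yK
    rw [Finset.sum_comm, Finset.mul_sum]
    have e : ∀ f : V → ℝ, ∑ v ∈ lvl x i, f v = ∑ v, if i ≤ x v then f v else 0 := by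
      intro f
      unfold lvl
      rw [Finset.sum_filter]
    rw [e]
    refine Finset.sum_le_sum fun v _ => ?_
    split_ifs
    · rw [← Finset.sum_mul]
      exact mul_le_mul_of_nonneg_right (ht v) (by positivity)
    · simp
  calc (∑ j, yK R0 a j x i) / (Λ : ℝ)
      ≤ (t * ∑ v, if i ≤ x v then (R0 : ℝ) ^ (x v - i) else 0) / Λ :=
        div_le_div_of_nonneg_right h4 (by linarith)
    _ = _ := by ring

/-- average of the log dets of z level over the family of ridges -/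
noncomputable def FB (a : V → J → ℝ) (t : ℕ) (Λ s : A → ℝ) (R0 : ℕ) (x : V → ℕ) (i : ℕ) : ℝ :=
  (∑ z, Λ z / t * FiK a (Λ z) (s z) R0 x i) / Fintype.card A

/-- hypotheses on the parameters -/
structure HypK (a : V → J → ℝ) (t R0 Lh q : ℕ) (Λ s : A → ℝ) : Prop where
  ht1 : 1 ≤ t
  hV : Nonempty V
  hJ : Nonempty J
  hA : Nonempty A
  ht : ∀ v, ∑ j, a v j ^ 2 ≤ t
  hΛ : ∀ z, 64 * (t : ℝ) ≤ Λ z
  hs : ∀ z, 1 ≤ s z
  hls : ∀ z, Λ z * Real.log (1 + s z) ≤ s z
  hR : 2 ≤ R0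
  hq : 1 ≤ q
  hL : 16 * q * t ≤ Lh
  hq2 : 3 * (Fintype.card V + 2) * Fintype.card J < 2 ^ q

section basic

variable {a : V → J → ℝ} {t R0 Lh q : ℕ} {Λ s : A → ℝ} (H : HypK a t R0 Lh q Λ s)
include H

theorem HypK.t1 : (1 : ℝ) ≤ t := by exact_mod_cast H.ht1

theorem HypK.Λ1 (z : A) : 1 ≤ Λ z := by have := H.hΛ z; have := H.t1; linarith

theorem HypK.R4 : (4 : ℝ) ≤ (R0 : ℝ) ^ 2 := by
  have h : (2 : ℝ) ≤ R0 := by exact_mod_cast H.hR
  nlinarith

theorem HypK.Lpos : (0 : ℝ) < Lh := by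
  have h1 := H.hL
  have h2 := H.hq
  have h3 := H.ht1
  have : 0 < 16 * q * t := by positivity
  exact_mod_cast lt_of_lt_of_le this h1

theorem HypK.p_pos : 0 < pp R0 := by
  have := H.R4
  unfold pp; positivity

theorem HypK.p_le : pp R0 ≤ 1 / 16 := by
  have := H.R4
  unfold pp
  apply one_div_le_one_div_of_le (by norm_num) (by linarith)

theorem HypK.pR : pp R0 * (R0 : ℝ) ^ 2 = 1 / 4 := by
  have := H.R4
  have h0 : (R0 : ℝ) ^ 2 ≠ 0 := by linarith
  unfold pp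
  rw [one_div, mul_inv, mul_assoc, inv_mul_cancel₀ h0]
  norm_num

theorem HypK.cc1 : 1 ≤ cc R0 := by
  have := H.p_le
  unfold cc; linarith

theorem HypK.cc2 : cc R0 ≤ 4 / 3 := by
  have := H.p_pos
  unfold cc; linarith

theorem HypK.coin : (1 - pp R0) + pp R0 * (R0 : ℝ) ^ 2 * cc R0 ≤ cc R0 := by
  rw [H.pR]
  unfold cc; linarith

theorem HypK.n1 : (1 : ℝ) ≤ Fintype.card V := by
  have := H.hV
  exact_mod_cast Fintype.card_pos (α := V)

theorem HypK.d1 : (1 : ℝ) ≤ Fintype.card J := by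
  have := H.hJ
  exact_mod_cast Fintype.card_pos (α := J)

theorem HypK.a1 : (1 : ℝ) ≤ Fintype.card A := by
  have := H.hA
  exact_mod_cast Fintype.card_pos (α := A)

theorem HypK.gg_pos : 0 < gg V J R0 := by
  have h1 := H.n1
  have h2 := H.d1
  have h3 := H.R4
  have h4 : (0 : ℝ) < KK V := by unfold KK; positivity
  unfold gg
  apply div_pos <;> apply mul_pos <;> linarith

theorem HypK.gg_mul : gg V J R0 * (KK V * Fintype.card J) = (R0 : ℝ) ^ 2 * Fintype.card V := by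
  have h2 := H.d1
  have h4 : (0 : ℝ) < KK V := by unfold KK; positivity
  unfold gg
  rw [div_mul_cancel₀]
  exact (mul_pos h4 (by linarith)).ne'

theorem FB_le (hS2c : S2c) (x : V → ℕ) (i : ℕ) :
    FB a t Λ s R0 x i ≤ ∑ v, if i ≤ x v then (R0 : ℝ) ^ (x v - i) else 0 := by
  have hR := H.hR
  have ht := H.t1
  have ha := H.a1
  unfold FB
  rw [div_le_iff₀ (by linarith)]
  set Y := ∑ v, (if i ≤ x v then (R0 : ℝ) ^ (x v - i) else 0) with hY
  calc ∑ z, Λ z / t * FiK a (Λ z) (s z) R0 x i ≤ ∑ _a : A, Y := by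
        refine Finset.sum_le_sum fun z _ => ?_
        have h1 := FiK_le hS2c a H.ht (H.Λ1 z) (H.hs z) (H.hls z) (by omega : 1 ≤ R0) x i
        have hΛ := H.Λ1 z
        have h2 : 0 ≤ Λ z / t := div_nonneg (by linarith) (by linarith)
        have h3 := mul_le_mul_of_nonneg_left h1 h2
        have h4 : Λ z / t * (t / Λ z * Y) = Y := by
          have h5 : Λ z ≠ 0 := by linarith
          have h6 : (t : ℝ) ≠ 0 := by linarith
          field_simp
        rw [h4] at h3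
        exact h3
    _ = Y * Fintype.card A := by
        rw [Finset.sum_const, Finset.card_univ, nsmul_eq_mul]; ring

theorem FiK_mono (hS2a : S2a) {x x' : V → ℕ} (h : ∀ w, x w ≤ x' w) (z : A) (i : ℕ) :
    FiK a (Λ z) (s z) R0 x i ≤ FiK a (Λ z) (s z) R0 x' i := by
  unfold FiK
  refine hS2a V J a _ _ _ _ (fun j => ?_) (fun j => ?_) ?_
  · exact lt_of_lt_of_le zero_lt_one (ridgeK_ge (H.Λ1 z) _ _ _ _ _)
  · exact ridgeK_mono (H.Λ1 z) (by have := H.hR; omega) a j h i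
  · intro v hv
    rw [mem_lvl] at hv ⊢
    exact hv.trans (h v)

theorem FB_mono (hS2a : S2a) {x x' : V → ℕ} (h : ∀ w, x w ≤ x' w) (i : ℕ) :
    FB a t Λ s R0 x i ≤ FB a t Λ s R0 x' i := by
  unfold FB
  have ha := H.a1
  apply div_le_div_of_nonneg_right _ (by linarith)
  refine Finset.sum_le_sum fun z _ => ?_
  refine mul_le_mul_of_nonneg_left (FiK_mono H hS2a h z i) ?_
  have := H.Λ1 z
  have := H.t1
  exact div_nonneg (by linarith) (by linarith)

theorem FiK_gain (hS2a : S2a) (hS2b : S2b) {x x' : V → ℕ} (h : ∀ w, x w ≤ x' w) {v : V} {i : ℕ}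
    (hv : x v < i) (hv' : i ≤ x' v) (z : A)
    (hlv : 64 * (t : ℝ) < Λ z * lv (LMK a (Λ z) (s z) R0 x i) (a v)) :
    Λ z / t * FiK a (Λ z) (s z) R0 x i + 32 ≤ Λ z / t * FiK a (Λ z) (s z) R0 x' i := by
  have hvU : v ∉ lvl x i := by rw [mem_lvl]; omega
  have hpos : ∀ j, 0 < ridgeK (Λ z) (s z) R0 a j x i := fun j =>
    lt_of_lt_of_le zero_lt_one (ridgeK_ge (H.Λ1 z) _ _ _ _ _)
  have h1 := hS2b V J a (fun j => ridgeK (Λ z) (s z) R0 a j x i) (lvl x i) v hpos hvU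
  have h2 : FF a (fun j => ridgeK (Λ z) (s z) R0 a j x i) (insert v (lvl x i))
      ≤ FiK a (Λ z) (s z) R0 x' i := by
    unfold FiK
    refine hS2a V J a _ _ _ _ (fun j => ?_) (fun j => ?_) ?_
    · exact lt_of_lt_of_le zero_lt_one (ridgeK_ge (H.Λ1 z) _ _ _ _ _)
    · exact ridgeK_mono (H.Λ1 z) (by have := H.hR; omega) a j h i
    · intro w hw
      rw [mem_lvl]
      rcases Finset.mem_insert.1 hw with rfl | hw
      · exact hv'
      · exact (mem_lvl.1 hw).trans (h w)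
  rw [h1] at h2
  have ht := H.t1
  have hΛ := H.hΛ z
  have hΛ0 : 0 < Λ z := by linarith
  set y : ℝ := 64 * t / Λ z with hy
  have hy0 : 0 ≤ y := by positivity
  have hy1 : y ≤ 1 := by rw [hy, div_le_one hΛ0]; exact hΛ
  set ℓ := lv (Matrix.diagonal (fun j => ridgeK (Λ z) (s z) R0 a j x i)
      + Gm a (lvl x i)) (a v) with hℓ
  have h3 : y ≤ ℓ := by
    have e : lv (LMK a (Λ z) (s z) R0 x i) (a v) = ℓ := rfl
    rw [e] at hlv
    rw [hy, div_le_iff₀ hΛ0]
    linarith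
  have h4 : Real.log (1 + y) ≤ Real.log (1 + ℓ) := Real.log_le_log (by linarith) (by linarith)
  have h5 := Real.one_sub_inv_le_log_of_pos (show 0 < 1 + y by linarith)
  have h6 : 1 - (1 + y)⁻¹ = y / (1 + y) := by field_simp; ring
  rw [h6] at h5
  have h7 : y / 2 ≤ y / (1 + y) := div_le_div_of_nonneg_left hy0 (by linarith) (by linarith)
  have h8 : Λ z / t * (y / 2) = 32 := by
    rw [hy]
    have h9 : Λ z ≠ 0 := hΛ0.ne'
    have h10 : (t : ℝ) ≠ 0 := by linarith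
    field_simp
    norm_num
  have h11 : 0 ≤ Λ z / t := div_nonneg hΛ0.le (by linarith)
  have e2 : FiK a (Λ z) (s z) R0 x i
      = FF a (fun j => ridgeK (Λ z) (s z) R0 a j x i) (lvl x i) := rfl
  have h12 : FiK a (Λ z) (s z) R0 x i + y / 2 ≤ FiK a (Λ z) (s z) R0 x' i := by
    rw [e2]; linarith
  have h13 := mul_le_mul_of_nonneg_left h12 h11
  rw [mul_add, h8] at h13
  exact h13

theorem FB_gain (hS2a : S2a) (hS2b : S2b) {x x' : V → ℕ} (h : ∀ w, x w ≤ x' w) {v : V} {i : ℕ}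
    (hv : x v < i) (hv' : i ≤ x' v)
    (hlv : 2 * (Finset.univ.filter fun z =>
      Λ z * lv (LMK a (Λ z) (s z) R0 x i) (a v) ≤ 64 * t).card < Fintype.card A) :
    FB a t Λ s R0 x i + 16 ≤ FB a t Λ s R0 x' i := by
  classical
  have ha := H.a1
  set bad := Finset.univ.filter fun z =>
    ¬ (Λ z * lv (LMK a (Λ z) (s z) R0 x i) (a v) ≤ 64 * t) with hbad
  have hc := Finset.card_filter_add_card_filter_not (s := (Finset.univ : Finset A))
    (p := fun z => Λ z * lv (LMK a (Λ z) (s z) R0 x i) (a v) ≤ 64 * t)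
  rw [Finset.card_univ] at hc
  have hb : Fintype.card A ≤ 2 * bad.card := by
    rw [hbad]; omega
  have hb' : (Fintype.card A : ℝ) ≤ 2 * bad.card := by exact_mod_cast hb
  unfold FB
  have ha0 : (0 : ℝ) < Fintype.card A := by linarith
  rw [← sub_nonneg, ← sub_sub, ← sub_div, ← Finset.sum_sub_distrib, sub_nonneg,
    le_div_iff₀ ha0]
  have h1 : ∀ z, (if z ∈ bad then (32 : ℝ) else 0)
      ≤ Λ z / t * FiK a (Λ z) (s z) R0 x' i - Λ z / t * FiK a (Λ z) (s z) R0 x i := by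
    intro z
    split_ifs with hm
    · rw [hbad, Finset.mem_filter] at hm
      have := FiK_gain H hS2a hS2b h hv hv' z (not_le.1 hm.2)
      linarith
    · have h2 := FiK_mono H hS2a h z i
      have h3 : 0 ≤ Λ z / t := div_nonneg (by have := H.Λ1 z; linarith) (by have := H.t1; linarith)
      have := mul_le_mul_of_nonneg_left h2 h3
      linarith
  have h2 := Finset.sum_le_sum fun z (_ : z ∈ (Finset.univ : Finset A)) => h1 z
  have h3 : ∑ z, (if z ∈ bad then (32 : ℝ) else 0) = bad.card * 32 := by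
    rw [Finset.sum_ite_mem, Finset.univ_inter, Finset.sum_const, nsmul_eq_mul]
  rw [h3] at h2
  linarith

end basic

end Pool.Agent.Helper92.BK
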