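import Pool.Agent.Helper92.BO.S3
import Pool.Agent.Helper66.BO.St2

set_option linter.unusedSectionVars false

/-!
Ridges and the key sum for the schedule of Theorem P (module S3P, Beck-Fiala).
-/

namespace Pool.Agent.Helper92.BP

open Matrix Pool.Agent.Helper50.BO Pool.Agent.Helper66.BO Pool.Agent.Helper92.BO

variable {V J A : Type} [Fintype V] [Fintype J] [Fintype A] [DecidableEq V] [DecidableEq J]

theorem yS_nonneg (R0 : ℕ) (T : Finset V) (k : V → ℕ) (i : ℕ) : 0 ≤ yS R0 T k i := by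
  unfold yS
  exact Finset.sum_nonneg fun v _ => by positivity

theorem yS_mono {R0 : ℕ} (hR : 1 ≤ R0) (T : Finset V) {k k' : V → ℕ} (h : ∀ v, k v ≤ k' v)
    (i : ℕ) : yS R0 T k i ≤ yS R0 T k' i := by
  have h2 : (1 : ℝ) ≤ R0 := by exact_mod_cast hR
  unfold yS
  have hsub : (T.filter fun v => i ≤ k v) ⊆ (T.filter fun v => i ≤ k' v) := by
    intro v hv
    rw [Finset.mem_filter] at hv ⊢
    exact ⟨hv.1, hv.2.trans (h v)⟩
  calc ∑ v ∈ T.filter (fun v => i ≤ k v), (R0 : ℝ) ^ (k v - i)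
      ≤ ∑ v ∈ T.filter (fun v => i ≤ k v), (R0 : ℝ) ^ (k' v - i) := by
        refine Finset.sum_le_sum fun v _ => ?_
        apply pow_le_pow_right₀ h2
        have := h v
        omega
    _ ≤ _ := Finset.sum_le_sum_of_subset_of_nonneg hsub fun v _ _ => by positivity

theorem ridgeP_ge {Λ s : ℝ} (hΛ : 1 ≤ Λ) (R0 : ℕ) (T : Finset V) (k : V → ℕ) (i : ℕ) :
    1 ≤ ridgeP Λ s R0 T k i := by
  unfold ridgeP
  split_ifs
  · exact le_rfl
  · exact hΛ

theorem ridgeP_mono {Λ s : ℝ} (hΛ : 1 ≤ Λ) {R0 : ℕ} (hR : 1 ≤ R0) (T : Finset V) {k k' : V → ℕ}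
    (h : ∀ v, k v ≤ k' v) (i : ℕ) : ridgeP Λ s R0 T k' i ≤ ridgeP Λ s R0 T k i := by
  have h1 := yS_mono hR T h i
  unfold ridgeP
  by_cases g : s ≤ yS R0 T k i
  · rw [if_pos g, if_pos (g.trans h1)]
  · rw [if_neg g]
    split_ifs
    · exact hΛ
    · exact le_rfl

theorem log_div_anti {s y : ℝ} (hs : 0 < s) (hsy : s ≤ y) :
    s * Real.log (1 + y) ≤ y * Real.log (1 + s) := by
  have hy : 0 < y := lt_of_lt_of_le hs hsy
  have h1 : (1 + y) ^ (s / y) ≤ 1 + s / y * y :=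
    rpow_one_add_le_one_add_mul_self (by linarith) (by positivity) ((div_le_one hy).2 hsy)
  rw [div_mul_cancel₀ s hy.ne'] at h1
  have h2 : 0 < (1 + y) ^ (s / y) := Real.rpow_pos_of_pos (by linarith) _
  have h3 := Real.log_le_log h2 h1
  rw [Real.log_rpow (by linarith)] at h3
  have h4 := mul_le_mul_of_nonneg_left h3 hy.le
  calc s * Real.log (1 + y) = y * (s / y * Real.log (1 + y)) := by field_simp
    _ ≤ _ := h4

/-- the logarithm of one row -/
theorem row_logP {Λ s : ℝ} {R0 : ℕ} (hΛ : 1 ≤ Λ) (hs : 1 ≤ s) (hls : Λ * Real.log (1 + s) ≤ s)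
    (hR : 1 ≤ R0) (T : Finset V) (x : V → ℕ) (i : ℕ) :
    Real.log (1 + ((T.filter fun v => i ≤ x v).card : ℝ) / ridgeP Λ s R0 T x i)
      ≤ yS R0 T x i / Λ := by
  have h2 : (1 : ℝ) ≤ R0 := by exact_mod_cast hR
  have hΛ0 : (0 : ℝ) < Λ := by linarith
  have hsum : ((T.filter fun v => i ≤ x v).card : ℝ) ≤ yS R0 T x i := by
    unfold yS
    have : ((T.filter fun v => i ≤ x v).card : ℝ)
        = ∑ v ∈ T.filter (fun v => i ≤ x v), (1 : ℝ) := by simp
    rw [this]
    exact Finset.sum_le_sum fun v _ => one_le_pow₀ h2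
  have hc : (0 : ℝ) ≤ ((T.filter fun v => i ≤ x v).card : ℝ) := Nat.cast_nonneg _
  by_cases g : s ≤ yS R0 T x i
  · have e : ridgeP Λ s R0 T x i = 1 := by unfold ridgeP; rw [if_pos g]
    rw [e, div_one, le_div_iff₀ hΛ0]
    set y := yS R0 T x i with hy
    have hs0 : 0 < s := by linarith
    have h3 : Real.log (1 + ((T.filter fun v => i ≤ x v).card : ℝ)) ≤ Real.log (1 + y) :=
      Real.log_le_log (by linarith) (by linarith)
    have h4 := log_div_anti hs0 g
    have h5 : 0 ≤ Real.log (1 + y) := Real.log_nonneg (by linarith)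
    have h6 : s * (Real.log (1 + y) * Λ) ≤ s * y := by
      calc s * (Real.log (1 + y) * Λ) = Λ * (s * Real.log (1 + y)) := by ring
        _ ≤ Λ * (y * Real.log (1 + s)) := mul_le_mul_of_nonneg_left h4 hΛ0.le
        _ = y * (Λ * Real.log (1 + s)) := by ring
        _ ≤ y * s := mul_le_mul_of_nonneg_left hls (by linarith)
        _ = s * y := by ring
    have h7 := le_of_mul_le_mul_left h6 hs0
    exact (mul_le_mul_of_nonneg_right h3 hΛ0.le).trans h7
  · have e : ridgeP Λ s R0 T x i = Λ := by unfold ridgeP; rw [if_neg g]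
    rw [e]
    have h3 : 0 ≤ ((T.filter fun v => i ≤ x v).card : ℝ) / Λ := div_nonneg hc hΛ0.le
    have h4 := Real.log_le_sub_one_of_pos
      (show 0 < 1 + ((T.filter fun v => i ≤ x v).card : ℝ) / Λ by linarith)
    refine (show _ ≤ ((T.filter fun v => i ≤ x v).card : ℝ) / Λ by linarith).trans ?_
    exact div_le_div_of_nonneg_right hsum hΛ0.le

/-- log det of a level -/
noncomputable def FiP (S : J → Finset V) (Λ s : ℝ) (R0 : ℕ) (x : V → ℕ) (i : ℕ) : ℝ :=
  FF (inc S) (fun j => ridgeP Λ s R0 (S j) x i) (lvl x i)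

theorem FiP_le (hS2c : S2c) (S : J → Finset V) {t R0 : ℕ} {Λ s : ℝ}
    (ht : ∀ v, (Finset.univ.filter fun j => v ∈ S j).card ≤ t) (hΛ : 1 ≤ Λ) (hs : 1 ≤ s)
    (hls : Λ * Real.log (1 + s) ≤ s) (hR : 1 ≤ R0) (x : V → ℕ) (i : ℕ) :
    FiP S Λ s R0 x i ≤ t / Λ * ∑ v, if i ≤ x v then (R0 : ℝ) ^ (x v - i) else 0 := by
  have hpos : ∀ j, 0 < ridgeP Λ s R0 (S j) x i := fun j =>
    lt_of_lt_of_le zero_lt_one (ridgeP_ge hΛ R0 (S j) x i)
  refine (hS2c V J (inc S) (fun j => ridgeP Λ s R0 (S j) x i) (lvl x i) hpos).trans ?_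
  have h2 : ∀ j, Real.log (1 + (∑ v ∈ lvl x i, inc S v j ^ 2) / ridgeP Λ s R0 (S j) x i)
      ≤ (∑ v ∈ S j, if i ≤ x v then (R0 : ℝ) ^ (x v - i) else 0) / Λ := by
    intro j
    have e1 : ∑ v ∈ lvl x i, inc S v j ^ 2 = (((S j).filter fun v => i ≤ x v).card : ℝ) := by
      unfold inc lvl
      have e2 : ∀ v, (if v ∈ S j then (1 : ℝ) else 0) ^ 2 = if v ∈ S j then 1 else 0 := fun v => by
        split_ifs <;> norm_num
      simp only [e2]
      rw [← Finset.sum_filter, Finset.filter_filter, Finset.sum_const, nsmul_eq_mul, mul_one]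
      congr 2
      ext v
      simp [and_comm]
    rw [e1]
    have h3 := row_logP hΛ hs hls hR (S j) x i
    unfold yS at h3
    rw [Finset.sum_filter] at h3
    exact h3
  refine (Finset.sum_le_sum fun j _ => h2 j).trans ?_
  rw [← Finset.sum_div]
  have h4 := sum_swap_t S ht (fun v => if i ≤ x v then (R0 : ℝ) ^ (x v - i) else 0)
    (fun v => by split_ifs <;> positivity)
  calc (∑ j, ∑ v ∈ S j, if i ≤ x v then (R0 : ℝ) ^ (x v - i) else 0) / (Λ : ℝ)
      ≤ (t * ∑ v, if i ≤ x v then (R0 : ℝ) ^ (x v - i) else 0) / Λ :=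
        div_le_div_of_nonneg_right h4 (by linarith)
    _ = _ := by ring

/-- the key sum (*) -/
theorem key_sumP {R0 : ℕ} (hR : 2 ≤ R0) (x : V → ℕ) (Kc : ℕ) (g : ℕ → ℝ)
    (hg : ∀ i, g i ≤ ∑ v, if i ≤ x v then (R0 : ℝ) ^ (x v - i) else 0) :
    ∑ i ∈ Finset.Icc 2 Kc, ((R0 : ℝ) ^ 2) ^ i * g i ≤ 2 * XX ((R0 : ℝ) ^ 2) x := by
  have h2 : (2 : ℝ) ≤ R0 := by exact_mod_cast hR
  calc ∑ i ∈ Finset.Icc 2 Kc, ((R0 : ℝ) ^ 2) ^ i * g i
      ≤ ∑ i ∈ Finset.Icc 2 Kc, ((R0 : ℝ) ^ 2) ^ i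
          * (∑ v, if i ≤ x v then (R0 : ℝ) ^ (x v - i) else 0) := by
        refine Finset.sum_le_sum fun i _ => ?_
        exact mul_le_mul_of_nonneg_left (hg i) (by positivity)
    _ = ∑ v, ∑ i ∈ Finset.Icc 2 Kc,
          (if i ≤ x v then ((R0 : ℝ) ^ 2) ^ i * (R0 : ℝ) ^ (x v - i) else 0) := by
        rw [Finset.sum_comm]
        refine Finset.sum_congr rfl fun i _ => ?_
        rw [Finset.mul_sum]
        refine Finset.sum_congr rfl fun v _ => ?_
        split_ifs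
        · ring
        · ring
    _ ≤ ∑ v, 2 * (if 1 ≤ x v then ((R0 : ℝ) ^ 2) ^ x v else 0) := by
        refine Finset.sum_le_sum fun v _ => ?_
        have e1 : ∀ i ∈ Finset.Icc 2 Kc,
            (if i ≤ x v then ((R0 : ℝ) ^ 2) ^ i * (R0 : ℝ) ^ (x v - i) else 0)
            = if i ≤ x v then (R0 : ℝ) ^ x v * (R0 : ℝ) ^ i else 0 := by
          intro i _
          by_cases h : i ≤ x v
          · rw [if_pos h, if_pos h, ← pow_mul, ← pow_add, ← pow_add]
            congr 1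
            omega
          · rw [if_neg h, if_neg h]
        rw [Finset.sum_congr rfl e1, ← Finset.sum_filter, ← Finset.mul_sum]
        by_cases hx : 1 ≤ x v
        · rw [if_pos hx]
          have h3 : ∑ i ∈ (Finset.Icc 2 Kc).filter (fun i => i ≤ x v), (R0 : ℝ) ^ i
              ≤ ∑ i ∈ Finset.range (x v + 1), (R0 : ℝ) ^ i := by
            apply Finset.sum_le_sum_of_subset_of_nonneg
            · intro i hi
              rw [Finset.mem_filter] at hi
              rw [Finset.mem_range]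
              omega
            · intro i _ _; positivity
          have h4 := geo h2 (x v)
          calc (R0 : ℝ) ^ x v * ∑ i ∈ (Finset.Icc 2 Kc).filter (fun i => i ≤ x v), (R0 : ℝ) ^ i
              ≤ (R0 : ℝ) ^ x v * (2 * (R0 : ℝ) ^ x v) :=
                mul_le_mul_of_nonneg_left (h3.trans h4) (by positivity)
            _ = 2 * ((R0 : ℝ) ^ 2) ^ x v := by rw [← pow_mul]; ring
        · rw [if_neg hx]
          have h3 : (Finset.Icc 2 Kc).filter (fun i => i ≤ x v) = ∅ := by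
            apply Finset.filter_eq_empty_iff.2
            intro i hi
            have := (Finset.mem_Icc.1 hi).1
            omega
          rw [h3]; simp
    _ = 2 * XX ((R0 : ℝ) ^ 2) x := by
        unfold XX
        rw [← Finset.mul_sum]

/-- average of the log dets of a level over the family of ridges -/
noncomputable def FB (S : J → Finset V) (t : ℕ) (Λ s : A → ℝ) (R0 : ℕ) (x : V → ℕ) (i : ℕ) : ℝ :=
  (∑ a, Λ a / t * FiP S (Λ a) (s a) R0 x i) / Fintype.card A

/-- hypotheses on the parameters -/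
structure HypP (S : J → Finset V) (t R0 Lh q : ℕ) (Λ s : A → ℝ) : Prop where
  ht1 : 1 ≤ t
  hV : Nonempty V
  hJ : Nonempty J
  hA : Nonempty A
  ht : ∀ v, (Finset.univ.filter fun j => v ∈ S j).card ≤ t
  hΛ : ∀ a, 64 * (t : ℝ) ≤ Λ a
  hs : ∀ a, 1 ≤ s a
  hls : ∀ a, Λ a * Real.log (1 + s a) ≤ s a
  hR : 2 ≤ R0
  hq : 1 ≤ q
  hL : 16 * q * t ≤ Lh
  hq2 : 3 * (Fintype.card V + 2) * Fintype.card J < 2 ^ q

section basic

variable {S : J → Finset V} {t R0 Lh q : ℕ} {Λ s : A → ℝ} (H : HypP S t R0 Lh q Λ s)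
include H

theorem HypP.t1 : (1 : ℝ) ≤ t := by exact_mod_cast H.ht1

theorem HypP.Λ1 (a : A) : 1 ≤ Λ a := by have := H.hΛ a; have := H.t1; linarith

theorem HypP.R4 : (4 : ℝ) ≤ (R0 : ℝ) ^ 2 := by
  have h : (2 : ℝ) ≤ R0 := by exact_mod_cast H.hR
  nlinarith

theorem HypP.Lpos : (0 : ℝ) < Lh := by
  have h1 := H.hL
  have h2 := H.hq
  have h3 := H.ht1
  have : 0 < 16 * q * t := by positivity
  exact_mod_cast lt_of_lt_of_le this h1

theorem HypP.p_pos : 0 < pp R0 := by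
  have := H.R4
  unfold pp; positivity

theorem HypP.p_le : pp R0 ≤ 1 / 16 := by
  have := H.R4
  unfold pp
  apply one_div_le_one_div_of_le (by norm_num) (by linarith)

theorem HypP.pR : pp R0 * (R0 : ℝ) ^ 2 = 1 / 4 := by
  have := H.R4
  have h0 : (R0 : ℝ) ^ 2 ≠ 0 := by linarith
  unfold pp
  rw [one_div, mul_inv, mul_assoc, inv_mul_cancel₀ h0]
  norm_num

theorem HypP.cc1 : 1 ≤ cc R0 := by
  have := H.p_le
  unfold cc; linarith

theorem HypP.cc2 : cc R0 ≤ 4 / 3 := by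
  have := H.p_pos
  unfold cc; linarith

theorem HypP.coin : (1 - pp R0) + pp R0 * (R0 : ℝ) ^ 2 * cc R0 ≤ cc R0 := by
  rw [H.pR]
  unfold cc; linarith

theorem HypP.n1 : (1 : ℝ) ≤ Fintype.card V := by
  have := H.hV
  exact_mod_cast Fintype.card_pos (α := V)

theorem HypP.d1 : (1 : ℝ) ≤ Fintype.card J := by
  have := H.hJ
  exact_mod_cast Fintype.card_pos (α := J)

theorem HypP.a1 : (1 : ℝ) ≤ Fintype.card A := by
  have := H.hA
  exact_mod_cast Fintype.card_pos (α := A)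

theorem HypP.gg_pos : 0 < gg V J R0 := by
  have h1 := H.n1
  have h2 := H.d1
  have h3 := H.R4
  have h4 : (0 : ℝ) < KK V := by unfold KK; positivity
  unfold gg
  apply div_pos <;> apply mul_pos <;> linarith

theorem HypP.gg_mul : gg V J R0 * (KK V * Fintype.card J) = (R0 : ℝ) ^ 2 * Fintype.card V := by
  have h2 := H.d1
  have h4 : (0 : ℝ) < KK V := by unfold KK; positivity
  unfold gg
  rw [div_mul_cancel₀]
  exact (mul_pos h4 (by linarith)).ne'

theorem FB_le (hS2c : S2c) (x : V → ℕ) (i : ℕ) :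
    FB S t Λ s R0 x i ≤ ∑ v, if i ≤ x v then (R0 : ℝ) ^ (x v - i) else 0 := by
  have hR := H.hR
  have ht := H.t1
  have ha := H.a1
  unfold FB
  rw [div_le_iff₀ (by linarith)]
  set Y := ∑ v, (if i ≤ x v then (R0 : ℝ) ^ (x v - i) else 0) with hY
  calc ∑ a, Λ a / t * FiP S (Λ a) (s a) R0 x i ≤ ∑ _a : A, Y := by
        refine Finset.sum_le_sum fun a _ => ?_
        have h1 := FiP_le hS2c S H.ht (H.Λ1 a) (H.hs a) (H.hls a) (by omega : 1 ≤ R0) x i
        have hΛ := H.Λ1 a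
        have h2 : 0 ≤ Λ a / t := div_nonneg (by linarith) (by linarith)
        have h3 := mul_le_mul_of_nonneg_left h1 h2
        have h4 : Λ a / t * (t / Λ a * Y) = Y := by
          have h5 : Λ a ≠ 0 := by linarith
          have h6 : (t : ℝ) ≠ 0 := by linarith
          field_simp
        rw [h4] at h3
        exact h3
    _ = Y * Fintype.card A := by
        rw [Finset.sum_const, Finset.card_univ, nsmul_eq_mul]; ring

theorem FiP_mono (hS2a : S2a) {x x' : V → ℕ} (h : ∀ w, x w ≤ x' w) (a : A) (i : ℕ) :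
    FiP S (Λ a) (s a) R0 x i ≤ FiP S (Λ a) (s a) R0 x' i := by
  unfold FiP
  refine hS2a V J (inc S) _ _ _ _ (fun j => ?_) (fun j => ?_) ?_
  · exact lt_of_lt_of_le zero_lt_one (ridgeP_ge (H.Λ1 a) _ _ _ _)
  · exact ridgeP_mono (H.Λ1 a) (by have := H.hR; omega) (S j) h i
  · intro v hv
    rw [mem_lvl] at hv ⊢
    exact hv.trans (h v)

theorem FB_mono (hS2a : S2a) {x x' : V → ℕ} (h : ∀ w, x w ≤ x' w) (i : ℕ) :
    FB S t Λ s R0 x i ≤ FB S t Λ s R0 x' i := by
  unfold FB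
  have ha := H.a1
  apply div_le_div_of_nonneg_right _ (by linarith)
  refine Finset.sum_le_sum fun a _ => ?_
  refine mul_le_mul_of_nonneg_left (FiP_mono H hS2a h a i) ?_
  have := H.Λ1 a
  have := H.t1
  exact div_nonneg (by linarith) (by linarith)

theorem FiP_gain (hS2a : S2a) (hS2b : S2b) {x x' : V → ℕ} (h : ∀ w, x w ≤ x' w) {v : V} {i : ℕ}
    (hv : x v < i) (hv' : i ≤ x' v) (a : A)
    (hlv : 64 * (t : ℝ) < Λ a * lv (LMP S (Λ a) (s a) R0 x i) (inc S v)) :
    Λ a / t * FiP S (Λ a) (s a) R0 x i + 32 ≤ Λ a / t * FiP S (Λ a) (s a) R0 x' i := by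
  have hvU : v ∉ lvl x i := by rw [mem_lvl]; omega
  have hpos : ∀ j, 0 < ridgeP (Λ a) (s a) R0 (S j) x i := fun j =>
    lt_of_lt_of_le zero_lt_one (ridgeP_ge (H.Λ1 a) _ _ _ _)
  have h1 := hS2b V J (inc S) (fun j => ridgeP (Λ a) (s a) R0 (S j) x i) (lvl x i) v hpos hvU
  have h2 : FF (inc S) (fun j => ridgeP (Λ a) (s a) R0 (S j) x i) (insert v (lvl x i))
      ≤ FiP S (Λ a) (s a) R0 x' i := by
    unfold FiP
    refine hS2a V J (inc S) _ _ _ _ (fun j => ?_) (fun j => ?_) ?_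
    · exact lt_of_lt_of_le zero_lt_one (ridgeP_ge (H.Λ1 a) _ _ _ _)
    · exact ridgeP_mono (H.Λ1 a) (by have := H.hR; omega) (S j) h i
    · intro w hw
      rw [mem_lvl]
      rcases Finset.mem_insert.1 hw with rfl | hw
      · exact hv'
      · exact (mem_lvl.1 hw).trans (h w)
  rw [h1] at h2
  have ht := H.t1
  have hΛ := H.hΛ a
  have hΛ0 : 0 < Λ a := by linarith
  set y : ℝ := 64 * t / Λ a with hy
  have hy0 : 0 ≤ y := by positivity
  have hy1 : y ≤ 1 := by rw [hy, div_le_one hΛ0]; exact hΛ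
  set ℓ := lv (Matrix.diagonal (fun j => ridgeP (Λ a) (s a) R0 (S j) x i)
      + Gm (inc S) (lvl x i)) (inc S v) with hℓ
  have h3 : y ≤ ℓ := by
    have e : lv (LMP S (Λ a) (s a) R0 x i) (inc S v) = ℓ := rfl
    rw [e] at hlv
    rw [hy, div_le_iff₀ hΛ0]
    linarith
  have h4 : Real.log (1 + y) ≤ Real.log (1 + ℓ) := Real.log_le_log (by linarith) (by linarith)
  have h5 := Real.one_sub_inv_le_log_of_pos (show 0 < 1 + y by linarith)
  have h6 : 1 - (1 + y)⁻¹ = y / (1 + y) := by field_simp; ring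
  rw [h6] at h5
  have h7 : y / 2 ≤ y / (1 + y) := div_le_div_of_nonneg_left hy0 (by linarith) (by linarith)
  have h8 : Λ a / t * (y / 2) = 32 := by
    rw [hy]
    have h9 : Λ a ≠ 0 := hΛ0.ne'
    have h10 : (t : ℝ) ≠ 0 := by linarith
    field_simp
    norm_num
  have h11 : 0 ≤ Λ a / t := div_nonneg hΛ0.le (by linarith)
  have e2 : FiP S (Λ a) (s a) R0 x i
      = FF (inc S) (fun j => ridgeP (Λ a) (s a) R0 (S j) x i) (lvl x i) := rfl
  have h12 : FiP S (Λ a) (s a) R0 x i + y / 2 ≤ FiP S (Λ a) (s a) R0 x' i := by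
    rw [e2]; linarith
  have h13 := mul_le_mul_of_nonneg_left h12 h11
  rw [mul_add, h8] at h13
  exact h13

theorem FB_gain (hS2a : S2a) (hS2b : S2b) {x x' : V → ℕ} (h : ∀ w, x w ≤ x' w) {v : V} {i : ℕ}
    (hv : x v < i) (hv' : i ≤ x' v)
    (hlv : 2 * (Finset.univ.filter fun a =>
      Λ a * lv (LMP S (Λ a) (s a) R0 x i) (inc S v) ≤ 64 * t).card < Fintype.card A) :
    FB S t Λ s R0 x i + 16 ≤ FB S t Λ s R0 x' i := by
  classical
  have ha := H.a1
  set bad := Finset.univ.filter fun a =>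
    ¬ (Λ a * lv (LMP S (Λ a) (s a) R0 x i) (inc S v) ≤ 64 * t) with hbad
  have hc := Finset.card_filter_add_card_filter_not (s := (Finset.univ : Finset A))
    (p := fun a => Λ a * lv (LMP S (Λ a) (s a) R0 x i) (inc S v) ≤ 64 * t)
  rw [Finset.card_univ] at hc
  have hb : Fintype.card A ≤ 2 * bad.card := by
    rw [hbad]; omega
  have hb' : (Fintype.card A : ℝ) ≤ 2 * bad.card := by exact_mod_cast hb
  unfold FB
  have ha0 : (0 : ℝ) < Fintype.card A := by linarith
  rw [← sub_nonneg, ← sub_sub, ← sub_div, ← Finset.sum_sub_distrib, sub_nonneg,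
    le_div_iff₀ ha0]
  have h1 : ∀ a, (if a ∈ bad then (32 : ℝ) else 0)
      ≤ Λ a / t * FiP S (Λ a) (s a) R0 x' i - Λ a / t * FiP S (Λ a) (s a) R0 x i := by
    intro a
    split_ifs with hm
    · rw [hbad, Finset.mem_filter] at hm
      have := FiP_gain H hS2a hS2b h hv hv' a (not_le.1 hm.2)
      linarith
    · have h2 := FiP_mono H hS2a h a i
      have h3 : 0 ≤ Λ a / t := div_nonneg (by have := H.Λ1 a; linarith) (by have := H.t1; linarith)
      have := mul_le_mul_of_nonneg_left h2 h3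
      linarith
  have h2 := Finset.sum_le_sum fun a (_ : a ∈ (Finset.univ : Finset A)) => h1 a
  have h3 : ∑ a, (if a ∈ bad then (32 : ℝ) else 0) = bad.card * 32 := by
    rw [Finset.sum_ite_mem, Finset.univ_inter, Finset.sum_const, nsmul_eq_mul]
  rw [h3] at h2
  linarith

end basic

end Pool.Agent.Helper92.BP
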