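import Pool.Agent.Helper50.BO.St

set_option linter.unusedSectionVars false

/-!
Landing lemma for the schedule (module S3 of Theorem O, Beck-Fiala).
-/

namespace Pool.Agent.Helper92.BO

open Matrix Pool.Agent.Helper50.BO

variable {V J : Type} [Fintype V] [Fintype J] [DecidableEq V] [DecidableEq J]

/-- rank one matrix -/
noncomputable def r1 (a : J → ℝ) : Matrix J J ℝ := Matrix.vecMulVec a a

/-- matrix of level `m` with the element `v` removed -/
noncomputable def Bm (S : J → Finset V) (L p : ℝ) (x : V → ℕ) (v : V) (m : ℕ) : Matrix J J ℝ :=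
  L • (1 : Matrix J J ℝ) + Gm (inc S) ((lvl x (m + 1)).erase v)
    - (p / 4) • Gm (inc S) ((exq x m).erase v)

/-- matrix of level `m` -/
noncomputable def Mx (S : J → Finset V) (L p : ℝ) (x : V → ℕ) (m : ℕ) : Matrix J J ℝ :=
  L • (1 : Matrix J J ℝ) + Gm (inc S) (lvl x (m + 1)) - (p / 4) • Gm (inc S) (exq x m)

/-- coefficient -/
noncomputable def sm (p : ℝ) (m y : ℕ) : ℝ := if m + 1 ≤ y then 1 else if y = m then - (p / 4) else 0

theorem Gm_erase (a : V → J → ℝ) (U : Finset V) (v : V) :
    Gm a U = Gm a (U.erase v) + (if v ∈ U then (1 : ℝ) else 0) • r1 (a v) := by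
  unfold Gm r1
  by_cases h : v ∈ U
  · rw [if_pos h, one_smul, Finset.sum_erase_add _ _ h]
  · rw [if_neg h, zero_smul, add_zero, Finset.erase_eq_of_notMem h]

theorem mem_lvl {k : V → ℕ} {i : ℕ} {v : V} : v ∈ lvl k i ↔ i ≤ k v := by simp [lvl]

theorem mem_exq {k : V → ℕ} {i : ℕ} {v : V} : v ∈ exq k i ↔ k v = i := by simp [exq]

theorem Mx_eq (S : J → Finset V) (L p : ℝ) (x : V → ℕ) (v : V) (m : ℕ) :
    Mx S L p x m = Bm S L p x v m + sm p m (x v) • r1 (inc S v) := by
  unfold Mx Bm sm
  rw [Gm_erase (inc S) (lvl x (m + 1)) v, Gm_erase (inc S) (exq x m) v]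
  by_cases h1 : m + 1 ≤ x v
  · have h2 : ¬ (x v = m) := by omega
    rw [if_pos (mem_lvl.2 h1), if_neg (fun h => h2 (mem_exq.1 h)), if_pos h1]
    simp only [zero_smul, add_zero, one_smul]
    abel
  · by_cases h2 : x v = m
    · rw [if_neg (fun h => h1 (mem_lvl.1 h)), if_pos (mem_exq.2 h2), if_neg h1, if_pos h2]
      simp only [zero_smul, add_zero, one_smul, smul_add, neg_smul]
      abel
    · rw [if_neg (fun h => h1 (mem_lvl.1 h)), if_neg (fun h => h2 (mem_exq.1 h)), if_neg h1,
        if_neg h2]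
      simp only [zero_smul, add_zero]

theorem Bm_update (S : J → Finset V) (L p : ℝ) (x : V → ℕ) (v : V) (m y : ℕ) :
    Bm S L p (Function.update x v y) v m = Bm S L p x v m := by
  have h1 : (lvl (Function.update x v y) (m + 1)).erase v = (lvl x (m + 1)).erase v := by
    ext w
    simp only [Finset.mem_erase, mem_lvl]
    constructor
    · rintro ⟨h, h'⟩
      rw [Function.update_of_ne h] at h'
      exact ⟨h, h'⟩
    · rintro ⟨h, h'⟩
      refine ⟨h, ?_⟩
      rw [Function.update_of_ne h]; exact h'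
  have h2 : (exq (Function.update x v y) m).erase v = (exq x m).erase v := by
    ext w
    simp only [Finset.mem_erase, mem_exq]
    constructor
    · rintro ⟨h, h'⟩
      rw [Function.update_of_ne h] at h'
      exact ⟨h, h'⟩
    · rintro ⟨h, h'⟩
      refine ⟨h, ?_⟩
      rw [Function.update_of_ne h]; exact h'
  unfold Bm
  rw [h1, h2]

theorem Mx_update (S : J → Finset V) (L p : ℝ) (x : V → ℕ) (v : V) (m y : ℕ) :
    Mx S L p (Function.update x v y) m = Bm S L p x v m + sm p m y • r1 (inc S v) := by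
  rw [Mx_eq S L p (Function.update x v y) v m, Bm_update, Function.update_self]

/-- quadratic form lower bound -/
def QF (M : Matrix J J ℝ) (c : ℝ) : Prop := ∀ y : J → ℝ, c * (y ⬝ᵥ y) ≤ y ⬝ᵥ (M *ᵥ y)

theorem quad_r1 (a y : J → ℝ) : y ⬝ᵥ (r1 a *ᵥ y) = (a ⬝ᵥ y) ^ 2 := by
  unfold r1
  rw [Matrix.vecMulVec_mulVec]
  rw [show (MulOpposite.op (a ⬝ᵥ y)) • a = (a ⬝ᵥ y) • a from by
    ext j; simp [mul_comm]]
  rw [dotProduct_smul, smul_eq_mul, dotProduct_comm y a]
  ring

theorem r1_symm (a : J → ℝ) : (r1 a).IsHermitian := by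
  unfold r1
  ext i j
  simp [Matrix.vecMulVec_apply, mul_comm]

theorem QF_add {M : Matrix J J ℝ} {c s : ℝ} (h : QF M c) (hs : 0 ≤ s) (a : J → ℝ) :
    QF (M + s • r1 a) c := by
  intro y
  rw [Matrix.add_mulVec, dotProduct_add, Matrix.smul_mulVec, dotProduct_smul, quad_r1, smul_eq_mul]
  have := h y
  have h2 := mul_nonneg hs (sq_nonneg (a ⬝ᵥ y))
  linarith

theorem PosDef_add {M : Matrix J J ℝ} {s : ℝ} (h : M.PosDef) (hs : 0 ≤ s) (a : J → ℝ) :
    (M + s • r1 a).PosDef := by
  refine h.add_posSemidef ?_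
  refine Matrix.PosSemidef.smul ?_ hs
  have := Matrix.posSemidef_vecMulVec_self_star a
  simpa [r1] using this

/-- leverage bound -/
theorem lv_le {M : Matrix J J ℝ} {c : ℝ} (hc : 0 < c) (h : M.PosDef) (hq : QF M c) (a : J → ℝ) :
    lv M a ≤ (a ⬝ᵥ a) / c := by
  have hu : IsUnit M.det := h.det_pos.ne'.isUnit
  set y := M⁻¹ *ᵥ a with hy
  have h1 : M *ᵥ y = a := by
    rw [hy, Matrix.mulVec_mulVec, Matrix.mul_nonsing_inv _ hu, Matrix.one_mulVec]
  have h2 := hq y
  rw [h1] at h2
  have h3 : lv M a = y ⬝ᵥ a := by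
    unfold lv; rw [← hy, dotProduct_comm]
  -- Cauchy-Schwarz type
  have h4 : 0 ≤ (fun j => a j - c * y j) ⬝ᵥ (fun j => a j - c * y j) := by
    unfold dotProduct
    exact Finset.sum_nonneg fun j _ => mul_self_nonneg _
  have h5 : (fun j => a j - c * y j) ⬝ᵥ (fun j => a j - c * y j)
      = a ⬝ᵥ a - 2 * c * (y ⬝ᵥ a) + c ^ 2 * (y ⬝ᵥ y) := by
    unfold dotProduct
    rw [Finset.mul_sum, Finset.mul_sum, ← Finset.sum_sub_distrib, ← Finset.sum_add_distrib]
    exact Finset.sum_congr rfl fun j _ => by ring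
  rw [h5] at h4
  rw [h3, le_div_iff₀ hc]
  have h6 : c * (c * (y ⬝ᵥ y)) ≤ c * (y ⬝ᵥ a) := mul_le_mul_of_nonneg_left h2 hc.le
  nlinarith

theorem inc_dot (S : J → Finset V) (t : ℕ)
    (ht : ∀ v, (Finset.univ.filter fun j => v ∈ S j).card ≤ t) (v : V) :
    inc S v ⬝ᵥ inc S v ≤ t := by
  have h1 : inc S v ⬝ᵥ inc S v = ((Finset.univ.filter fun j => v ∈ S j).card : ℝ) := by
    unfold dotProduct inc
    have h2 : ∀ j, (if v ∈ S j then (1 : ℝ) else 0) * (if v ∈ S j then (1 : ℝ) else 0)
        = if v ∈ S j then 1 else 0 := fun j => by split_ifs <;> norm_num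
    simp only [h2]
    simp
  rw [h1]
  exact_mod_cast ht v

/-- normalised sum of the traces -/
noncomputable def ST (S : J → Finset V) (L p : ℝ) (q Kc : ℕ) (x : V → ℕ) : ℝ :=
  ∑ m ∈ Finset.Icc 1 Kc, L ^ q * TP (Mx S L p x m) q

/-- weighted number of landed elements -/
noncomputable def XX (R : ℝ) (x : V → ℕ) : ℝ := ∑ v, if 1 ≤ x v then R ^ x v else 0

/-- weighted number of landed elements other than `v` -/
noncomputable def Xv (R : ℝ) (x : V → ℕ) (v : V) : ℝ :=
  ∑ w ∈ Finset.univ.erase v, if 1 ≤ x w then R ^ x w else 0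

theorem XX_update (R : ℝ) (x : V → ℕ) (v : V) {y : ℕ} (hy : 1 ≤ y) :
    XX R (Function.update x v y) = Xv R x v + R ^ y := by
  unfold XX Xv
  rw [← Finset.sum_erase_add _ _ (Finset.mem_univ v)]
  congr 1
  · refine Finset.sum_congr rfl fun w hw => ?_
    rw [Function.update_of_ne (Finset.ne_of_mem_erase hw)]
  · rw [Function.update_self, if_pos hy]

theorem Xv_le {R : ℝ} (hR : 0 ≤ R) (x : V → ℕ) (v : V) : Xv R x v ≤ XX R x := by
  unfold XX Xv
  rw [← Finset.sum_erase_add _ _ (Finset.mem_univ v)]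
  have : 0 ≤ (if 1 ≤ x v then R ^ x v else 0) := by split_ifs <;> positivity
  linarith

/-- cost of a pending configuration -/
noncomputable def Pend (S : J → Finset V) (L p R cp γ : ℝ) (q Kc : ℕ) (x : V → ℕ) (v : V) (l : ℕ) :
    ℝ :=
  Xv R x v + cp * R ^ l + γ * ∑ m ∈ Finset.Icc 1 Kc,
    L ^ q * TP (Bm S L p x v m + (if m < l then (1 : ℝ) else 0) • r1 (inc S v)) q

/-- Coins: from a pending configuration some landing level does not cost more. -/
theorem pend_down (hS1b : S1b) (S : J → Finset V) {L p R cp γ : ℝ} {q Kc : ℕ} (hL : 0 < L)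
    (hp : 0 < p) (hp4 : p ≤ 1 / 4) (hq : 1 ≤ q) (hR : 1 ≤ R) (hcp : 1 ≤ cp) (hγ : 0 ≤ γ)
    (hcoin : (1 - p) + p * R * cp ≤ cp) (x : V → ℕ) (v : V) (i : ℕ) (hi : 1 ≤ i)
    (hB : ∀ m ∈ Finset.Icc 1 Kc, i ≤ m → (Bm S L p x v m).PosDef ∧
      8 * q * lv (Bm S L p x v m) (inc S v) ≤ 1)
    (hB1 : ∀ m ∈ Finset.Icc 1 Kc, (Bm S L p x v m + (1 : ℝ) • r1 (inc S v)).PosDef) (C : ℝ)
    (n : ℕ) : ∀ l, i ≤ l → Kc + 1 ≤ l + n → Pend S L p R cp γ q Kc x v l ≤ C →
      ∃ i', i ≤ i' ∧ (∀ m ∈ Finset.Icc 1 Kc, (Mx S L p (Function.update x v i') m).PosDef) ∧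
        XX R (Function.update x v i') + γ * ST S L p q Kc (Function.update x v i') ≤ C := by
  have hLq : 0 < L ^ q := pow_pos hL q
  -- posdef below
  have hpd : ∀ l, i ≤ l → ∀ m ∈ Finset.Icc 1 Kc, m ≠ l →
      (Mx S L p (Function.update x v l) m).PosDef := by
    intro l hl m hm hml
    rw [Mx_update]
    unfold sm
    by_cases h1 : m + 1 ≤ l
    · rw [if_pos h1]; exact hB1 m hm
    · have h2 : ¬ l = m := fun h => hml h.symm
      rw [if_neg h1, if_neg h2, zero_smul, add_zero]
      exact (hB m hm (by omega)).1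
  induction n with
  | zero =>
    intro l hl hK hC
    refine ⟨l, hl, fun m hm => ?_, ?_⟩
    · have := (Finset.mem_Icc.1 hm).2
      exact hpd l hl m hm (by omega)
    · rw [XX_update R x v (by omega)]
      have h1 : ST S L p q Kc (Function.update x v l) = ∑ m ∈ Finset.Icc 1 Kc,
          L ^ q * TP (Bm S L p x v m + (if m < l then (1 : ℝ) else 0) • r1 (inc S v)) q := by
        unfold ST
        refine Finset.sum_congr rfl fun m hm => ?_
        have := (Finset.mem_Icc.1 hm).2
        rw [Mx_update]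
        unfold sm
        rw [if_pos (show m + 1 ≤ l by omega), if_pos (show m < l by omega)]
      rw [h1]
      unfold Pend at hC
      have h2 : R ^ l ≤ cp * R ^ l := by
        have : 0 ≤ R ^ l := by positivity
        nlinarith
      linarith
  | succ n ih =>
    intro l hl hK hC
    by_cases hlK : Kc + 1 ≤ l
    · refine ⟨l, hl, fun m hm => ?_, ?_⟩
      · have := (Finset.mem_Icc.1 hm).2
        exact hpd l hl m hm (by omega)
      · rw [XX_update R x v (by omega)]
        have h1 : ST S L p q Kc (Function.update x v l) = ∑ m ∈ Finset.Icc 1 Kc,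
            L ^ q * TP (Bm S L p x v m + (if m < l then (1 : ℝ) else 0) • r1 (inc S v)) q := by
          unfold ST
          refine Finset.sum_congr rfl fun m hm => ?_
          have := (Finset.mem_Icc.1 hm).2
          rw [Mx_update]
          unfold sm
          rw [if_pos (show m + 1 ≤ l by omega), if_pos (show m < l by omega)]
        rw [h1]
        unfold Pend at hC
        have h2 : R ^ l ≤ cp * R ^ l := by
          have : 0 ≤ R ^ l := by positivity
          nlinarith
        linarith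
    · have hlm : l ∈ Finset.Icc 1 Kc := Finset.mem_Icc.2 ⟨by omega, by omega⟩
      obtain ⟨hBl, hlv⟩ := hB l hlm hl
      obtain ⟨s1, s2⟩ := hS1b J (Bm S L p x v l) (inc S v) q p hBl hq hp hp4 hlv
      set f0 : ℕ → ℝ := fun m =>
        L ^ q * TP (Bm S L p x v m + (if m < l then (1 : ℝ) else 0) • r1 (inc S v)) q with hf0
      set D := ∑ m ∈ (Finset.Icc 1 Kc).erase l, f0 m with hD
      -- pending l
      have e0 : Pend S L p R cp γ q Kc x v l
          = Xv R x v + cp * R ^ l + γ * (D + L ^ q * TP (Bm S L p x v l) q) := by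
        unfold Pend
        rw [← Finset.sum_erase_add _ _ hlm, if_neg (lt_irrefl l), zero_smul, add_zero]
      have e1 : Pend S L p R cp γ q Kc x v (l + 1)
          = Xv R x v + cp * R ^ (l + 1)
            + γ * (D + L ^ q * TP (Bm S L p x v l + r1 (inc S v)) q) := by
        unfold Pend
        rw [← Finset.sum_erase_add _ _ hlm, if_pos (Nat.lt_succ_self l), one_smul]
        congr 3
        refine Finset.sum_congr rfl fun m hm => ?_
        have hne := Finset.ne_of_mem_erase hm
        simp only [hf0]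
        by_cases h : m < l
        · rw [if_pos h, if_pos (by omega)]
        · rw [if_neg h, if_neg (by omega)]
      have e2 : XX R (Function.update x v l) + γ * ST S L p q Kc (Function.update x v l)
          = Xv R x v + R ^ l + γ * (D + L ^ q * TP (Bm S L p x v l
              - (p / 4) • r1 (inc S v)) q) := by
        rw [XX_update R x v (by omega)]
        unfold ST
        rw [← Finset.sum_erase_add _ _ hlm]
        congr 3
        · refine Finset.sum_congr rfl fun m hm => ?_
          have hne := Finset.ne_of_mem_erase hm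
          simp only [hf0]
          rw [Mx_update]
          unfold sm
          by_cases h : m < l
          · rw [if_pos h, if_pos (show m + 1 ≤ l by omega)]
          · rw [if_neg h, if_neg (show ¬ (m + 1 ≤ l) by omega), if_neg (show ¬ l = m by omega)]
        · rw [Mx_update]
          unfold sm
          rw [if_neg (show ¬ (l + 1 ≤ l) by omega), if_pos rfl, neg_smul, sub_eq_add_neg]
      have hpow : (0 : ℝ) ≤ R ^ l := by positivity
      have key : (1 - p) * (XX R (Function.update x v l)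
          + γ * ST S L p q Kc (Function.update x v l)) + p * Pend S L p R cp γ q Kc x v (l + 1)
          ≤ Pend S L p R cp γ q Kc x v l := by
        rw [e0, e1, e2]
        have k1 : (1 - p) * R ^ l + p * (cp * R ^ (l + 1)) ≤ cp * R ^ l := by
          have : (1 - p) * R ^ l + p * (cp * R ^ (l + 1)) = ((1 - p) + p * R * cp) * R ^ l := by
            ring
          rw [this]
          exact mul_le_mul_of_nonneg_right hcoin hpow
        have k2 : L ^ q * ((1 - p) * TP (Bm S L p x v l - (p / 4) • r1 (inc S v)) q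
            + p * TP (Bm S L p x v l + r1 (inc S v)) q) ≤ L ^ q * TP (Bm S L p x v l) q :=
          mul_le_mul_of_nonneg_left s2 hLq.le
        have k3 := mul_le_mul_of_nonneg_left k2 hγ
        nlinarith
      by_cases hst : XX R (Function.update x v l)
          + γ * ST S L p q Kc (Function.update x v l) ≤ C
      · refine ⟨l, hl, fun m hm => ?_, hst⟩
        by_cases hml : m = l
        · subst hml
          rw [Mx_update]
          unfold sm
          rw [if_neg (show ¬ (m + 1 ≤ m) by omega), if_pos rfl, neg_smul, ← sub_eq_add_neg]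
          exact s1
        · exact hpd l hl m hm hml
      · refine ih (l + 1) (by omega) (by omega) ?_
        by_contra hcon
        push Not at hst hcon
        have hp1 : 0 < 1 - p := by linarith
        nlinarith [mul_pos hp1 (sub_pos.2 hst), mul_pos hp (sub_pos.2 hcon)]

theorem landing (hS1a : S1a) (hS1b : S1b) (S : J → Finset V) {L p R cp γ : ℝ} {q Kc t : ℕ}
    (ht : ∀ v, (Finset.univ.filter fun j => v ∈ S j).card ≤ t) (hL : 0 < L)
    (hqt : 16 * (q : ℝ) * t ≤ L)
    (hp : 0 < p) (hp4 : p ≤ 1 / 4) (hq : 1 ≤ q) (hR : 1 ≤ R) (hcp : 1 ≤ cp) (hγ : 0 ≤ γ)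
    (hcoin : (1 - p) + p * R * cp ≤ cp) (x : V → ℕ) (v : V) (i : ℕ) (hi : 1 ≤ i) (hxi : x v < i)
    (hM : ∀ m ∈ Finset.Icc 1 Kc, (Mx S L p x m).PosDef ∧ QF (Mx S L p x m) (L / 2)) :
    ∃ i', i ≤ i' ∧ (∀ m ∈ Finset.Icc 1 Kc, (Mx S L p (Function.update x v i') m).PosDef) ∧
      XX R (Function.update x v i') + γ * ST S L p q Kc (Function.update x v i')
        ≤ XX R x + γ * ST S L p q Kc x + cp * R ^ i := by
  have hq0 : (0 : ℝ) ≤ q := Nat.cast_nonneg q
  have ht0 : (0 : ℝ) ≤ t := Nat.cast_nonneg t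
  have hlv : ∀ m ∈ Finset.Icc 1 Kc, lv (Mx S L p x m) (inc S v) ≤ 2 * t / L := by
    intro m hm
    obtain ⟨h1, h2⟩ := hM m hm
    refine (lv_le (by positivity) h1 h2 (inc S v)).trans ?_
    have h3 := inc_dot S t ht v
    rw [div_le_div_iff₀ (by positivity) hL]
    nlinarith
  have hs : ∀ m, sm p m (x v) ≤ 1 ∧ - (p / 4) ≤ sm p m (x v) := by
    intro m
    unfold sm
    split_ifs
    · exact ⟨le_rfl, by linarith⟩
    · exact ⟨by linarith, le_rfl⟩
    · exact ⟨zero_le_one, by linarith⟩
  have heq : ∀ m (c : ℝ), Bm S L p x v m + c • r1 (inc S v)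
      = Mx S L p x m + (c - sm p m (x v)) • r1 (inc S v) := by
    intro m c
    rw [Mx_eq S L p x v m, add_assoc, ← add_smul]
    congr 2
    ring
  refine pend_down hS1b S hL hp hp4 hq hR hcp hγ hcoin x v i hi ?_ ?_ _ (Kc + 1) i le_rfl
    (by omega) ?_
  · intro m hm him
    have h0 : sm p m (x v) = 0 := by
      unfold sm
      rw [if_neg (by omega), if_neg (by omega)]
    have h1 : Bm S L p x v m = Mx S L p x m := by
      rw [Mx_eq S L p x v m, h0, zero_smul, add_zero]
    rw [h1]
    refine ⟨(hM m hm).1, ?_⟩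
    have h2 := hlv m hm
    calc 8 * (q : ℝ) * lv (Mx S L p x m) (inc S v) ≤ 8 * q * (2 * t / L) :=
          mul_le_mul_of_nonneg_left h2 (by positivity)
      _ = (16 * q * t) / L := by ring
      _ ≤ 1 := by rw [div_le_one hL]; exact hqt
  · intro m hm
    rw [heq]
    exact PosDef_add (hM m hm).1 (by linarith [(hs m).1]) _
  · have h1 : ∑ m ∈ Finset.Icc 1 Kc,
        L ^ q * TP (Bm S L p x v m + (if m < i then (1 : ℝ) else 0) • r1 (inc S v)) q
        ≤ ST S L p q Kc x := by
      unfold ST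
      refine Finset.sum_le_sum fun m hm => ?_
      refine mul_le_mul_of_nonneg_left ?_ (by positivity)
      rw [heq]
      have h2 : 0 ≤ (if m < i then (1 : ℝ) else 0) - sm p m (x v)
          ∧ (if m < i then (1 : ℝ) else 0) - sm p m (x v) ≤ 2 := by
        have h3 := hs m
        by_cases h4 : m < i
        · rw [if_pos h4]
          constructor <;> linarith
        · have h0 : sm p m (x v) = 0 := by
            unfold sm
            rw [if_neg (by omega), if_neg (by omega)]
          rw [if_neg h4, h0]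
          norm_num
      refine (hS1a J (Mx S L p x m) (inc S v) q _ (hM m hm).1 h2.1 ?_).2
      have h5 := hlv m hm
      have h6 : 0 ≤ (q : ℝ) * ((if m < i then (1 : ℝ) else 0) - sm p m (x v)) :=
        mul_nonneg hq0 h2.1
      calc (q : ℝ) * ((if m < i then (1 : ℝ) else 0) - sm p m (x v)) * lv (Mx S L p x m) (inc S v)
          ≤ (q : ℝ) * ((if m < i then (1 : ℝ) else 0) - sm p m (x v)) * (2 * t / L) :=
            mul_le_mul_of_nonneg_left h5 h6
        _ ≤ (q : ℝ) * 2 * (2 * t / L) := by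
            apply mul_le_mul_of_nonneg_right _ (by positivity)
            exact mul_le_mul_of_nonneg_left h2.2 hq0
        _ = (4 * (q * t)) / L := by ring
        _ ≤ 1 := by
            rw [div_le_one hL]
            have : 0 ≤ (q : ℝ) * t := by positivity
            linarith
    have h7 := mul_le_mul_of_nonneg_left h1 hγ
    have h8 := Xv_le (by linarith : (0 : ℝ) ≤ R) x v
    unfold Pend
    linarith

end Pool.Agent.Helper92.BO
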