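import Pool.Agent.Helper92.BO.S3a

set_option linter.unusedSectionVars false

/-!
Ridges and the key sums for the schedule (module S3 of Theorem O, Beck-Fiala).
-/

namespace Pool.Agent.Helper92.BO

open Matrix Pool.Agent.Helper50.BO

variable {V J : Type} [Fintype V] [Fintype J] [DecidableEq V] [DecidableEq J]

theorem kmin_le {T : Finset V} {k : V → ℕ} {v : V} (hv : v ∈ T) : kmin T k ≤ k v :=
  Nat.sInf_le ⟨v, hv, rfl⟩

theorem kmin_mem {T : Finset V} {k : V → ℕ} (hT : T.Nonempty) : ∃ v ∈ T, kmin T k = k v := by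
  have h : (k '' (T : Set V)).Nonempty := by
    obtain ⟨v, hv⟩ := hT
    exact ⟨k v, v, hv, rfl⟩
  obtain ⟨v, hv, he⟩ := Nat.sInf_mem h
  exact ⟨v, hv, he.symm⟩

theorem kmin_empty (k : V → ℕ) : kmin (∅ : Finset V) k = 0 := by
  unfold kmin
  simp

theorem kmin_mono (T : Finset V) {k k' : V → ℕ} (h : ∀ v, k v ≤ k' v) : kmin T k ≤ kmin T k' := by
  rcases T.eq_empty_or_nonempty with rfl | hT
  · rw [kmin_empty, kmin_empty]
  · obtain ⟨v, hv, he⟩ := kmin_mem (k := k') hT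
    rw [he]
    exact (kmin_le hv).trans (h v)

theorem ridge_ge {Λ R0 : ℕ} (hΛ : 1 ≤ Λ) (T : Finset V) (k : V → ℕ) (i : ℕ) :
    1 ≤ ridge Λ R0 T k i := by
  unfold ridge
  split_ifs
  · exact le_rfl
  · exact le_max_left _ _
  · exact_mod_cast hΛ

theorem ridge_le {Λ R0 : ℕ} (hΛ : 1 ≤ Λ) (hR : 1 ≤ R0) (T : Finset V) (k : V → ℕ) (i : ℕ) :
    ridge Λ R0 T k i ≤ Λ := by
  have h1 : (1 : ℝ) ≤ Λ := by exact_mod_cast hΛ
  have h2 : (1 : ℝ) ≤ R0 := by exact_mod_cast hR
  unfold ridge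
  split_ifs
  · exact h1
  · refine max_le h1 (div_le_self (by linarith) ?_)
    exact one_le_pow₀ h2
  · exact le_rfl

theorem ridge_mono {Λ R0 : ℕ} (hΛ : 1 ≤ Λ) (hR : 1 ≤ R0) (T : Finset V) {k k' : V → ℕ}
    (h : ∀ v, k v ≤ k' v) (i : ℕ) : ridge Λ R0 T k' i ≤ ridge Λ R0 T k i := by
  have h1 : (1 : ℝ) ≤ Λ := by exact_mod_cast hΛ
  have h2 : (1 : ℝ) ≤ R0 := by exact_mod_cast hR
  have hsub : (T.filter fun v => i ≤ k v) ⊆ (T.filter fun v => i ≤ k' v) := by
    intro v hv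
    rw [Finset.mem_filter] at hv ⊢
    exact ⟨hv.1, hv.2.trans (h v)⟩
  have hcard := Finset.card_le_card hsub
  by_cases g' : Λ ^ 2 ≤ (T.filter fun v => i ≤ k' v).card
  · have : ridge Λ R0 T k' i = 1 := by unfold ridge; rw [if_pos g']
    rw [this]
    exact ridge_ge hΛ T k i
  · have g : ¬ Λ ^ 2 ≤ (T.filter fun v => i ≤ k v).card := fun hh => g' (hh.trans hcard)
    by_cases w : ∀ v ∈ T, i ≤ k v
    · have w' : ∀ v ∈ T, i ≤ k' v := fun v hv => (w v hv).trans (h v)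
      unfold ridge
      rw [if_neg g', if_neg g, if_pos w, if_pos w']
      refine max_le_max le_rfl ?_
      apply div_le_div_of_nonneg_left (by linarith) (by positivity)
      apply pow_le_pow_right₀ h2
      have := kmin_mono T h
      omega
    · have e : ridge Λ R0 T k i = Λ := by unfold ridge; rw [if_neg g, if_neg w]
      rw [e]
      exact ridge_le hΛ hR T k' i

theorem log_le_sqrt' {s : ℝ} (hs : 0 ≤ s) : Real.log (1 + s ^ 2) ≤ s := by
  have h1 : 1 + s ^ 2 ≤ Real.exp s := by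
    have h2 : Real.exp s = Real.exp (s / 2) * Real.exp (s / 2) := by
      rw [← Real.exp_add]; congr 1; ring
    have h3 := Real.quadratic_le_exp_of_nonneg (show 0 ≤ s / 2 by positivity)
    have h4 : 0 ≤ 1 + s / 2 + (s / 2) ^ 2 / 2 := by positivity
    rw [h2]
    have h5 : (1 + s / 2 + (s / 2) ^ 2 / 2) * (1 + s / 2 + (s / 2) ^ 2 / 2)
        ≤ Real.exp (s / 2) * Real.exp (s / 2) := mul_le_mul h3 h3 h4 (Real.exp_pos _).le
    refine le_trans ?_ h5
    nlinarith [mul_nonneg hs (sq_nonneg (s - 2)), sq_nonneg (s ^ 2)]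
  calc Real.log (1 + s ^ 2) ≤ Real.log (Real.exp s) :=
        Real.log_le_log (by positivity) h1
    _ = s := Real.log_exp s

theorem log_giant {Λ m : ℕ} (hΛ : 1 ≤ Λ) (hm : Λ ^ 2 ≤ m) : Real.log (1 + m) ≤ m / Λ := by
  have h1 : (1 : ℝ) ≤ Λ := by exact_mod_cast hΛ
  have h2 : ((Λ : ℝ)) ^ 2 ≤ m := by exact_mod_cast hm
  have h3 : (0 : ℝ) ≤ m := Nat.cast_nonneg m
  have h4 := log_le_sqrt' (Real.sqrt_nonneg (m : ℝ))
  rw [Real.sq_sqrt h3] at h4
  refine h4.trans ?_
  rw [le_div_iff₀ (by linarith)]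
  have h5 : (Λ : ℝ) ≤ √m := Real.le_sqrt_of_sq_le h2
  calc √(m : ℝ) * Λ ≤ √m * √m := mul_le_mul_of_nonneg_left h5 (Real.sqrt_nonneg _)
    _ = m := Real.mul_self_sqrt h3

/-- the logarithm of one row -/
theorem row_log {Λ R0 : ℕ} (hΛ : 1 ≤ Λ) (hR : 1 ≤ R0) (T : Finset V) (x : V → ℕ) (i : ℕ) :
    Real.log (1 + ((T.filter fun v => i ≤ x v).card : ℝ) / ridge Λ R0 T x i)
      ≤ (∑ v ∈ T.filter (fun v => i ≤ x v), (R0 : ℝ) ^ (x v - i)) / Λ := by
  have h1 : (1 : ℝ) ≤ Λ := by exact_mod_cast hΛ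
  have h2 : (1 : ℝ) ≤ R0 := by exact_mod_cast hR
  have hΛ0 : (0 : ℝ) < Λ := by linarith
  have hR0 : (0 : ℝ) < R0 := by linarith
  set m := (T.filter fun v => i ≤ x v).card with hm
  have hsum : (m : ℝ) ≤ ∑ v ∈ T.filter (fun v => i ≤ x v), (R0 : ℝ) ^ (x v - i) := by
    have : (m : ℝ) = ∑ v ∈ T.filter (fun v => i ≤ x v), (1 : ℝ) := by simp [hm]
    rw [this]
    exact Finset.sum_le_sum fun v _ => one_le_pow₀ h2
  have hlog : ∀ y : ℝ, 0 ≤ y → Real.log (1 + y) ≤ y := by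
    intro y hy
    have := Real.log_le_sub_one_of_pos (show 0 < 1 + y by linarith)
    linarith
  by_cases g : Λ ^ 2 ≤ m
  · have e : ridge Λ R0 T x i = 1 := by unfold ridge; rw [if_pos g]
    rw [e, div_one]
    refine (log_giant hΛ g).trans ?_
    exact div_le_div_of_nonneg_right hsum hΛ0.le
  · by_cases w : ∀ v ∈ T, i ≤ x v
    · have e : ridge Λ R0 T x i = max 1 ((Λ : ℝ) / (R0 : ℝ) ^ (kmin T x - i)) := by
        unfold ridge; rw [if_neg g, if_pos w]
      have e2 : T.filter (fun v => i ≤ x v) = T := Finset.filter_true_of_mem w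
      have h3 : (Λ : ℝ) / (R0 : ℝ) ^ (kmin T x - i) ≤ ridge Λ R0 T x i := by
        rw [e]; exact le_max_right _ _
      have h4 : 0 < (Λ : ℝ) / (R0 : ℝ) ^ (kmin T x - i) := by positivity
      have h5 : 0 < ridge Λ R0 T x i := lt_of_lt_of_le h4 h3
      refine (hlog _ (by positivity)).trans ?_
      have h6 : (m : ℝ) / ridge Λ R0 T x i ≤ m / ((Λ : ℝ) / (R0 : ℝ) ^ (kmin T x - i)) :=
        div_le_div_of_nonneg_left (Nat.cast_nonneg m) h4 h3
      refine h6.trans ?_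
      rw [div_div_eq_mul_div]
      apply div_le_div_of_nonneg_right _ hΛ0.le
      have e3 : (m : ℝ) * (R0 : ℝ) ^ (kmin T x - i)
          = ∑ v ∈ T.filter (fun v => i ≤ x v), (R0 : ℝ) ^ (kmin T x - i) := by
        rw [Finset.sum_const, nsmul_eq_mul, hm]
      rw [e3]
      refine Finset.sum_le_sum fun v hv => ?_
      apply pow_le_pow_right₀ h2
      have := kmin_le (k := x) (Finset.mem_filter.1 hv).1
      omega
    · have e : ridge Λ R0 T x i = Λ := by unfold ridge; rw [if_neg g, if_neg w]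
      rw [e]
      refine (hlog _ (by positivity)).trans ?_
      exact div_le_div_of_nonneg_right hsum hΛ0.le

/-- log det of a level -/
noncomputable def Fi (S : J → Finset V) (Λ R0 : ℕ) (x : V → ℕ) (i : ℕ) : ℝ :=
  FF (inc S) (fun j => ridge Λ R0 (S j) x i) (lvl x i)

theorem sum_swap_t (S : J → Finset V) {t : ℕ}
    (ht : ∀ v, (Finset.univ.filter fun j => v ∈ S j).card ≤ t) (f : V → ℝ) (hf : ∀ v, 0 ≤ f v) :
    ∑ j, ∑ v ∈ S j, f v ≤ t * ∑ v, f v := by
  have h1 : ∑ j, ∑ v ∈ S j, f v = ∑ v, ((Finset.univ.filter fun j => v ∈ S j).card : ℝ) * f v := by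
    have e1 : ∀ j, ∑ v ∈ S j, f v = ∑ v, if v ∈ S j then f v else 0 := by
      intro j
      rw [← Finset.sum_filter]
      congr 1
      ext v; simp
    simp only [e1]
    rw [Finset.sum_comm]
    refine Finset.sum_congr rfl fun v _ => ?_
    rw [← Finset.sum_filter, Finset.sum_const, nsmul_eq_mul]
  rw [h1, Finset.mul_sum]
  refine Finset.sum_le_sum fun v _ => ?_
  apply mul_le_mul_of_nonneg_right _ (hf v)
  exact_mod_cast ht v

theorem Fi_le (hS2c : S2c) (S : J → Finset V) {t Λ R0 : ℕ}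
    (ht : ∀ v, (Finset.univ.filter fun j => v ∈ S j).card ≤ t) (hΛ : 1 ≤ Λ) (hR : 1 ≤ R0)
    (x : V → ℕ) (i : ℕ) :
    Fi S Λ R0 x i ≤ t / Λ * ∑ v, if i ≤ x v then (R0 : ℝ) ^ (x v - i) else 0 := by
  have h1 : (1 : ℝ) ≤ Λ := by exact_mod_cast hΛ
  have hpos : ∀ j, 0 < ridge Λ R0 (S j) x i := fun j =>
    lt_of_lt_of_le zero_lt_one (ridge_ge hΛ (S j) x i)
  refine (hS2c V J (inc S) (fun j => ridge Λ R0 (S j) x i) (lvl x i) hpos).trans ?_
  have h2 : ∀ j, Real.log (1 + (∑ v ∈ lvl x i, inc S v j ^ 2) / ridge Λ R0 (S j) x i)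
      ≤ (∑ v ∈ S j, if i ≤ x v then (R0 : ℝ) ^ (x v - i) else 0) / Λ := by
    intro j
    have e1 : ∑ v ∈ lvl x i, inc S v j ^ 2 = (((S j).filter fun v => i ≤ x v).card : ℝ) := by
      unfold inc lvl
      have e2 : ∀ v, (if v ∈ S j then (1 : ℝ) else 0) ^ 2 = if v ∈ S j then 1 else 0 := fun v => by
        split_ifs <;> norm_num
      simp only [e2]
      rw [← Finset.sum_filter, Finset.filter_filter, Finset.sum_const, nsmul_eq_mul, mul_one]
      congr 2
      ext v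
      simp [and_comm]
    rw [e1]
    have h3 := row_log hΛ hR (S j) x i
    rw [Finset.sum_filter] at h3
    exact h3
  refine (Finset.sum_le_sum fun j _ => h2 j).trans ?_
  rw [← Finset.sum_div]
  have h4 := sum_swap_t S ht (fun v => if i ≤ x v then (R0 : ℝ) ^ (x v - i) else 0)
    (fun v => by split_ifs <;> positivity)
  calc (∑ j, ∑ v ∈ S j, if i ≤ x v then (R0 : ℝ) ^ (x v - i) else 0) / (Λ : ℝ)
      ≤ (t * ∑ v, if i ≤ x v then (R0 : ℝ) ^ (x v - i) else 0) / Λ :=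
        div_le_div_of_nonneg_right h4 (by linarith)
    _ = _ := by ring

theorem geo {r : ℝ} (hr : 2 ≤ r) (n : ℕ) : ∑ i ∈ Finset.range (n + 1), r ^ i ≤ 2 * r ^ n := by
  induction n with
  | zero => norm_num
  | succ n ih =>
    rw [Finset.sum_range_succ]
    have h1 : 2 * r ^ n ≤ r ^ (n + 1) := by
      rw [pow_succ]
      have : 0 ≤ r ^ n := by positivity
      nlinarith
    linarith

/-- the key sum (*) -/
theorem key_sum (hS2c : S2c) (S : J → Finset V) {t Λ R0 : ℕ}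
    (ht : ∀ v, (Finset.univ.filter fun j => v ∈ S j).card ≤ t) (hΛ : 1 ≤ Λ) (hR : 2 ≤ R0)
    (x : V → ℕ) (Kc : ℕ) :
    ∑ i ∈ Finset.Icc 2 Kc, ((R0 : ℝ) ^ 2) ^ i * Fi S Λ R0 x i
      ≤ 2 * (t / Λ) * XX ((R0 : ℝ) ^ 2) x := by
  have h1 : (1 : ℝ) ≤ Λ := by exact_mod_cast hΛ
  have h2 : (2 : ℝ) ≤ R0 := by exact_mod_cast hR
  have h0 : (0 : ℝ) ≤ t / Λ := by positivity
  calc ∑ i ∈ Finset.Icc 2 Kc, ((R0 : ℝ) ^ 2) ^ i * Fi S Λ R0 x i
      ≤ ∑ i ∈ Finset.Icc 2 Kc, ((R0 : ℝ) ^ 2) ^ i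
          * (t / Λ * ∑ v, if i ≤ x v then (R0 : ℝ) ^ (x v - i) else 0) := by
        refine Finset.sum_le_sum fun i _ => ?_
        exact mul_le_mul_of_nonneg_left (Fi_le hS2c S ht hΛ (by omega) x i) (by positivity)
    _ = t / Λ * ∑ v, ∑ i ∈ Finset.Icc 2 Kc,
          (if i ≤ x v then ((R0 : ℝ) ^ 2) ^ i * (R0 : ℝ) ^ (x v - i) else 0) := by
        rw [Finset.sum_comm, Finset.mul_sum]
        refine Finset.sum_congr rfl fun i _ => ?_
        rw [Finset.mul_sum, Finset.mul_sum, Finset.mul_sum]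
        refine Finset.sum_congr rfl fun v _ => ?_
        split_ifs
        · ring
        · ring
    _ ≤ t / Λ * ∑ v, 2 * (if 1 ≤ x v then ((R0 : ℝ) ^ 2) ^ x v else 0) := by
        refine mul_le_mul_of_nonneg_left (Finset.sum_le_sum fun v _ => ?_) h0
        have e1 : ∀ i ∈ Finset.Icc 2 Kc,
            (if i ≤ x v then ((R0 : ℝ) ^ 2) ^ i * (R0 : ℝ) ^ (x v - i) else 0)
            = if i ≤ x v then (R0 : ℝ) ^ x v * (R0 : ℝ) ^ i else 0 := by
          intro i _
          by_cases h : i ≤ x v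
          · rw [if_pos h, if_pos h, ← pow_mul, ← pow_add, ← pow_add]
            congr 1
            omega
          · rw [if_neg h, if_neg h]
        rw [Finset.sum_congr rfl e1, ← Finset.sum_filter, ← Finset.mul_sum]
        by_cases hx : 1 ≤ x v
        · rw [if_pos hx]
          have h3 : ∑ i ∈ (Finset.Icc 2 Kc).filter (fun i => i ≤ x v), (R0 : ℝ) ^ i
              ≤ ∑ i ∈ Finset.range (x v + 1), (R0 : ℝ) ^ i := by
            apply Finset.sum_le_sum_of_subset_of_nonneg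
            · intro i hi
              rw [Finset.mem_filter] at hi
              rw [Finset.mem_range]
              omega
            · intro i _ _; positivity
          have h4 := geo h2 (x v)
          calc (R0 : ℝ) ^ x v * ∑ i ∈ (Finset.Icc 2 Kc).filter (fun i => i ≤ x v), (R0 : ℝ) ^ i
              ≤ (R0 : ℝ) ^ x v * (2 * (R0 : ℝ) ^ x v) :=
                mul_le_mul_of_nonneg_left (h3.trans h4) (by positivity)
            _ = 2 * ((R0 : ℝ) ^ 2) ^ x v := by rw [← pow_mul]; ring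
        · rw [if_neg hx]
          have h3 : (Finset.Icc 2 Kc).filter (fun i => i ≤ x v) = ∅ := by
            apply Finset.filter_eq_empty_iff.2
            intro i hi
            have := (Finset.mem_Icc.1 hi).1
            omega
          rw [h3]; simp
    _ = 2 * (t / Λ) * XX ((R0 : ℝ) ^ 2) x := by
        unfold XX
        rw [← Finset.mul_sum]
        ring

/-- the sum over the combinatorial moves -/
theorem z_sum (S : J → Finset V) {t sg : ℕ}
    (ht : ∀ v, (Finset.univ.filter fun j => v ∈ S j).card ≤ t) {R : ℝ} (hR : 1 < R)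
    (x : V → ℕ) (Kc : ℕ) (Z : J → ℕ → Finset V) (hZ2 : ∀ j i, (Z j i).card ≤ sg)
    (hZ3 : ∀ j i, (Z j i).Nonempty → ∃ w ∈ S j, i + 2 ≤ x w) :
    ((R - 1) * R) * ∑ j, ∑ i ∈ Finset.Icc 1 Kc, R ^ i * ((Z j i).card : ℝ) ≤ sg * t * XX R x := by
  have hR0 : 0 < R := by linarith
  have h1 : ∑ j, ∑ i ∈ Finset.Icc 1 Kc, R ^ i * ((Z j i).card : ℝ)
      ≤ sg * ∑ j, ∑ v ∈ S j, ∑ i ∈ Finset.Icc 1 Kc, if i + 2 ≤ x v then R ^ i else 0 := by
    rw [Finset.mul_sum]
    refine Finset.sum_le_sum fun j _ => ?_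
    rw [Finset.sum_comm, Finset.mul_sum]
    refine Finset.sum_le_sum fun i _ => ?_
    rcases (Z j i).eq_empty_or_nonempty with h | h
    · rw [h, Finset.card_empty, Nat.cast_zero, mul_zero]
      have : ∀ v ∈ S j, 0 ≤ (if i + 2 ≤ x v then R ^ i else 0) := fun v _ => by
        split_ifs <;> positivity
      exact mul_nonneg (Nat.cast_nonneg _) (Finset.sum_nonneg this)
    · obtain ⟨w, hw, hw2⟩ := hZ3 j i h
      have h2 : R ^ i ≤ ∑ v ∈ S j, if i + 2 ≤ x v then R ^ i else 0 := by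
        have := Finset.single_le_sum (f := fun v => if i + 2 ≤ x v then R ^ i else 0)
          (fun v _ => by split_ifs <;> positivity) hw
        simp only [if_pos hw2] at this
        exact this
      have h3 : ((Z j i).card : ℝ) ≤ sg := by exact_mod_cast hZ2 j i
      calc R ^ i * ((Z j i).card : ℝ) ≤ (∑ v ∈ S j, if i + 2 ≤ x v then R ^ i else 0) * sg :=
            mul_le_mul h2 h3 (Nat.cast_nonneg _)
              (Finset.sum_nonneg fun v _ => by split_ifs <;> positivity)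
        _ = _ := by ring
  have h2 := sum_swap_t S ht (fun v => ∑ i ∈ Finset.Icc 1 Kc, if i + 2 ≤ x v then R ^ i else 0)
    (fun v => Finset.sum_nonneg fun i _ => by split_ifs <;> positivity)
  have h3 : ∀ v, ((R - 1) * R) * (∑ i ∈ Finset.Icc 1 Kc, if i + 2 ≤ x v then R ^ i else 0)
      ≤ if 1 ≤ x v then R ^ x v else 0 := by
    intro v
    rw [← Finset.sum_filter]
    by_cases hx : 1 ≤ x v
    · rw [if_pos hx]
      have h4 : ∑ i ∈ (Finset.Icc 1 Kc).filter (fun i => i + 2 ≤ x v), R ^ i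
          ≤ ∑ i ∈ Finset.range (x v - 1), R ^ i := by
        apply Finset.sum_le_sum_of_subset_of_nonneg
        · intro i hi
          rw [Finset.mem_filter] at hi
          rw [Finset.mem_range]
          omega
        · intro i _ _; positivity
      have h5 : (∑ i ∈ Finset.range (x v - 1), R ^ i) * (R - 1) = R ^ (x v - 1) - 1 :=
        geom_sum_mul R (x v - 1)
      have h6 : R ^ (x v - 1) * R = R ^ x v := by
        rw [← pow_succ]; congr 1; omega
      have h7 : (R - 1) * ∑ i ∈ (Finset.Icc 1 Kc).filter (fun i => i + 2 ≤ x v), R ^ i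
          ≤ R ^ (x v - 1) := by
        have := mul_le_mul_of_nonneg_left h4 (by linarith : 0 ≤ R - 1)
        linarith
      calc ((R - 1) * R) * (∑ i ∈ (Finset.Icc 1 Kc).filter (fun i => i + 2 ≤ x v), R ^ i)
          = ((R - 1) * ∑ i ∈ (Finset.Icc 1 Kc).filter (fun i => i + 2 ≤ x v), R ^ i) * R := by ring
        _ ≤ R ^ (x v - 1) * R := mul_le_mul_of_nonneg_right h7 hR0.le
        _ = R ^ x v := h6
    · rw [if_neg hx]
      have h4 : (Finset.Icc 1 Kc).filter (fun i => i + 2 ≤ x v) = ∅ := by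
        apply Finset.filter_eq_empty_iff.2
        intro i _
        omega
      rw [h4]; simp
  have hRR : 0 ≤ (R - 1) * R := mul_nonneg (by linarith) hR0.le
  calc ((R - 1) * R) * ∑ j, ∑ i ∈ Finset.Icc 1 Kc, R ^ i * ((Z j i).card : ℝ)
      ≤ ((R - 1) * R) * (sg * (t * ∑ v, ∑ i ∈ Finset.Icc 1 Kc, if i + 2 ≤ x v then R ^ i else 0)) := by
        apply mul_le_mul_of_nonneg_left _ hRR
        exact h1.trans (mul_le_mul_of_nonneg_left h2 (Nat.cast_nonneg _))
    _ = sg * t * ∑ v, ((R - 1) * R) * (∑ i ∈ Finset.Icc 1 Kc, if i + 2 ≤ x v then R ^ i else 0) := by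
        rw [← Finset.mul_sum]; ring
    _ ≤ sg * t * XX R x := by
        apply mul_le_mul_of_nonneg_left _ (by positivity)
        exact Finset.sum_le_sum fun v _ => h3 v

end Pool.Agent.Helper92.BO
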