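import Pool.Agent.Helper92.BO.S3b

set_option linter.unusedSectionVars false

/-!
The invariant of the raising procedure (module S3 of Theorem O, Beck-Fiala).
-/

namespace Pool.Agent.Helper92.BO

open Matrix Pool.Agent.Helper50.BO

variable {V J : Type} [Fintype V] [Fintype J] [DecidableEq V] [DecidableEq J]

/-- coin probability -/
noncomputable def pp (R0 : ℕ) : ℝ := 1 / (4 * (R0 : ℝ) ^ 2)

/-- cost factor -/
noncomputable def cc (R0 : ℕ) : ℝ := 4 / 3 * (1 - pp R0)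

/-- number of levels -/
def KK (V : Type) [Fintype V] : ℕ := Fintype.card V + 2

/-- weight of the trace potential -/
noncomputable def gg (V J : Type) [Fintype V] [Fintype J] (R0 : ℕ) : ℝ :=
  (R0 : ℝ) ^ 2 * Fintype.card V / (KK V * Fintype.card J)

/-- gain of a leverage move -/
noncomputable def ee (t Λ : ℕ) : ℝ := Real.log (1 + 32 * t / Λ)

/-- size bound of the combinatorial moves -/
def sgz (Λ R0 Lh : ℕ) : ℕ := 17 * R0 ^ 2 * (Lh + Λ ^ 2)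

/-- number of landed elements -/
noncomputable def cnt (x : V → ℕ) : ℝ := ((Finset.univ.filter fun v => 1 ≤ x v).card : ℝ)

/-- weighted sum of the log dets -/
noncomputable def SF (S : J → Finset V) (Λ R0 : ℕ) (x : V → ℕ) : ℝ :=
  ∑ i ∈ Finset.Icc 2 (KK V), ((R0 : ℝ) ^ 2) ^ i * Fi S Λ R0 x i

/-- weighted sum of the combinatorial moves -/
noncomputable def SZ (R0 : ℕ) (Z : J → ℕ → Finset V) : ℝ :=
  ∑ j, ∑ i ∈ Finset.Icc 1 (KK V), ((R0 : ℝ) ^ 2) ^ i * ((Z j i).card : ℝ)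

/-- right side of the invariant -/
noncomputable def RHS (S : J → Finset V) (t Λ R0 : ℕ) (x : V → ℕ) (Z : J → ℕ → Finset V) : ℝ :=
  (R0 : ℝ) ^ 2 * Fintype.card V
    + cc R0 * ((R0 : ℝ) ^ 2 * cnt x + SF S Λ R0 x / ee t Λ + SZ R0 Z)

/-- invariant of the raising procedure -/
structure Inv (S : J → Finset V) (t Λ R0 Lh q : ℕ) (x : V → ℕ) (Z : J → ℕ → Finset V) : Prop where
  z1 : ∀ j i, ∀ u ∈ Z j i, u ∈ S j ∧ i ≤ x u
  z2 : ∀ j i, (Z j i).card ≤ sgz Λ R0 Lh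
  z3 : ∀ j i, (Z j i).Nonempty → ∃ w ∈ S j, i + 2 ≤ x w
  hM : ∀ m ∈ Finset.Icc 1 (KK V), (Mx S Lh (pp R0) x m).PosDef
  hP : XX ((R0 : ℝ) ^ 2) x + gg V J R0 * ST S Lh (pp R0) q (KK V) x ≤ RHS S t Λ R0 x Z

/-- hypotheses on the parameters -/
structure Hyp (S : J → Finset V) (t Λ R0 Lh q : ℕ) : Prop where
  ht1 : 1 ≤ t
  hV : Nonempty V
  hJ : Nonempty J
  ht : ∀ v, (Finset.univ.filter fun j => v ∈ S j).card ≤ t
  hΛ : 32 * t ≤ Λ
  hR : 2 ≤ R0
  hq : 1 ≤ q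
  hL : 16 * q * t ≤ Lh
  hq2 : 3 * (Fintype.card V + 2) * Fintype.card J < 2 ^ q
  hR2 : 160 * t * (Lh + Λ ^ 2) ≤ R0 ^ 2

section basic

variable {S : J → Finset V} {t Λ R0 Lh q : ℕ} (H : Hyp S t Λ R0 Lh q)
include H

theorem Hyp.R4 : (4 : ℝ) ≤ (R0 : ℝ) ^ 2 := by
  have h : (2 : ℝ) ≤ R0 := by exact_mod_cast H.hR
  nlinarith

theorem Hyp.Λ1 : 1 ≤ Λ := by have := H.hΛ; have := H.ht1; omega

theorem Hyp.Lpos : (0 : ℝ) < Lh := by
  have h1 := H.hL
  have h2 := H.hq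
  have h3 := H.ht1
  have : 0 < 16 * q * t := by positivity
  exact_mod_cast lt_of_lt_of_le this h1

theorem Hyp.p_pos : 0 < pp R0 := by
  have := H.R4
  unfold pp; positivity

theorem Hyp.p_le : pp R0 ≤ 1 / 16 := by
  have := H.R4
  unfold pp
  apply one_div_le_one_div_of_le (by norm_num) (by linarith)

theorem Hyp.pR : pp R0 * (R0 : ℝ) ^ 2 = 1 / 4 := by
  have := H.R4
  have h0 : (R0 : ℝ) ^ 2 ≠ 0 := by linarith
  unfold pp
  rw [one_div, mul_inv, mul_assoc, inv_mul_cancel₀ h0]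
  norm_num

theorem Hyp.cc1 : 1 ≤ cc R0 := by
  have := H.p_le
  unfold cc; linarith

theorem Hyp.cc2 : cc R0 ≤ 4 / 3 := by
  have := H.p_pos
  unfold cc; linarith

theorem Hyp.coin : (1 - pp R0) + pp R0 * (R0 : ℝ) ^ 2 * cc R0 ≤ cc R0 := by
  rw [H.pR]
  unfold cc; linarith

theorem Hyp.n1 : (1 : ℝ) ≤ Fintype.card V := by
  have := H.hV
  exact_mod_cast Fintype.card_pos (α := V)

theorem Hyp.d1 : (1 : ℝ) ≤ Fintype.card J := by
  have := H.hJ
  exact_mod_cast Fintype.card_pos (α := J)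

theorem Hyp.gg_pos : 0 < gg V J R0 := by
  have h1 := H.n1
  have h2 := H.d1
  have h3 := H.R4
  have h4 : (0 : ℝ) < KK V := by unfold KK; positivity
  unfold gg
  apply div_pos <;> apply mul_pos <;> linarith

theorem Hyp.gg_mul : gg V J R0 * (KK V * Fintype.card J) = (R0 : ℝ) ^ 2 * Fintype.card V := by
  have h2 := H.d1
  have h4 : (0 : ℝ) < KK V := by unfold KK; positivity
  unfold gg
  rw [div_mul_cancel₀]
  exact (mul_pos h4 (by linarith)).ne'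

theorem Hyp.ee_ge : 16 * ((t : ℝ) / Λ) ≤ ee t Λ := by
  have h1 : (1 : ℝ) ≤ t := by exact_mod_cast H.ht1
  have h2 : (32 : ℝ) * t ≤ Λ := by exact_mod_cast H.hΛ
  have h3 : (0 : ℝ) < Λ := by linarith
  set y : ℝ := 32 * t / Λ with hy
  have hy0 : 0 ≤ y := by positivity
  have hy1 : y ≤ 1 := by rw [hy, div_le_one h3]; exact h2
  have h4 := Real.one_sub_inv_le_log_of_pos (show 0 < 1 + y by linarith)
  have h5 : 1 - (1 + y)⁻¹ = y / (1 + y) := by field_simp; ring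
  rw [h5] at h4
  have h6 : y / 2 ≤ y / (1 + y) := div_le_div_of_nonneg_left hy0 (by linarith) (by linarith)
  have h7 : 16 * ((t : ℝ) / Λ) = y / 2 := by rw [hy]; ring
  rw [h7]
  exact h6.trans h4

theorem Hyp.tΛ_pos : 0 < (t : ℝ) / Λ := by
  have h1 : (1 : ℝ) ≤ t := by exact_mod_cast H.ht1
  have h2 : (32 : ℝ) * t ≤ Λ := by exact_mod_cast H.hΛ
  have h3 : (0 : ℝ) < Λ := by linarith
  positivity

theorem Hyp.ee_pos : 0 < ee t Λ := lt_of_lt_of_le (by have := H.tΛ_pos; positivity) H.ee_ge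

end basic

theorem XX_nonneg {R : ℝ} (hR : 0 ≤ R) (x : V → ℕ) : 0 ≤ XX R x := by
  unfold XX
  exact Finset.sum_nonneg fun v _ => by split_ifs <;> positivity

theorem TP_nonneg {M : Matrix J J ℝ} (h : M.PosDef) (q : ℕ) : 0 ≤ TP M q := by
  unfold TP
  exact (h.inv.posSemidef.pow q).trace_nonneg

theorem cnt_le (x : V → ℕ) : cnt x ≤ Fintype.card V := by
  unfold cnt
  have := Finset.card_filter_le (Finset.univ : Finset V) (fun v => 1 ≤ x v)
  rw [Finset.card_univ] at this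
  exact_mod_cast this

section bounds

variable {S : J → Finset V} {t Λ R0 Lh q : ℕ} (H : Hyp S t Λ R0 Lh q) (hS2c : S2c)
  {x : V → ℕ} {Z : J → ℕ → Finset V} (I : Inv S t Λ R0 Lh q x Z)
include H I

theorem sz_le : SZ R0 Z ≤ XX ((R0 : ℝ) ^ 2) x / 8 := by
  have h4 := H.R4
  set R : ℝ := (R0 : ℝ) ^ 2 with hR
  have h1 := z_sum S H.ht (R := R) (by linarith) x (KK V) Z I.z2 I.z3
  have h2 : (160 : ℝ) * t * (Lh + (Λ : ℝ) ^ 2) ≤ R := by rw [hR]; exact_mod_cast H.hR2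
  have h3 : (sgz Λ R0 Lh : ℝ) = 17 * R * (Lh + (Λ : ℝ) ^ 2) := by
    unfold sgz; push_cast; ring
  have ht1 : (1 : ℝ) ≤ t := by exact_mod_cast H.ht1
  have hΛ1 : (1 : ℝ) ≤ Λ := by exact_mod_cast H.Λ1
  have hLp := H.Lpos
  have h5 : 1 ≤ (t : ℝ) * (Lh + (Λ : ℝ) ^ 2) := by nlinarith
  have hX := XX_nonneg (by linarith : (0 : ℝ) ≤ R) x
  have hRR : 0 < (R - 1) * R := mul_pos (by linarith) (by linarith)
  rw [h3] at h1
  have h6 : 17 * R * (Lh + (Λ : ℝ) ^ 2) * t * XX R x ≤ ((R - 1) * R) * (XX R x / 8) := by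
    have h7 : 17 * (t * (Lh + (Λ : ℝ) ^ 2)) ≤ (R - 1) / 8 := by nlinarith
    have h8 := mul_le_mul_of_nonneg_right h7 (mul_nonneg (by linarith : (0 : ℝ) ≤ R) hX)
    calc 17 * R * (Lh + (Λ : ℝ) ^ 2) * t * XX R x
        = 17 * (t * (Lh + (Λ : ℝ) ^ 2)) * (R * XX R x) := by ring
      _ ≤ (R - 1) / 8 * (R * XX R x) := h8
      _ = _ := by ring
  have h9 := h1.trans h6
  exact le_of_mul_le_mul_left h9 hRR

include hS2c

theorem sf_le : SF S Λ R0 x / ee t Λ ≤ XX ((R0 : ℝ) ^ 2) x / 8 := by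
  have h1 := key_sum hS2c S H.ht H.Λ1 H.hR x (KK V)
  have h2 := H.ee_ge
  have h3 := H.ee_pos
  have h4 := H.tΛ_pos
  have hX := XX_nonneg (by have := H.R4; linarith : (0 : ℝ) ≤ (R0 : ℝ) ^ 2) x
  rw [div_le_iff₀ h3]
  unfold SF
  refine h1.trans ?_
  have h5 := mul_le_mul_of_nonneg_left h2 (show 0 ≤ XX ((R0 : ℝ) ^ 2) x / 8 by positivity)
  calc 2 * ((t : ℝ) / Λ) * XX ((R0 : ℝ) ^ 2) x
      = XX ((R0 : ℝ) ^ 2) x / 8 * (16 * ((t : ℝ) / Λ)) := by ring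
    _ ≤ _ := h5

theorem main_bound : 2 / 3 * XX ((R0 : ℝ) ^ 2) x + gg V J R0 * ST S Lh (pp R0) q (KK V) x
    ≤ 7 / 3 * ((R0 : ℝ) ^ 2 * Fintype.card V) := by
  have h1 := I.hP
  have h2 := sz_le H I
  have h3 := sf_le H hS2c I
  have h4 := cnt_le x
  have hR := H.R4
  have hn := H.n1
  have hc1 := H.cc1
  have hc2 := H.cc2
  have hX := XX_nonneg (by linarith : (0 : ℝ) ≤ (R0 : ℝ) ^ 2) x
  unfold RHS at h1
  have h5 : (R0 : ℝ) ^ 2 * cnt x + SF S Λ R0 x / ee t Λ + SZ R0 Z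
      ≤ (R0 : ℝ) ^ 2 * Fintype.card V + XX ((R0 : ℝ) ^ 2) x / 4 := by
    have := mul_le_mul_of_nonneg_left h4 (by linarith : (0 : ℝ) ≤ (R0 : ℝ) ^ 2)
    linarith
  have h6 := mul_le_mul_of_nonneg_left h5 (by linarith : 0 ≤ cc R0)
  have h7 : 0 ≤ (R0 : ℝ) ^ 2 * Fintype.card V + XX ((R0 : ℝ) ^ 2) x / 4 := by positivity
  have h8 := mul_le_mul_of_nonneg_right hc2 h7
  linarith

theorem xx_bound : XX ((R0 : ℝ) ^ 2) x ≤ 7 / 2 * ((R0 : ℝ) ^ 2 * Fintype.card V) := by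
  have h1 := main_bound H hS2c I
  have h2 : 0 ≤ gg V J R0 * ST S Lh (pp R0) q (KK V) x := by
    refine mul_nonneg H.gg_pos.le ?_
    unfold ST
    exact Finset.sum_nonneg fun m hm => mul_nonneg (pow_nonneg H.Lpos.le _)
      (TP_nonneg (I.hM m hm) q)
  linarith

theorem pow_bound {v : V} (hv : 1 ≤ x v) :
    ((R0 : ℝ) ^ 2) ^ (x v - 1) ≤ 7 / 2 * Fintype.card V := by
  have h1 := xx_bound H hS2c I
  have hR := H.R4
  have h2 : ((R0 : ℝ) ^ 2) ^ x v ≤ XX ((R0 : ℝ) ^ 2) x := by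
    unfold XX
    have := Finset.single_le_sum (f := fun v => if 1 ≤ x v then ((R0 : ℝ) ^ 2) ^ x v else 0)
      (fun v _ => by split_ifs <;> positivity) (Finset.mem_univ v)
    simp only [if_pos hv] at this
    exact this
  have h3 : ((R0 : ℝ) ^ 2) ^ x v = (R0 : ℝ) ^ 2 * ((R0 : ℝ) ^ 2) ^ (x v - 1) := by
    rw [← pow_succ']; congr 1; omega
  rw [h3] at h2
  have h4 := h2.trans h1
  have h5 : (R0 : ℝ) ^ 2 * ((R0 : ℝ) ^ 2) ^ (x v - 1)
      ≤ (R0 : ℝ) ^ 2 * (7 / 2 * Fintype.card V) := by linarith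
  exact le_of_mul_le_mul_left h5 (by linarith)

theorem x_bound (v : V) : x v ≤ Fintype.card V + 1 := by
  by_contra hcon
  push Not at hcon
  have hv : 1 ≤ x v := by omega
  have h1 := pow_bound H hS2c I hv
  have hR := H.R4
  have hn := H.n1
  have h2 : (4 : ℝ) ^ (Fintype.card V + 1) ≤ ((R0 : ℝ) ^ 2) ^ (x v - 1) := by
    calc (4 : ℝ) ^ (Fintype.card V + 1) ≤ ((R0 : ℝ) ^ 2) ^ (Fintype.card V + 1) :=
          pow_le_pow_left₀ (by norm_num) hR _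
      _ ≤ _ := pow_le_pow_right₀ (by linarith) (by omega)
  have h3 : (Fintype.card V : ℝ) < 4 ^ Fintype.card V := by
    exact_mod_cast Nat.lt_pow_self (by norm_num : 1 < 4)
  have h4 : (4 : ℝ) ^ (Fintype.card V + 1) = 4 * 4 ^ Fintype.card V := by rw [pow_succ]; ring
  linarith

theorem qf_bound (hS1c : S1c) : ∀ m ∈ Finset.Icc 1 (KK V),
    QF (Mx S Lh (pp R0) x m) ((Lh : ℝ) / 2) := by
  intro m hm
  have h1 := main_bound H hS2c I
  have hR := H.R4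
  have hX := XX_nonneg (by linarith : (0 : ℝ) ≤ (R0 : ℝ) ^ 2) x
  have h2 : gg V J R0 * ST S Lh (pp R0) q (KK V) x
      ≤ gg V J R0 * (7 / 3 * (KK V * Fintype.card J)) := by
    have := H.gg_mul
    have e : gg V J R0 * (7 / 3 * (KK V * Fintype.card J))
        = 7 / 3 * (gg V J R0 * (KK V * Fintype.card J)) := by ring
    rw [e, this]
    linarith
  have h3 := le_of_mul_le_mul_left h2 H.gg_pos
  have h4 : (Lh : ℝ) ^ q * TP (Mx S Lh (pp R0) x m) q ≤ ST S Lh (pp R0) q (KK V) x := by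
    unfold ST
    exact Finset.single_le_sum (f := fun m => (Lh : ℝ) ^ q * TP (Mx S Lh (pp R0) x m) q)
      (fun m hm => mul_nonneg (pow_nonneg H.Lpos.le _) (TP_nonneg (I.hM m hm) q)) hm
  have h5 : (3 : ℝ) * (KK V * Fintype.card J) < 2 ^ q := by
    have := H.hq2
    have h6 : 3 * (KK V * Fintype.card J) < 2 ^ q := by
      unfold KK; rw [← mul_assoc]; exact this
    exact_mod_cast h6
  have hd := H.d1
  have hk : (0 : ℝ) < KK V := by unfold KK; positivity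
  have hkd : 0 < (KK V : ℝ) * Fintype.card J := mul_pos hk (by linarith)
  have h7 : (Lh : ℝ) ^ q * TP (Mx S Lh (pp R0) x m) q < 2 ^ q := by linarith
  have hL := H.Lpos
  refine hS1c J _ q (Lh / 2) (I.hM m hm) H.hq (by positivity) ?_
  have h8 : (1 / ((Lh : ℝ) / 2)) ^ q = 2 ^ q / Lh ^ q := by
    rw [one_div, inv_div, div_pow]
  rw [h8, lt_div_iff₀ (pow_pos hL q)]
  linarith

end bounds

end Pool.Agent.Helper92.BO
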