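import Pool.Agent.Helper92.BO.S3c

set_option linter.unusedSectionVars false

/-!
Moves of the raising procedure and the final state (module S3 of Theorem O, Beck-Fiala).
-/

namespace Pool.Agent.Helper92.BO

open Matrix Pool.Agent.Helper50.BO

variable {V J : Type} [Fintype V] [Fintype J] [DecidableEq V] [DecidableEq J]

theorem cnt_mono {x x' : V → ℕ} (h : ∀ w, x w ≤ x' w) : cnt x ≤ cnt x' := by
  unfold cnt
  have : (Finset.univ.filter fun v => 1 ≤ x v) ⊆ (Finset.univ.filter fun v => 1 ≤ x' v) := by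
    intro v hv
    rw [Finset.mem_filter] at hv ⊢
    exact ⟨hv.1, hv.2.trans (h v)⟩
  exact_mod_cast Finset.card_le_card this

theorem cnt_succ {x x' : V → ℕ} (h : ∀ w, x w ≤ x' w) {v : V} (hv : x v = 0) (hv' : 1 ≤ x' v) :
    cnt x + 1 ≤ cnt x' := by
  unfold cnt
  have : (Finset.univ.filter fun v => 1 ≤ x v) ⊂ (Finset.univ.filter fun v => 1 ≤ x' v) := by
    rw [Finset.ssubset_iff_of_subset]
    · refine ⟨v, ?_, ?_⟩
      · simp [hv']
      · simp [hv]
    · intro v hv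
      rw [Finset.mem_filter] at hv ⊢
      exact ⟨hv.1, hv.2.trans (h v)⟩
  have h2 := Finset.card_lt_card this
  exact_mod_cast h2

section moves

variable {S : J → Finset V} {t Λ R0 Lh q : ℕ} (H : Hyp S t Λ R0 Lh q)
include H

theorem Fi_mono (hS2a : S2a) {x x' : V → ℕ} (h : ∀ w, x w ≤ x' w) (i : ℕ) :
    Fi S Λ R0 x i ≤ Fi S Λ R0 x' i := by
  unfold Fi
  refine hS2a V J (inc S) _ _ _ _ (fun j => ?_) (fun j => ?_) ?_
  · exact lt_of_lt_of_le zero_lt_one (ridge_ge H.Λ1 _ _ _)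
  · exact ridge_mono H.Λ1 (by have := H.hR; omega) (S j) h i
  · intro v hv
    rw [mem_lvl] at hv ⊢
    exact hv.trans (h v)

theorem SF_mono (hS2a : S2a) {x x' : V → ℕ} (h : ∀ w, x w ≤ x' w) :
    SF S Λ R0 x ≤ SF S Λ R0 x' := by
  unfold SF
  refine Finset.sum_le_sum fun i _ => ?_
  exact mul_le_mul_of_nonneg_left (Fi_mono H hS2a h i) (by positivity)

theorem Fi_gain (hS2a : S2a) (hS2b : S2b) {x x' : V → ℕ} (h : ∀ w, x w ≤ x' w) {v : V} {i : ℕ}
    (hv : x v < i) (hv' : i ≤ x' v)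
    (hlv : 32 * (t : ℝ) / Λ ≤ lv (LM S Λ R0 x i) (inc S v)) :
    Fi S Λ R0 x i + ee t Λ ≤ Fi S Λ R0 x' i := by
  have hvU : v ∉ lvl x i := by rw [mem_lvl]; omega
  have hpos : ∀ j, 0 < ridge Λ R0 (S j) x i := fun j =>
    lt_of_lt_of_le zero_lt_one (ridge_ge H.Λ1 _ _ _)
  have h1 := hS2b V J (inc S) (fun j => ridge Λ R0 (S j) x i) (lvl x i) v hpos hvU
  have h2 : FF (inc S) (fun j => ridge Λ R0 (S j) x i) (insert v (lvl x i))
      ≤ Fi S Λ R0 x' i := by
    unfold Fi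
    refine hS2a V J (inc S) _ _ _ _ (fun j => ?_) (fun j => ?_) ?_
    · exact lt_of_lt_of_le zero_lt_one (ridge_ge H.Λ1 _ _ _)
    · exact ridge_mono H.Λ1 (by have := H.hR; omega) (S j) h i
    · intro w hw
      rw [mem_lvl]
      rcases Finset.mem_insert.1 hw with rfl | hw
      · exact hv'
      · exact (mem_lvl.1 hw).trans (h w)
  rw [h1] at h2
  have h3 : ee t Λ ≤ Real.log (1 + lv (Matrix.diagonal (fun j => ridge Λ R0 (S j) x i)
      + Gm (inc S) (lvl x i)) (inc S v)) := by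
    unfold ee
    have h4 := H.tΛ_pos
    have h5 : 0 ≤ 32 * (t : ℝ) / Λ := by
      have : 32 * (t : ℝ) / Λ = 32 * (t / Λ) := by ring
      rw [this]; positivity
    apply Real.log_le_log (by linarith)
    have : lv (Matrix.diagonal (fun j => ridge Λ R0 (S j) x i)
      + Gm (inc S) (lvl x i)) (inc S v) = lv (LM S Λ R0 x i) (inc S v) := rfl
    rw [this]
    linarith
  have h6 : Fi S Λ R0 x i = FF (inc S) (fun j => ridge Λ R0 (S j) x i) (lvl x i) := rfl
  rw [h6]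
  linarith

theorem SF_gain (hS2a : S2a) (hS2b : S2b) {x x' : V → ℕ} (h : ∀ w, x w ≤ x' w) {v : V} {i : ℕ}
    (hi : i ∈ Finset.Icc 2 (KK V)) (hv : x v < i) (hv' : i ≤ x' v)
    (hlv : 32 * (t : ℝ) / Λ ≤ lv (LM S Λ R0 x i) (inc S v)) :
    SF S Λ R0 x + ((R0 : ℝ) ^ 2) ^ i * ee t Λ ≤ SF S Λ R0 x' := by
  unfold SF
  rw [← Finset.sum_erase_add _ _ hi, ← Finset.sum_erase_add (Finset.Icc 2 (KK V))
    (fun i => ((R0 : ℝ) ^ 2) ^ i * Fi S Λ R0 x' i) hi]
  have h1 : ∑ i ∈ (Finset.Icc 2 (KK V)).erase i, ((R0 : ℝ) ^ 2) ^ i * Fi S Λ R0 x i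
      ≤ ∑ i ∈ (Finset.Icc 2 (KK V)).erase i, ((R0 : ℝ) ^ 2) ^ i * Fi S Λ R0 x' i := by
    refine Finset.sum_le_sum fun i _ => ?_
    exact mul_le_mul_of_nonneg_left (Fi_mono H hS2a h i) (by positivity)
  have h2 := mul_le_mul_of_nonneg_left (Fi_gain H hS2a hS2b h hv hv' hlv)
    (show (0 : ℝ) ≤ ((R0 : ℝ) ^ 2) ^ i by positivity)
  rw [mul_add] at h2
  linarith

variable (hS1a : S1a) (hS1b : S1b) (hS1c : S1c) (hS2c : S2c)
include hS1a hS1b hS1c hS2c

theorem move_gen {x : V → ℕ} {Z : J → ℕ → Finset V} (I : Inv S t Λ R0 Lh q x Z) (v : V) (i : ℕ)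
    (hi : 1 ≤ i) (hxi : x v < i) (Z' : J → ℕ → Finset V)
    (hz1 : ∀ x' : V → ℕ, (∀ w, x w ≤ x' w) → i ≤ x' v → ∀ j l, ∀ u ∈ Z' j l, u ∈ S j ∧ l ≤ x' u)
    (hz2 : ∀ j l, (Z' j l).card ≤ sgz Λ R0 Lh)
    (hz3 : ∀ j l, (Z' j l).Nonempty → ∃ w ∈ S j, l + 2 ≤ x w)
    (hgain : ∀ x' : V → ℕ, (∀ w, x w ≤ x' w) → i ≤ x' v →
      RHS S t Λ R0 x Z + cc R0 * ((R0 : ℝ) ^ 2) ^ i ≤ RHS S t Λ R0 x' Z') :
    ∃ (x' : V → ℕ) (Z' : J → ℕ → Finset V), Inv S t Λ R0 Lh q x' Z' ∧ ∑ w, x w < ∑ w, x' w := by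
  have hqf := qf_bound H hS2c I hS1c
  have hR := H.R4
  have hLq : 16 * (q : ℝ) * t ≤ Lh := by exact_mod_cast H.hL
  obtain ⟨i', h1, h2, h3⟩ := landing hS1a hS1b S (L := Lh) (p := pp R0) (R := (R0 : ℝ) ^ 2)
    (cp := cc R0) (γ := gg V J R0) (q := q) (Kc := KK V) (t := t) H.ht H.Lpos hLq H.p_pos
    (by have := H.p_le; linarith) H.hq (by linarith) H.cc1 H.gg_pos.le H.coin x v i hi hxi
    (fun m hm => ⟨I.hM m hm, hqf m hm⟩)
  have hle : ∀ w, x w ≤ Function.update x v i' w := by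
    intro w
    by_cases hw : w = v
    · subst hw; rw [Function.update_self]; omega
    · rw [Function.update_of_ne hw]
  have hiv : i ≤ Function.update x v i' v := by rw [Function.update_self]; exact h1
  refine ⟨Function.update x v i', Z', ⟨hz1 _ hle hiv, hz2, fun j l hl => ?_, h2, ?_⟩, ?_⟩
  · obtain ⟨w, hw, hw2⟩ := hz3 j l hl
    exact ⟨w, hw, hw2.trans (hle w)⟩
  · have h4 := hgain _ hle hiv
    have h5 := I.hP
    linarith
  · apply Finset.sum_lt_sum (fun w _ => hle w)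
    exact ⟨v, Finset.mem_univ v, by rw [Function.update_self]; omega⟩

variable (hS2a : S2a) (hS2b : S2b)
include hS2a

theorem move_land {x : V → ℕ} {Z : J → ℕ → Finset V} (I : Inv S t Λ R0 Lh q x Z) (v : V)
    (hv : x v = 0) :
    ∃ (x' : V → ℕ) (Z' : J → ℕ → Finset V), Inv S t Λ R0 Lh q x' Z' ∧ ∑ w, x w < ∑ w, x' w := by
  refine move_gen H hS1a hS1b hS1c hS2c I v 1 le_rfl (by omega) Z ?_ I.z2 I.z3 ?_
  · intro x' hx' _ j l u hu
    obtain ⟨h1, h2⟩ := I.z1 j l u hu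
    exact ⟨h1, h2.trans (hx' u)⟩
  · intro x' hx' h1
    have h2 := cnt_succ hx' hv h1
    have h3 := div_le_div_of_nonneg_right (SF_mono H hS2a hx') H.ee_pos.le
    have hR := H.R4
    have h4 := mul_le_mul_of_nonneg_left h2 (by linarith : (0 : ℝ) ≤ (R0 : ℝ) ^ 2)
    have hc := H.cc1
    unfold RHS
    rw [pow_one, mul_add] at *
    have h5 : (R0 : ℝ) ^ 2 * cnt x + SF S Λ R0 x / ee t Λ + SZ R0 Z + (R0 : ℝ) ^ 2
        ≤ (R0 : ℝ) ^ 2 * cnt x' + SF S Λ R0 x' / ee t Λ + SZ R0 Z := by linarith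
    have h6 := mul_le_mul_of_nonneg_left h5 (by linarith : 0 ≤ cc R0)
    linarith

include hS2b

theorem move_lev {x : V → ℕ} {Z : J → ℕ → Finset V} (I : Inv S t Λ R0 Lh q x Z) (v : V)
    (hv : 1 ≤ x v) (hlv : 32 * (t : ℝ) / Λ ≤ lv (LM S Λ R0 x (x v + 1)) (inc S v)) :
    ∃ (x' : V → ℕ) (Z' : J → ℕ → Finset V), Inv S t Λ R0 Lh q x' Z' ∧ ∑ w, x w < ∑ w, x' w := by
  refine move_gen H hS1a hS1b hS1c hS2c I v (x v + 1) (by omega) (by omega) Z ?_ I.z2 I.z3 ?_
  · intro x' hx' _ j l u hu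
    obtain ⟨h1, h2⟩ := I.z1 j l u hu
    exact ⟨h1, h2.trans (hx' u)⟩
  · intro x' hx' h1
    have hb := x_bound H hS2c I v
    have hi : x v + 1 ∈ Finset.Icc 2 (KK V) := by
      rw [Finset.mem_Icc]; unfold KK; omega
    have h3 := SF_gain H hS2a hS2b hx' hi (Nat.lt_succ_self _) h1 hlv
    have h3' := div_le_div_of_nonneg_right h3 H.ee_pos.le
    rw [add_div, mul_div_assoc, div_self H.ee_pos.ne', mul_one] at h3'
    have hR := H.R4
    have h4 := mul_le_mul_of_nonneg_left (cnt_mono hx') (by linarith : (0 : ℝ) ≤ (R0 : ℝ) ^ 2)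
    have hc := H.cc1
    unfold RHS
    have h5 : (R0 : ℝ) ^ 2 * cnt x + SF S Λ R0 x / ee t Λ + SZ R0 Z
        + ((R0 : ℝ) ^ 2) ^ (x v + 1)
        ≤ (R0 : ℝ) ^ 2 * cnt x' + SF S Λ R0 x' / ee t Λ + SZ R0 Z := by linarith
    have h6 := mul_le_mul_of_nonneg_left h5 (by linarith : 0 ≤ cc R0)
    rw [mul_add] at h6
    linarith

omit hS2b in
theorem move_comb {x : V → ℕ} {Z : J → ℕ → Finset V} (I : Inv S t Λ R0 Lh q x Z) (j : J) (u w : V)
    (hu : u ∈ S j) (hw : w ∈ S j) (hcard : ((S j).filter fun v => x u ≤ x v).card ≤ sgz Λ R0 Lh)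
    (hxw : x u + 2 < x w) :
    ∃ (x' : V → ℕ) (Z' : J → ℕ → Finset V), Inv S t Λ R0 Lh q x' Z' ∧ ∑ w, x w < ∑ w, x' w := by
  set i := x w - 2 with hi
  have hui : u ∉ Z j i := by
    intro h
    have := (I.z1 j i u h).2
    omega
  set Z' : J → ℕ → Finset V := fun j' l => if j' = j ∧ l = i then insert u (Z j i) else Z j' l
    with hZ'
  refine move_gen H hS1a hS1b hS1c hS2c I u i (by omega) (by omega) Z' ?_ ?_ ?_ ?_
  · intro x' hx' h1 j' l a ha
    simp only [hZ'] at ha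
    by_cases h : j' = j ∧ l = i
    · rw [if_pos h] at ha
      obtain ⟨rfl, rfl⟩ := h
      rcases Finset.mem_insert.1 ha with rfl | ha
      · exact ⟨hu, h1⟩
      · obtain ⟨g1, g2⟩ := I.z1 _ _ a ha
        exact ⟨g1, g2.trans (hx' a)⟩
    · rw [if_neg h] at ha
      obtain ⟨g1, g2⟩ := I.z1 _ _ a ha
      exact ⟨g1, g2.trans (hx' a)⟩
  · intro j' l
    simp only [hZ']
    by_cases h : j' = j ∧ l = i
    · rw [if_pos h]
      refine le_trans (Finset.card_le_card ?_) hcard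
      intro a ha
      rw [Finset.mem_filter]
      rcases Finset.mem_insert.1 ha with rfl | ha
      · exact ⟨hu, le_rfl⟩
      · obtain ⟨g1, g2⟩ := I.z1 _ _ a ha
        exact ⟨g1, by omega⟩
    · rw [if_neg h]; exact I.z2 j' l
  · intro j' l hl
    simp only [hZ'] at hl
    by_cases h : j' = j ∧ l = i
    · obtain ⟨rfl, rfl⟩ := h
      exact ⟨w, hw, by omega⟩
    · rw [if_neg h] at hl
      exact I.z3 j' l hl
  · intro x' hx' h1
    have hb := x_bound H hS2c I w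
    have hiI : i ∈ Finset.Icc 1 (KK V) := by
      rw [Finset.mem_Icc]; unfold KK; omega
    have hz : SZ R0 Z + ((R0 : ℝ) ^ 2) ^ i ≤ SZ R0 Z' := by
      unfold SZ
      have e : ((R0 : ℝ) ^ 2) ^ i = ∑ j', ∑ l ∈ Finset.Icc 1 (KK V),
          ((R0 : ℝ) ^ 2) ^ l * (if j' = j ∧ l = i then (1 : ℝ) else 0) := by
        rw [Finset.sum_eq_single j]
        · rw [Finset.sum_eq_single i]
          · simp
          · intro l _ hl
            rw [if_neg (fun h => hl h.2), mul_zero]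
          · intro h; exact absurd hiI h
        · intro j' _ hj'
          refine Finset.sum_eq_zero fun l _ => ?_
          rw [if_neg (fun h => hj' h.1), mul_zero]
        · intro h; exact absurd (Finset.mem_univ j) h
      rw [e, ← Finset.sum_add_distrib]
      refine Finset.sum_le_sum fun j' _ => ?_
      rw [← Finset.sum_add_distrib]
      refine Finset.sum_le_sum fun l _ => ?_
      rw [← mul_add]
      refine mul_le_mul_of_nonneg_left ?_ (by positivity)
      simp only [hZ']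
      by_cases h : j' = j ∧ l = i
      · rw [if_pos h, if_pos h, Finset.card_insert_of_notMem hui, h.1, h.2]
        push_cast
        exact le_rfl
      · rw [if_neg h, if_neg h, add_zero]
    have h3 := div_le_div_of_nonneg_right (SF_mono H hS2a hx') H.ee_pos.le
    have hR := H.R4
    have h4 := mul_le_mul_of_nonneg_left (cnt_mono hx') (by linarith : (0 : ℝ) ≤ (R0 : ℝ) ^ 2)
    have hc := H.cc1
    unfold RHS
    have h5 : (R0 : ℝ) ^ 2 * cnt x + SF S Λ R0 x / ee t Λ + SZ R0 Z + ((R0 : ℝ) ^ 2) ^ i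
        ≤ (R0 : ℝ) ^ 2 * cnt x' + SF S Λ R0 x' / ee t Λ + SZ R0 Z' := by linarith
    have h6 := mul_le_mul_of_nonneg_left h5 (by linarith : 0 ≤ cc R0)
    rw [mul_add] at h6
    linarith

end moves

/-- the initial state -/
theorem inv_init {S : J → Finset V} {t Λ R0 Lh q : ℕ} (H : Hyp S t Λ R0 Lh q) :
    Inv S t Λ R0 Lh q (fun _ => 0) (fun _ _ => ∅) := by
  have hL := H.Lpos
  have hM : ∀ m ∈ Finset.Icc 1 (KK V), Mx S Lh (pp R0) (fun _ : V => 0) m
      = (Lh : ℝ) • (1 : Matrix J J ℝ) := by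
    intro m hm
    have hm1 := (Finset.mem_Icc.1 hm).1
    unfold Mx
    have e1 : lvl (fun _ : V => 0) (m + 1) = ∅ := by
      ext v; simp [lvl]
    have e2 : exq (fun _ : V => 0) m = ∅ := by
      ext v
      simp only [exq, Finset.mem_filter, Finset.mem_univ, true_and, Finset.notMem_empty, iff_false]
      omega
    rw [e1, e2]
    simp [Gm]
  have hpd : ((Lh : ℝ) • (1 : Matrix J J ℝ)).PosDef := Matrix.PosDef.one.smul hL
  refine ⟨fun j i u hu => absurd hu (Finset.notMem_empty u), fun j i => by simp,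
    fun j i h => absurd h Finset.not_nonempty_empty, fun m hm => ?_, ?_⟩
  · rw [hM m hm]; exact hpd
  · have h1 : XX ((R0 : ℝ) ^ 2) (fun _ : V => 0) = 0 := by
      unfold XX
      simp
    have h2 : cnt (fun _ : V => 0) = 0 := by
      unfold cnt
      simp
    have h3 : SZ R0 (fun (_ : J) (_ : ℕ) => (∅ : Finset V)) = 0 := by
      unfold SZ
      simp
    have h4 : SF S Λ R0 (fun _ : V => 0) = 0 := by
      unfold SF
      refine Finset.sum_eq_zero fun i hi => ?_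
      have hi2 := (Finset.mem_Icc.1 hi).1
      have e1 : lvl (fun _ : V => 0) i = ∅ := by
        ext v
        simp only [lvl, Finset.mem_filter, Finset.mem_univ, true_and, Finset.notMem_empty,
          iff_false]
        omega
      unfold Fi FF
      rw [e1]
      have hpos : ∀ j, 0 < ridge Λ R0 (S j) (fun _ : V => 0) i := fun j =>
        lt_of_lt_of_le zero_lt_one (ridge_ge H.Λ1 _ _ _)
      simp only [Gm, Finset.sum_empty, add_zero, Matrix.det_diagonal]
      rw [Real.log_prod (fun j _ => (hpos j).ne'), sub_self, mul_zero]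
    have h5 : ST S Lh (pp R0) q (KK V) (fun _ : V => 0) = KK V * Fintype.card J := by
      unfold ST
      have e : ∀ m ∈ Finset.Icc 1 (KK V), (Lh : ℝ) ^ q * TP (Mx S Lh (pp R0) (fun _ : V => 0) m) q
          = Fintype.card J := by
        intro m hm
        rw [hM m hm]
        unfold TP
        have e3 : ((Lh : ℝ) • (1 : Matrix J J ℝ))⁻¹ = (Lh : ℝ)⁻¹ • (1 : Matrix J J ℝ) := by
          apply Matrix.inv_eq_right_inv
          rw [smul_mul_smul_comm, mul_one, mul_inv_cancel₀ hL.ne', one_smul]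
        rw [e3, smul_pow, one_pow, Matrix.trace_smul, Matrix.trace_one, smul_eq_mul, inv_pow,
          ← mul_assoc, mul_inv_cancel₀ (pow_pos hL q).ne', one_mul]
      rw [Finset.sum_congr rfl e, Finset.sum_const, Nat.card_Icc, nsmul_eq_mul]
      congr 2
    rw [h1, h5]
    unfold RHS
    rw [h2, h3, h4, H.gg_mul]
    simp

end Pool.Agent.Helper92.BO
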